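import Pool.Agent.HER47.Targets

/-!
# Theorem H: assembly
-/

set_option autoImplicit false

namespace Pool.Agent.HER47

open Finset Classical

/-- The class of the graphs without a subgraph `F i`. -/
def FreeOf {ι : Type} {W : ι → Type} (F : ∀ i, SimpleGraph (W i)) : Cls :=
  fun _ G => ∀ i, (F i).Free G

/-- Classes closed under disjoint unions or joins. -/
theorem main_union (hSUP : T_SUP) (hUNI : T_UNI) (C : Cls) (hC : Her C)
    (hU : (∀ (V W : Type) [Finite V] [Finite W] (G : SimpleGraph V) (H : SimpleGraph W),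
      C V G → C W H → C (V ⊕ W) (G ⊕g H)) ∨
    (∀ (V W : Type) [Finite V] [Finite W] (G : SimpleGraph V) (H : SimpleGraph W),
      C V G → C W H → C (V ⊕ W) ((Gᶜ ⊕g Hᶜ)ᶜ)))
    (hB : ∃ N : ℕ, ∀ n : ℕ, N ≤ n → Big C n) :
    ∃ N : ℕ, ∀ n : ℕ, N ≤ n → n ^ n * bn C n ≤ cn C n :=
  hSUP C hC (hUNI C hC hU) hB

/-- Graphs without a subgraph `F i`. -/
theorem main_free (hSUP : T_SUP) (hUNI : T_UNI) (hGIR : T_GIR) (hMONO : T_MONO) (hFREE : T_FREE)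
    (ι : Type) (W : ι → Type) (F : ∀ i, SimpleGraph (W i)) (k : ℕ)
    (hF : ∀ i, (F i).Connected ∧ (F i).egirth ≤ k) :
    ∃ N : ℕ, ∀ n : ℕ, N ≤ n → n ^ n * bn (FreeOf F) n ≤ cn (FreeOf F) n := by
  have hF' : ∀ i, (F i).Connected ∧ (F i).egirth ≤ ((k + 1 : ℕ) : ℕ∞) := fun i =>
    ⟨(hF i).1, (hF i).2.trans (by exact_mod_cast Nat.le_succ k)⟩
  obtain ⟨h1, h2, h3, h4⟩ := hFREE ι W F (k + 1) hF'
  refine main_union hSUP hUNI (FreeOf F) h1 (Or.inl fun V V' _ _ G H hG hH => h2 V V' G H hG hH) ?_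
  obtain ⟨n₀, hn₀⟩ := hGIR (k + 1) (by omega)
  refine ⟨n₀, fun n hn => ?_⟩
  obtain ⟨G, hg, he⟩ := hn₀ n hn
  have h5 := hMONO (FreeOf F) (fun n G H hGH hH => h3 (Fin n) G H hGH hH) n G
    (h4 (Fin n) G hg)
  unfold Big
  calc (2 : ℝ) ^ (80 * (n : ℝ) * (Real.logb 2 n) ^ 3)
      ≤ (2 : ℝ) ^ ((Nat.card G.edgeSet : ℕ) : ℝ) :=
        Real.rpow_le_rpow_of_exponent_le (by norm_num) he
    _ = ((2 ^ Nat.card G.edgeSet : ℕ) : ℝ) := by
        rw [Real.rpow_natCast]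
        push_cast
        rfl
    _ ≤ (cn (FreeOf F) n : ℝ) := by exact_mod_cast h5

end Pool.Agent.HER47
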