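import Pool.Agent.HER47.TargetsV
import Pool.Agent.Two9.Hered

/-!
# Theorem H, part V: assembly
-/

set_option autoImplicit false

namespace Pool.Agent.HER47

open Finset Classical

/-- Hereditary classes with many members contain all bipartite, or all co-bipartite, or all split
graphs. -/
theorem dich (hSHA : T_SHA) (hCNT : T_CNT) (C : Cls) (hC : Her C) (δ : ℝ) (hδ : 0 < δ)
    (hB : ∀ N : ℕ, ∃ n : ℕ, N ≤ n ∧ (2 : ℝ) ^ (δ * (n : ℝ) ^ 2) ≤ (cn C n : ℝ)) (n : ℕ) :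
    (∀ B : SimpleGraph (Fin n), B.Colorable 2 → C (Fin n) B) ∨
    (∀ B : SimpleGraph (Fin n), Bᶜ.Colorable 2 → C (Fin n) B) ∨
    (∀ B : SimpleGraph (Fin n), (∃ s : Set (Fin n), B.IsClique s ∧ B.IsIndepSet sᶜ) →
      C (Fin n) B) := by
  obtain ⟨d, hd⟩ := hSHA n
  by_cases hex : ∃ (m : ℕ) (G : SimpleGraph (Fin m)) (S : Finset (Fin m)),
      C (Fin m) G ∧ Shat G S ∧ d ≤ S.card
  · obtain ⟨m, G, S, hG, hS, hdS⟩ := hex
    obtain ⟨S', hS', hc⟩ := Finset.exists_subset_card_eq hdS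
    have hSh : Shat G S' := by
      intro T hT
      obtain ⟨v, hv⟩ := hS T (hT.trans hS')
      exact ⟨v, fun s hs => hv s (hS' hs)⟩
    rcases hd (Fin m) G S' hc hSh with h | h | h
    · refine Or.inl fun B hB => ?_
      obtain ⟨f, rfl⟩ := h B hB
      exact hC _ _ f G hG
    · refine Or.inr (Or.inl fun B hB => ?_)
      obtain ⟨f, rfl⟩ := h B hB
      exact hC _ _ f G hG
    · refine Or.inr (Or.inr fun B hB => ?_)
      obtain ⟨f, rfl⟩ := h B hB
      exact hC _ _ f G hG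
  · exfalso
    push Not at hex
    obtain ⟨N, hN⟩ := hCNT d (δ / 2) (by positivity)
    obtain ⟨m, hm, hcm⟩ := hB (max N 1)
    have hm1 : 1 ≤ m := (le_max_right _ _).trans hm
    have h1 := hN m ((le_max_left _ _).trans hm)
    have h2 : cn C m ≤ Nat.card {G : SimpleGraph (Fin m) //
        ∀ S : Finset (Fin m), Shat G S → S.card < d} := by
      refine Nat.card_le_card_of_injective
        (fun G => (⟨G.1, fun S hS => hex m G.1 S G.2 hS⟩ : {G : SimpleGraph (Fin m) //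
          ∀ S : Finset (Fin m), Shat G S → S.card < d})) ?_
      intro G G' h
      exact Subtype.ext (congrArg (fun x => x.1) h)
    have h3 : (2 : ℝ) ^ (δ * (m : ℝ) ^ 2) ≤ 2 ^ (δ / 2 * (m : ℝ) ^ 2) :=
      hcm.trans ((by exact_mod_cast h2 : (cn C m : ℝ) ≤ _).trans h1)
    have h4 : (1 : ℝ) ≤ m := by exact_mod_cast hm1
    have h5 : δ / 2 * (m : ℝ) ^ 2 < δ * (m : ℝ) ^ 2 := by
      have : 0 < δ * (m : ℝ) ^ 2 := by positivity
      linarith
    have h6 := Real.rpow_lt_rpow_of_exponent_lt (by norm_num : (1 : ℝ) < 2) h5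
    linarith

/-- Part V. -/
theorem main_quad (hSHA : T_SHA) (hCNT : T_CNT) (C : Cls) (hC : Her C) (δ : ℝ) (hδ : 0 < δ)
    (hB : ∀ N : ℕ, ∃ n : ℕ, N ≤ n ∧ (2 : ℝ) ^ (δ * (n : ℝ) ^ 2) ≤ (cn C n : ℝ))
    (ε : ℝ) (hε : 0 < ε) :
    ∃ N : ℕ, ∀ n : ℕ, N ≤ n → (bn C n : ℝ) ≤ 2 ^ ((2 / 9 + ε) * (n : ℝ) ^ 2) ∧
      2 ^ (n ^ 2 / 4) ≤ cn C n := by
  obtain ⟨N, hN⟩ := Pool.Agent.Two9.main ε hε
  refine ⟨N, fun n hn => ⟨le_trans ?_ (hN n hn).1, ?_⟩⟩
  · have : bn C n ≤ Nat.card {G : SimpleGraph (Fin n) // ¬ Pool.Agent.Two9.Rec G} := by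
      refine Nat.card_le_card_of_injective
        (fun G => (⟨G.1, G.2.2⟩ : {G : SimpleGraph (Fin n) // ¬ Pool.Agent.Two9.Rec G})) ?_
      intro G G' h
      exact Subtype.ext (congrArg (fun x => x.1) h)
    exact_mod_cast this
  · have h1 := Pool.Agent.Two9.class_card {G : SimpleGraph (Fin n) | C (Fin n) G}
      (dich hSHA hCNT C hC δ hδ hB n)
    rw [Fintype.card_fin] at h1
    have h2 : n ^ 2 / 4 = (n / 2) * (n - n / 2) := by
      obtain ⟨m, hm | hm⟩ : ∃ m, n = 2 * m ∨ n = 2 * m + 1 := ⟨n / 2, by omega⟩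
      · subst hm
        have e1 : 2 * m / 2 = m := by omega
        have e2 : 2 * m - m = m := by omega
        rw [e1, e2, show (2 * m) ^ 2 = 4 * (m * m) by ring, Nat.mul_div_cancel_left _ (by omega)]
      · subst hm
        have e1 : (2 * m + 1) / 2 = m := by omega
        have e2 : 2 * m + 1 - m = m + 1 := by omega
        rw [e1, e2, show (2 * m + 1) ^ 2 = 1 + 4 * (m * (m + 1)) by ring,
          Nat.add_mul_div_left _ _ (by omega)]
        omega
    rw [h2]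
    exact h1

end Pool.Agent.HER47
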