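import Pool.Agent.HER47.TargetsX

/-!
# Theorem H, part X: assembly
-/

set_option autoImplicit false

namespace Pool.Agent.HER47

open Finset Classical

lemma her_fr {ι : Type} {W : ι → Type} (F : ∀ i, SimpleGraph (W i)) : Her (Fr F) := by
  intro V V' _ f G hG i hc
  obtain ⟨φ⟩ := hc
  refine hG i ⟨⟨⟨fun w => f (φ w), fun {a b} hab => ?_⟩, fun a b hab => ?_⟩⟩
  · exact φ.toHom.map_adj hab
  · exact φ.injective (f.injective hab)

/-- Graphs without a subgraph in a family of graphs which are not forests. -/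
theorem main_fr (hSUG : T_SUG) (hNEA : T_NEA) (hGU : T_GU) (hGIR : T_GIR) (hMONO : T_MONO)
    (ι : Type) (W : ι → Type) [∀ i, Finite (W i)] (F : ∀ i, SimpleGraph (W i)) (k : ℕ)
    (hF : ∀ i, Nat.card (W i) ≤ k ∧ ¬ (F i).IsAcyclic) :
    ∃ N : ℕ, ∀ n : ℕ, N ≤ n → n ^ n * bn (Fr F) n ≤ cn (Fr F) n := by
  obtain ⟨-, -, h3, -⟩ := hGU (k + 1)
  have hbig : ∃ N : ℕ, ∀ n : ℕ, N ≤ n → Big (gcls (k + 1)) n := by
    obtain ⟨n₀, hn₀⟩ := hGIR (k + 1) (by omega)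
    refine ⟨n₀, fun n hn => ?_⟩
    obtain ⟨G, hg, he⟩ := hn₀ n hn
    have h5 := hMONO (gcls (k + 1)) (fun n G H hGH hH => h3 (Fin n) G H hGH hH) n G hg
    unfold Big
    calc (2 : ℝ) ^ (80 * (n : ℝ) * (Real.logb 2 n) ^ 3)
        ≤ (2 : ℝ) ^ ((Nat.card G.edgeSet : ℕ) : ℝ) :=
          Real.rpow_le_rpow_of_exponent_le (by norm_num) he
      _ = ((2 ^ Nat.card G.edgeSet : ℕ) : ℝ) := by
          rw [Real.rpow_natCast]
          push_cast
          rfl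
      _ ≤ (cn (gcls (k + 1)) n : ℝ) := by exact_mod_cast h5
  obtain ⟨B, hB⟩ := hNEA ι W F (k + 1) (fun i => ⟨(hF i).1.trans (Nat.le_succ k), (hF i).2⟩) hbig
  exact hSUG (Fr F) (gcls (k + 1)) B (her_fr F) hB hbig

end Pool.Agent.HER47
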