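import Mathlib
import Pool.Agent.Lib.Recon.Final

/-!
# Non-reconstructible graphs have many near twins

A graph with a non-reconstructible truncated clique lattice has, for every maximal set `M` of
vertices which are pairwise distinguished by many vertices, many vertices outside `M`.
-/

set_option autoImplicit false

namespace Pool.Agent.HER47

open Finset Classical

/-- The truncated clique lattice `T(G)` is reconstructible. -/
def Rec {V : Type} [Fintype V] (G : SimpleGraph V) : Prop :=
  ∀ (W : Type) [Fintype W] (H : SimpleGraph W) (f : V ≃ W),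
    (∀ v : V,
      Nonempty ({s : Finset V // s.Nonempty ∧ G.IsClique (s : Set V) ∧ v ∉ s} ≃o
        {t : Finset W // t.Nonempty ∧ H.IsClique (t : Set W) ∧ f v ∉ t})) →
    Nonempty ({s : Finset V // s.Nonempty ∧ G.IsClique (s : Set V)} ≃o
      {t : Finset W // t.Nonempty ∧ H.IsClique (t : Set W)})

/-- The vertices which distinguish `u` and `v`. -/
noncomputable def ds {V : Type} [Fintype V] (G : SimpleGraph V) (u v : V) : Finset V :=
  univ.filter (fun w => w ≠ u ∧ w ≠ v ∧ ¬ (G.Adj w u ↔ G.Adj w v))

/-- Every vertex outside `M` is distinguished from some vertex of `M` by fewer than `K`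
vertices. -/
def Dom {V : Type} [Fintype V] (K : ℕ) (G : SimpleGraph V) (M : Finset V) : Prop :=
  ∀ v, v ∉ M → ∃ u ∈ M, (ds G v u).card < K

namespace Base_

variable {V : Type} [Fintype V]

lemma mem_ds {G : SimpleGraph V} {u v w : V} :
    w ∈ ds G u v ↔ w ≠ u ∧ w ≠ v ∧ ¬ (G.Adj w u ↔ G.Adj w v) := by
  simp [ds]

lemma ds_comm (G : SimpleGraph V) (u v : V) : ds G u v = ds G v u := by
  ext w
  simp only [mem_ds]
  constructor
  · rintro ⟨h1, h2, h3⟩
    exact ⟨h2, h1, fun h => h3 h.symm⟩
  · rintro ⟨h1, h2, h3⟩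
    exact ⟨h2, h1, fun h => h3 h.symm⟩

/-- A non-reconstructible graph has no small distinguishing set. -/
lemma nonrec_imp (G : SimpleGraph V) (hG : ¬ Rec G) (A : Finset V)
    (hA : ∀ u v, u ∉ A → v ∉ A → (∀ a ∈ A, G.Adj a u ↔ G.Adj a v) → u = v) :
    2 ^ (Fintype.card V - A.card) ≤ 4 * Fintype.card V ^ (2 * A.card) := by
  by_contra hcon
  push Not at hcon
  apply hG
  intro W _ H f hdeck
  have hN : Nat.card {v : V // v ∉ (A : Set V)} = Fintype.card V - A.card := by
    rw [Nat.card_eq_fintype_card, Fintype.card_subtype_compl]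
    simp
  have he : Nat.card (G.induce (A : Set V) ↪g G) ≤ Fintype.card V ^ A.card := by
    have h1 : Nat.card (G.induce (A : Set V) ↪g G) ≤ Nat.card (↥(A : Set V) → V) :=
      Nat.card_le_card_of_injective (fun φ => (φ : ↥(A : Set V) → V)) DFunLike.coe_injective
    refine h1.trans (le_of_eq ?_)
    rw [Nat.card_eq_fintype_card, Fintype.card_fun]
    simp
  have hr : 1 ≤ Nat.card {φ : G.induce (A : Set V) ↪g G //
      ∃ α : G ≃g G, ∀ a : (A : Set V), φ a = α a} := by
    have : Nonempty {φ : G.induce (A : Set V) ↪g G //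
      ∃ α : G ≃g G, ∀ a : (A : Set V), φ a = α a} :=
      ⟨⟨SimpleGraph.Embedding.induce (A : Set V), SimpleGraph.Iso.refl, fun a => rfl⟩⟩
    exact Nat.card_pos
  refine Pool.Agent.Lib.Recon.master_clique G H (A : Set V) 1 ?_ ?_ ?_ f hdeck
  · intro u v hu hv h w _ _
    rw [hA u v hu hv h]
  · intro u hu
    have : Subsingleton {v : V // v ∉ (A : Set V) ∧ ∀ a ∈ (A : Set V), G.Adj a u ↔ G.Adj a v} :=
      ⟨fun x y => Subtype.ext ((hA u x.1 hu x.2.1 x.2.2).symm.trans (hA u y.1 hu y.2.1 y.2.2))⟩
    exact Finite.card_le_one_iff_subsingleton.mpr this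
  · rw [hN]
    calc (2 * Nat.card (G.induce (A : Set V) ↪g G)) ^ (1 + 1)
        ≤ (2 * Fintype.card V ^ A.card) ^ (1 + 1) := Nat.pow_le_pow_left (by omega) _
      _ = 4 * Fintype.card V ^ (2 * A.card) := by
          rw [show 1 + 1 = 2 from rfl, mul_pow, ← pow_mul, mul_comm A.card 2]
          norm_num
      _ < 2 ^ (Fintype.card V - A.card) := hcon
      _ = 2 ^ (Fintype.card V - A.card) * 1 ^ (1 + 1) := by simp
      _ ≤ _ := Nat.mul_le_mul_left _ (Nat.pow_le_pow_left hr _)

/-- The greedy distinguishing set. -/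
lemma greedy (G : SimpleGraph V) (P : Finset (V × V)) (K : ℕ)
    (hP : ∀ p ∈ P, K ≤ (ds G p.1 p.2).card) (t : ℕ) :
    ∃ A : Finset V, A.card ≤ t ∧
      (P.filter (fun p => ∀ a ∈ A, a ∉ ds G p.1 p.2)).card * Fintype.card V ^ t ≤
        P.card * (Fintype.card V - K) ^ t := by
  induction t with
  | zero => exact ⟨∅, by simp, by simp⟩
  | succ t ih =>
    obtain ⟨A, hA, hc⟩ := ih
    set Q := P.filter (fun p => ∀ a ∈ A, a ∉ ds G p.1 p.2) with hQ
    rcases isEmpty_or_nonempty V with hV | hV
    · refine ⟨∅, by simp, ?_⟩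
      have : P = ∅ := Finset.eq_empty_of_forall_notMem fun p _ => hV.elim p.1
      simp [this]
    -- a vertex which distinguishes many pairs of `Q`
    obtain ⟨w, hw⟩ : ∃ w : V, K * Q.card ≤
        Fintype.card V * (Q.filter (fun p => w ∈ ds G p.1 p.2)).card := by
      by_contra hcon
      push Not at hcon
      have h1 : ∑ w : V, (Q.filter (fun p => w ∈ ds G p.1 p.2)).card =
          ∑ p ∈ Q, (ds G p.1 p.2).card := by
        simp_rw [Finset.card_filter]
        rw [Finset.sum_comm]
        refine Finset.sum_congr rfl fun p _ => ?_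
        rw [← Finset.card_filter]
        congr 1
        ext w
        simp
      have h2 : K * Q.card ≤ ∑ p ∈ Q, (ds G p.1 p.2).card := by
        rw [mul_comm, ← smul_eq_mul]
        exact Finset.card_nsmul_le_sum _ _ _ fun p hp => hP p (Finset.mem_filter.mp hp).1
      have h3 : Fintype.card V * ∑ w : V, (Q.filter (fun p => w ∈ ds G p.1 p.2)).card <
          Fintype.card V * (K * Q.card) := by
        rw [Finset.mul_sum]
        calc _ < ∑ w : V, K * Q.card := by
              apply Finset.sum_lt_sum_of_nonempty univ_nonempty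
              intro w _
              exact hcon w
          _ = _ := by simp
      rw [h1] at h3
      exact absurd (Nat.mul_le_mul_left (Fintype.card V) h2) (not_le.mpr h3)
    refine ⟨insert w A, (Finset.card_insert_le _ _).trans (by omega), ?_⟩
    have hsub : P.filter (fun p => ∀ a ∈ insert w A, a ∉ ds G p.1 p.2) =
        Q.filter (fun p => w ∉ ds G p.1 p.2) := by
      ext p
      simp only [hQ, Finset.mem_filter, Finset.mem_insert, forall_eq_or_imp]
      tauto
    rw [hsub]
    have hsplit : (Q.filter (fun p => w ∈ ds G p.1 p.2)).card +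
        (Q.filter (fun p => w ∉ ds G p.1 p.2)).card = Q.card :=
      Finset.card_filter_add_card_filter_not _
    set x := (Q.filter (fun p => w ∈ ds G p.1 p.2)).card
    set y := (Q.filter (fun p => w ∉ ds G p.1 p.2)).card
    have h4 : y * Fintype.card V ≤ Q.card * (Fintype.card V - K) := by
      rw [Nat.mul_sub]
      apply Nat.le_sub_of_add_le
      calc y * Fintype.card V + Q.card * K = y * Fintype.card V + K * Q.card := by ring
        _ ≤ y * Fintype.card V + Fintype.card V * x := by omega
        _ = (x + y) * Fintype.card V := by ring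
        _ = Q.card * Fintype.card V := by rw [hsplit]
    calc y * Fintype.card V ^ (t + 1) = (y * Fintype.card V) * Fintype.card V ^ t := by ring
      _ ≤ (Q.card * (Fintype.card V - K)) * Fintype.card V ^ t := Nat.mul_le_mul_right _ h4
      _ = (Q.card * Fintype.card V ^ t) * (Fintype.card V - K) := by ring
      _ ≤ (P.card * (Fintype.card V - K) ^ t) * (Fintype.card V - K) :=
          Nat.mul_le_mul_right _ hc
      _ = P.card * (Fintype.card V - K) ^ (t + 1) := by ring

/-- A maximal set of vertices which are pairwise distinguished by `K` vertices. -/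
lemma exists_maximal (G : SimpleGraph V) (K : ℕ) : ∃ M : Finset V,
    (∀ u ∈ M, ∀ v ∈ M, u ≠ v → K ≤ (ds G u v).card) ∧ Dom K G M := by
  obtain ⟨M, hM, hmax⟩ := Finset.exists_max_image
    ((univ : Finset (Finset V)).filter
      (fun M => ∀ u ∈ M, ∀ v ∈ M, u ≠ v → K ≤ (ds G u v).card)) Finset.card
    ⟨∅, by simp⟩
  rw [Finset.mem_filter] at hM
  refine ⟨M, hM.2, fun v hv => ?_⟩
  by_contra hcon
  push Not at hcon
  have h1 := hmax (insert v M) (by
    rw [Finset.mem_filter]
    refine ⟨mem_univ _, fun x hx y hy hxy => ?_⟩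
    rw [Finset.mem_insert] at hx hy
    rcases hx with rfl | hx
    · rcases hy with rfl | hy
      · exact absurd rfl hxy
      · exact hcon y hy
    · rcases hy with rfl | hy
      · rw [ds_comm]
        exact hcon x hx
      · exact hM.2 x hx y hy hxy)
  rw [Finset.card_insert_of_notMem hv] at h1
  omega

/-- **Structure of the non-reconstructible graphs.** -/
theorem structure_nonrec (G : SimpleGraph V) (hG : ¬ Rec G) (K t r₀ : ℕ)
    (hpos : 0 < Fintype.card V)
    (h1 : Fintype.card V ^ 2 * (Fintype.card V - K) ^ t ≤ Fintype.card V ^ t)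
    (h2 : 4 * Fintype.card V ^ (2 * (t + r₀)) < 2 ^ (Fintype.card V - (t + r₀))) :
    ∃ M : Finset V, Dom K G M ∧ r₀ ≤ Mᶜ.card := by
  obtain ⟨M, hM, hdom⟩ := exists_maximal G K
  refine ⟨M, hdom, ?_⟩
  by_contra hr
  push Not at hr
  set P := M.offDiag with hP
  obtain ⟨A, hA, hc⟩ := greedy G P K (fun p hp => by
    rw [hP, Finset.mem_offDiag] at hp
    exact hM _ hp.1 _ hp.2.1 hp.2.2) t
  -- no pair of `M` is left
  have hPc : P.card < Fintype.card V ^ 2 := by
    have h3 : P.card ≤ M.card * M.card - M.card := by rw [hP, Finset.offDiag_card]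
    have h4 : M.card ≤ Fintype.card V := Finset.card_le_univ M
    rcases Nat.eq_zero_or_pos M.card with h0 | h0
    · rw [h0] at h3
      have : 0 < Fintype.card V ^ 2 := by positivity
      omega
    · have h5 : M.card * M.card ≤ Fintype.card V ^ 2 := by
        rw [sq]; exact Nat.mul_le_mul h4 h4
      have h6 : 0 < M.card * M.card := by positivity
      omega
  have hQ : (P.filter (fun p => ∀ a ∈ A, a ∉ ds G p.1 p.2)).card = 0 := by
    by_contra hne
    have h3 : 1 ≤ (P.filter (fun p => ∀ a ∈ A, a ∉ ds G p.1 p.2)).card :=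
      Nat.one_le_iff_ne_zero.mpr hne
    have h4 : Fintype.card V ^ t ≤ P.card * (Fintype.card V - K) ^ t :=
      (Nat.le_mul_of_pos_left _ (by omega)).trans hc
    have h5 : 0 < (Fintype.card V - K) ^ t := by
      rcases Nat.eq_zero_or_pos ((Fintype.card V - K) ^ t) with h0 | h0
      · rw [h0, mul_zero] at h4
        have : 0 < Fintype.card V ^ t := by positivity
        omega
      · exact h0
    have h6 : P.card * (Fintype.card V - K) ^ t <
        Fintype.card V ^ 2 * (Fintype.card V - K) ^ t := Nat.mul_lt_mul_of_pos_right hPc h5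
    omega
  rw [Finset.card_eq_zero] at hQ
  have hdist := nonrec_imp G hG (A ∪ Mᶜ) (by
    intro u v hu hv h
    simp only [Finset.mem_union, Finset.mem_compl, not_or, not_not] at hu hv
    by_contra huv
    have hmem : (u, v) ∈ P.filter (fun p => ∀ a ∈ A, a ∉ ds G p.1 p.2) := by
      rw [Finset.mem_filter, hP, Finset.mem_offDiag]
      refine ⟨⟨hu.2, hv.2, huv⟩, fun a ha hads => ?_⟩
      rw [mem_ds] at hads
      exact hads.2.2 (h a (Finset.mem_union_left _ ha))
    rw [hQ] at hmem
    exact absurd hmem (Finset.notMem_empty _))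
  have hcard : (A ∪ Mᶜ).card ≤ t + r₀ := (Finset.card_union_le _ _).trans (by omega)
  have h7 : 2 ^ (Fintype.card V - (t + r₀)) ≤ 2 ^ (Fintype.card V - (A ∪ Mᶜ).card) :=
    Nat.pow_le_pow_right (by omega) (by omega)
  have h8 : 4 * Fintype.card V ^ (2 * (A ∪ Mᶜ).card) ≤ 4 * Fintype.card V ^ (2 * (t + r₀)) :=
    Nat.mul_le_mul_left _ (Nat.pow_le_pow_right hpos (by omega))
  omega

end Base_

end Pool.Agent.HER47
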