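import Pool.Agent.HER47.Targets

set_option autoImplicit false

/-!
# Theorem H: numerics (target ALL)
-/

namespace Pool.Agent.HER47

open Finset Classical

namespace ALL_

lemma lt_pow_lg (n : ℕ) : n < 2 ^ lg n := Nat.lt_pow_succ_log_self (by norm_num) n

lemma small (l : ℕ) (hl : 10 ≤ l) : 32 * (l + 1) < 2 ^ (l - 1) := by
  obtain ⟨m, rfl⟩ := Nat.exists_eq_add_of_le hl
  induction m with
  | zero => norm_num
  | succ m ih =>
    have h1 := ih (by omega)
    have h2 : 10 + (m + 1) - 1 = (10 + m - 1) + 1 := by omega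
    rw [h2, pow_succ]
    omega

lemma lg_ge {n : ℕ} (hn : 1024 ≤ n) : 11 ≤ lg n := by
  unfold lg
  have h : 10 ≤ Nat.log 2 n := by
    rw [Nat.le_log_iff_pow_le (by norm_num) (by omega)]
    norm_num
    exact hn
  omega

lemma pow_lg_le {n : ℕ} (hn : 1 ≤ n) : 2 ^ (lg n - 1) ≤ n := by
  unfold lg
  rw [Nat.add_sub_cancel]
  exact Nat.pow_log_le_self 2 (by omega)

lemma first {n : ℕ} (hn : 1 ≤ n) :
    n ^ 2 * (n - 8 * lg n ^ 2) ^ (n / (4 * lg n) + 1) ≤ n ^ (n / (4 * lg n) + 1) := by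
  set l := lg n with hl
  have hl1 : 1 ≤ l := by rw [hl]; unfold lg; omega
  set t := n / (4 * l) + 1 with ht
  by_cases hK : n ≤ 8 * l ^ 2
  · rw [Nat.sub_eq_zero_of_le hK, zero_pow (Nat.succ_ne_zero _), mul_zero]
    exact Nat.zero_le _
  · push Not at hK
    have hn0 : (0 : ℝ) < n := by exact_mod_cast hn
    have h1 : (n : ℝ) - 8 * l ^ 2 ≤ n * Real.exp (-(8 * l ^ 2 / n)) := by
      have h2 := Real.add_one_le_exp (-(8 * (l : ℝ) ^ 2 / n))
      have h3 : (n : ℝ) - 8 * l ^ 2 = n * (-(8 * (l : ℝ) ^ 2 / n) + 1) := by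
        field_simp
        ring
      rw [h3]
      exact mul_le_mul_of_nonneg_left h2 hn0.le
    have h0 : (0 : ℝ) ≤ (n : ℝ) - 8 * l ^ 2 := by
      have : ((8 * l ^ 2 : ℕ) : ℝ) ≤ n := by exact_mod_cast hK.le
      push_cast at this
      linarith
    have h4 : (n : ℝ) ≤ Real.exp l := by
      have h5 : (n : ℝ) ≤ 2 ^ l := by exact_mod_cast (lt_pow_lg n).le
      refine h5.trans ?_
      rw [show (l : ℝ) = l * 1 by ring, Real.exp_nat_mul]
      refine pow_le_pow_left₀ (by norm_num) ?_ l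
      have := Real.add_one_le_exp (1 : ℝ)
      linarith
    have h6 : 2 * (l : ℝ) ≤ t * (8 * l ^ 2 / n) := by
      have h7 : n < 4 * l * t := by
        rw [ht]
        exact Nat.lt_mul_div_succ n (by omega)
      have h8 : (n : ℝ) ≤ 4 * l * t := by exact_mod_cast h7.le
      rw [← mul_div_assoc, le_div_iff₀ hn0]
      have hl0 : (0 : ℝ) ≤ l := Nat.cast_nonneg l
      nlinarith
    have h9 : (n : ℝ) ^ 2 * ((n : ℝ) - 8 * l ^ 2) ^ t ≤ (n : ℝ) ^ t := by
      calc (n : ℝ) ^ 2 * ((n : ℝ) - 8 * l ^ 2) ^ t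
          ≤ (Real.exp l) ^ 2 * (n * Real.exp (-(8 * l ^ 2 / n))) ^ t := by
            gcongr
        _ = (n : ℝ) ^ t * Real.exp (2 * l - t * (8 * l ^ 2 / n)) := by
            rw [mul_pow, ← Real.exp_nat_mul, ← Real.exp_nat_mul, sub_eq_add_neg, Real.exp_add]
            push_cast
            ring_nf
        _ ≤ (n : ℝ) ^ t * 1 := by
            refine mul_le_mul_of_nonneg_left ?_ (by positivity)
            rw [Real.exp_le_one_iff]
            linarith
        _ = _ := mul_one _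
    have h10 : ((n - 8 * l ^ 2 : ℕ) : ℝ) = (n : ℝ) - 8 * l ^ 2 := by
      rw [Nat.cast_sub hK.le]
      push_cast
      ring
    rw [← h10] at h9
    exact_mod_cast h9

lemma second {n : ℕ} (hn : 1024 ≤ n) :
    4 * n ^ (2 * (n / (4 * lg n) + 1 + (n / (8 * lg n) + 1))) <
      2 ^ (n - (n / (4 * lg n) + 1 + (n / (8 * lg n) + 1))) := by
  have hl := lg_ge hn
  have h2 := small (lg n) (by omega)
  have h3 := pow_lg_le (n := n) (by omega)
  have h1 := lt_pow_lg n
  set l := lg n with hl0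
  set a := n / (4 * l) with ha
  set b := n / (8 * l) with hb
  have ha1 : 4 * l * a ≤ n := Nat.mul_div_le n (4 * l)
  have hb1 : 8 * l * b ≤ n := Nat.mul_div_le n (8 * l)
  set q := a + 1 + (b + 1) with hq
  have h4 : 8 * l * q ≤ 3 * n + 16 * l := by
    rw [hq]
    nlinarith
  have h5 : 2 + (2 * l + 1) * q < n := by
    by_contra hcon
    push Not at hcon
    have h6 : 8 * l * n ≤ 8 * l * (2 + (2 * l + 1) * q) := Nat.mul_le_mul_left _ hcon
    have h7 : 8 * l * (2 + (2 * l + 1) * q) ≤ 16 * l + (2 * l + 1) * (3 * n + 16 * l) := by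
      calc 8 * l * (2 + (2 * l + 1) * q) = 16 * l + (2 * l + 1) * (8 * l * q) := by ring
        _ ≤ _ := by gcongr
    have h8 : 32 * (l + 1) < n := by omega
    nlinarith
  calc 4 * n ^ (2 * q) ≤ 2 ^ 2 * (2 ^ l) ^ (2 * q) :=
        Nat.mul_le_mul (by norm_num) (Nat.pow_le_pow_left h1.le _)
    _ = 2 ^ (2 + 2 * l * q) := by rw [← pow_mul, ← pow_add]; ring_nf
    _ < 2 ^ (n - q) := by
        refine Nat.pow_lt_pow_right (by norm_num) ?_
        have h9 : (2 * l + 1) * q = 2 * l * q + q := by ring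
        omega

lemma third {n : ℕ} (hn : 1024 ≤ n) (r : ℕ) :
    (n + 1) ^ ((8 * lg n ^ 2 + 3) * r) ≤ 2 ^ (9 * lg n ^ 3 * r) := by
  have hl := lg_ge hn
  have h1 : n + 1 ≤ 2 ^ lg n := lt_pow_lg n
  refine (Nat.pow_le_pow_left h1 _).trans ?_
  rw [← pow_mul]
  refine Nat.pow_le_pow_right (by norm_num) ?_
  rw [← mul_assoc]
  refine Nat.mul_le_mul_right r ?_
  set l := lg n
  have h2 : 3 * l ≤ l ^ 3 := by
    have : l ^ 3 = l * l * l := by ring
    rw [this]
    refine Nat.mul_le_mul_right l ?_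
    nlinarith
  calc l * (8 * l ^ 2 + 3) = 8 * l ^ 3 + 3 * l := by ring
    _ ≤ 8 * l ^ 3 + l ^ 3 := by omega
    _ = 9 * l ^ 3 := by ring

end ALL_

open ALL_ in
/-- ALL. -/
theorem p_ALL (h : T_SUM) : T_ALL := by
  refine ⟨1024, fun C hC n hn => ?_⟩
  refine (h C hC n (8 * lg n ^ 2) (n / (4 * lg n) + 1) (n / (8 * lg n) + 1) (by omega)
    (first (by omega)) (second hn)).trans ?_
  exact Finset.sum_le_sum fun r _ => Nat.mul_le_mul_right _ (third hn r)


end Pool.Agent.HER47
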