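import Pool.Agent.HER47.Targets

/-!
# HER47, CODE: counting graphs dominated by a set
-/

set_option autoImplicit false

namespace Pool.Agent.HER47

open Finset Classical

namespace CODE_

/-- the number of small subsets -/
theorem card_small (n K : ℕ) :
    Nat.card {Z : Finset (Fin n) // Z.card < K} ≤ (n + 1) ^ K := by
  have h1 : Function.Injective (fun (Z : {Z : Finset (Fin n) // Z.card < K}) (i : Fin K) =>
      if h : (i : ℕ) < Z.1.card then some (Z.1.orderEmbOfFin rfl ⟨i, h⟩) else none) := by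
    intro Z Y hZY
    have key : ∀ Z : {Z : Finset (Fin n) // Z.card < K}, ∀ a : Fin n, a ∈ Z.1 ↔ ∃ i : Fin K,
        (if h : (i : ℕ) < Z.1.card then some (Z.1.orderEmbOfFin rfl ⟨i, h⟩) else none) =
          some a := by
      intro Z a
      constructor
      · intro ha
        have h2 : a ∈ Set.range (Z.1.orderEmbOfFin rfl) := by
          rw [Finset.range_orderEmbOfFin]
          exact ha
        obtain ⟨j, hj⟩ := h2
        refine ⟨⟨j, lt_trans j.2 Z.2⟩, ?_⟩
        rw [dif_pos (show ((⟨(j : ℕ), lt_trans j.2 Z.2⟩ : Fin K) : ℕ) < Z.1.card from j.2)]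
        rw [← hj]
      · rintro ⟨i, hi⟩
        split_ifs at hi with h
        rw [Option.some.injEq] at hi
        rw [← hi]
        exact Finset.orderEmbOfFin_mem _ _ _
    apply Subtype.ext
    ext a
    rw [key Z a, key Y a]
    have h3 : ∀ i : Fin K,
        (if h : (i : ℕ) < Z.1.card then some (Z.1.orderEmbOfFin rfl ⟨i, h⟩) else none) =
        (if h : (i : ℕ) < Y.1.card then some (Y.1.orderEmbOfFin rfl ⟨i, h⟩) else none) :=
      fun i => congrFun hZY i
    constructor
    · rintro ⟨i, hi⟩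
      exact ⟨i, by rw [← h3 i]; exact hi⟩
    · rintro ⟨i, hi⟩
      exact ⟨i, by rw [h3 i]; exact hi⟩
  refine (Nat.card_le_card_of_injective _ h1).trans (le_of_eq ?_)
  rw [Nat.card_fun, Nat.card_eq_fintype_card, Nat.card_eq_fintype_card, Fintype.card_option,
    Fintype.card_fin, Fintype.card_fin]

/-- the code determines the graph -/
theorem code_inj {n : ℕ} {M : Finset (Fin n)} (G H : SimpleGraph (Fin n)) (m : Fin n → Fin n)
    (hm : ∀ v, v ∉ M → m v ∈ M) (h0 : ∀ a ∈ M, ∀ b ∈ M, G.Adj a b ↔ H.Adj a b)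
    (h1 : ∀ v, v ∉ M → (G.Adj v (m v) ↔ H.Adj v (m v)))
    (h2 : ∀ v, v ∉ M → ds G v (m v) = ds H v (m v)) : G = H := by
  -- one vertex outside of `M`
  have h3 : ∀ a, a ∉ M → ∀ b ∈ M, (G.Adj a b ↔ H.Adj a b) := by
    intro a ha b hb
    by_cases hbm : b = m a
    · rw [hbm]
      exact h1 a ha
    · have hba : b ≠ a := fun h => ha (h ▸ hb)
      have e1 : b ∈ ds G a (m a) ↔ b ∈ ds H a (m a) := by rw [h2 a ha]
      rw [Base_.mem_ds, Base_.mem_ds] at e1
      have e2 := h0 b hb (m a) (hm a ha)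
      rw [G.adj_comm a b, H.adj_comm a b]
      tauto
  have h4 : ∀ a, a ∉ M → ∀ b, b ∉ M → (G.Adj a b ↔ H.Adj a b) := by
    intro a ha b hb
    by_cases hba : b = a
    · rw [hba]
      simp
    · have hbm : b ≠ m a := fun h => hb (h ▸ hm a ha)
      have e1 : b ∈ ds G a (m a) ↔ b ∈ ds H a (m a) := by rw [h2 a ha]
      rw [Base_.mem_ds, Base_.mem_ds] at e1
      have e2 := h3 b hb (m a) (hm a ha)
      rw [G.adj_comm a b, H.adj_comm a b]
      tauto
  ext a b
  by_cases ha : a ∈ M
  · by_cases hb : b ∈ M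
    · exact h0 a ha b hb
    · rw [G.adj_comm a b, H.adj_comm a b]
      exact h3 b hb a ha
  · by_cases hb : b ∈ M
    · exact h3 a ha b hb
    · exact h4 a ha b hb

end CODE_

theorem p_CODE : T_CODE := by
  intro C hC n K M
  have hm0 : ∀ (G : {G : SimpleGraph (Fin n) // C (Fin n) G ∧ Dom K G M}) (v : {v // v ∉ M}),
      ∃ u : Fin n, u ∈ M ∧ (ds G.1 v.1 u).card < K := fun G v => G.2.2 v.1 v.2
  choose m hmM hmK using hm0
  let e : Fin M.card ↪ Fin n := (M.orderEmbOfFin rfl).toEmbedding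
  have he : ∀ a ∈ M, ∃ i, e i = a := by
    intro a ha
    have h2 : a ∈ Set.range (M.orderEmbOfFin rfl) := by
      rw [Finset.range_orderEmbOfFin]
      exact ha
    exact h2
  let enc : {G : SimpleGraph (Fin n) // C (Fin n) G ∧ Dom K G M} →
      {G : SimpleGraph (Fin M.card) // C (Fin M.card) G} ×
        ({v // v ∉ M} → Fin n × Bool × {Z : Finset (Fin n) // Z.card < K}) :=
    fun G => (⟨G.1.comap e, hC _ _ e G.1 G.2.1⟩,
      fun v => (m G v, decide (G.1.Adj v.1 (m G v)), ⟨ds G.1 v.1 (m G v), hmK G v⟩))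
  have hinj : Function.Injective enc := by
    intro G H hGH
    apply Subtype.ext
    have a1 : G.1.comap e = H.1.comap e := by
      have := congrArg (fun p => (p.1 : {G : SimpleGraph (Fin M.card) // C (Fin M.card) G}).1) hGH
      exact this
    have a2 : ∀ v : {v // v ∉ M}, (m G v, decide (G.1.Adj v.1 (m G v)),
        (⟨ds G.1 v.1 (m G v), hmK G v⟩ : {Z : Finset (Fin n) // Z.card < K})) =
        (m H v, decide (H.1.Adj v.1 (m H v)), ⟨ds H.1 v.1 (m H v), hmK H v⟩) := by
      intro v
      have := congrArg (fun p => p.2 v) hGH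
      exact this
    have b1 : ∀ v, m G v = m H v := fun v => congrArg (fun p => p.1) (a2 v)
    have b2 : ∀ v : {v // v ∉ M}, (G.1.Adj v.1 (m G v) ↔ H.1.Adj v.1 (m H v)) := by
      intro v
      have := congrArg (fun p => p.2.1) (a2 v)
      exact decide_eq_decide.1 this
    have b3 : ∀ v : {v // v ∉ M}, ds G.1 v.1 (m G v) = ds H.1 v.1 (m H v) := by
      intro v
      have := congrArg (fun p => p.2.2.1) (a2 v)
      exact this
    refine CODE_.code_inj (M := M) G.1 H.1
      (fun v => if h : v ∉ M then m G ⟨v, h⟩ else v) ?_ ?_ ?_ ?_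
    · intro v hv
      rw [dif_pos hv]
      exact hmM G _
    · intro a ha b hb
      obtain ⟨i, rfl⟩ := he a ha
      obtain ⟨j, rfl⟩ := he b hb
      have h5 : (G.1.comap e).Adj i j ↔ (H.1.comap e).Adj i j := by rw [a1]
      exact h5
    · intro v hv
      rw [dif_pos hv]
      have := b2 ⟨v, hv⟩
      rw [← b1 ⟨v, hv⟩] at this
      exact this
    · intro v hv
      rw [dif_pos hv]
      have := b3 ⟨v, hv⟩
      rw [← b1 ⟨v, hv⟩] at this
      exact this
  have hcard := Nat.card_le_card_of_injective enc hinj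
  refine hcard.trans ?_
  rw [Nat.card_prod, Nat.card_fun, Nat.card_prod, Nat.card_prod]
  have hc1 : Nat.card {v : Fin n // v ∉ M} = n - M.card := by
    rw [Nat.card_eq_fintype_card, Fintype.card_subtype_compl]
    simp
  have hc2 : Nat.card (Fin n) = n := by simp
  have hc3 : Nat.card Bool = 2 := by simp
  rw [hc1, hc2, hc3]
  refine Nat.mul_le_mul_left _ (Nat.pow_le_pow_left ?_ _)
  calc n * (2 * Nat.card {Z : Finset (Fin n) // Z.card < K}) ≤ n * (2 * (n + 1) ^ K) :=
        Nat.mul_le_mul_left _ (Nat.mul_le_mul_left _ (CODE_.card_small n K))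
    _ = 2 * n * (n + 1) ^ K := by ring

end Pool.Agent.HER47
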