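import Pool.Agent.HER47.Targets

/-!
# Graphs without a subgraph from a family of connected graphs
-/

set_option autoImplicit false

namespace Pool.Agent.HER47

open Finset Classical

namespace FREE_

/-- a copy of a connected graph in a disjoint union is a copy in one of the two parts -/
theorem sum_copy {V V' W : Type} {F : SimpleGraph W} (hF : F.Connected) {G : SimpleGraph V}
    {H : SimpleGraph V'} (c : SimpleGraph.Copy F (G ⊕g H)) :
    F.IsContained G ∨ F.IsContained H := by
  obtain ⟨a0⟩ := hF.nonempty
  have hr : ∀ a, (G ⊕g H).Reachable (c a0) (c a) := fun a =>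
    (hF.preconnected a0 a).map c.toHom
  rcases h0 : c a0 with v0 | w0
  · left
    have h1 : ∀ a, ∃ v, c a = Sum.inl v := by
      intro a
      rcases h : c a with v | w
      · exact ⟨v, rfl⟩
      · exfalso
        have h2 := hr a
        rw [h0, h] at h2
        exact SimpleGraph.not_reachable_sum_inl_inr _ _ h2
    choose g hg using h1
    refine ⟨⟨⟨g, ?_⟩, ?_⟩⟩
    · intro a b hab
      have h3 : (G ⊕g H).Adj (c a) (c b) := c.toHom.map_adj hab
      rw [hg, hg] at h3
      exact SimpleGraph.sum_adj_inl.1 h3
    · intro a b hab
      apply c.injective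
      change g a = g b at hab
      change c a = c b
      rw [hg, hg, hab]
  · right
    have h1 : ∀ a, ∃ v, c a = Sum.inr v := by
      intro a
      rcases h : c a with v | w
      · exfalso
        have h2 := (hr a).symm
        rw [h0, h] at h2
        exact SimpleGraph.not_reachable_sum_inl_inr _ _ h2
      · exact ⟨w, rfl⟩
    choose g hg using h1
    refine ⟨⟨⟨g, ?_⟩, ?_⟩⟩
    · intro a b hab
      have h3 : (G ⊕g H).Adj (c a) (c b) := c.toHom.map_adj hab
      rw [hg, hg] at h3
      exact SimpleGraph.sum_adj_inr.1 h3
    · intro a b hab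
      apply c.injective
      change g a = g b at hab
      change c a = c b
      rw [hg, hg, hab]

end FREE_

theorem p_FREE : T_FREE := by
  intro ι W F k hF
  refine ⟨?_, ?_, ?_, ?_⟩
  · intro V U _ f G hG i hc
    exact hG i (hc.trans ⟨(SimpleGraph.Embedding.comap f G).toCopy⟩)
  · rintro V V' G H hG hH i ⟨c⟩
    rcases FREE_.sum_copy (hF i).1 c with h | h
    · exact hG i h
    · exact hH i h
  · intro V G H hGH hH i hc
    exact hH i (hc.mono_right hGH)
  · intro V G hG i hc
    have h1 := hc.egirth_le
    exact absurd (hG.trans_le (h1.trans (hF i).2)) (lt_irrefl _)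

end Pool.Agent.HER47
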