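import Pool.Agent.HER47.Targets

/-!
# HER47: target GIR
-/

set_option autoImplicit false

namespace Pool.Agent.HER47

open Finset Classical

namespace GIR_

theorem big (k : ℕ) : ∃ n₀ : ℕ, ∀ n : ℕ, n₀ ≤ n → 3 ≤ (n : ℝ) ∧
    2 * ((⌈320 * (Real.logb 2 n) ^ 3⌉₊ : ℝ) + 1) ^ k ≤ n := by
  have h1 : ∀ᶠ x : ℝ in Filter.atTop, ‖Real.log x ^ (3 * k)‖ ≤
      (1 / (2 * 2562 ^ k)) * ‖id x‖ :=
    (Real.isLittleO_pow_log_id_atTop (n := 3 * k)).bound (by positivity)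
  obtain ⟨n₀, hn₀⟩ := Filter.eventually_atTop.1 (h1.and (Filter.eventually_ge_atTop 3))
  refine ⟨⌈n₀⌉₊, fun n hn => ?_⟩
  obtain ⟨h3, h4⟩ := hn₀ n (Nat.ceil_le.1 hn)
  refine ⟨h4, ?_⟩
  have hn3 : (0 : ℝ) < n := by linarith
  have hlog : 1 ≤ Real.log n := by
    have h5 : Real.exp 1 ≤ n := by
      have := Real.exp_one_lt_d9
      linarith
    have := Real.log_le_log (Real.exp_pos 1) h5
    rwa [Real.log_exp] at this
  have hlb : Real.logb 2 n ≤ 2 * Real.log n := by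
    have h5 := Real.log_two_gt_d9
    rw [Real.logb, div_le_iff₀ (by linarith)]
    nlinarith
  have hlb0 : 0 ≤ Real.logb 2 n := Real.logb_nonneg (by norm_num) (by linarith)
  have h5 : (Real.logb 2 n) ^ 3 ≤ 8 * Real.log n ^ 3 := by
    calc (Real.logb 2 n) ^ 3 ≤ (2 * Real.log n) ^ 3 := pow_le_pow_left₀ hlb0 hlb 3
      _ = 8 * Real.log n ^ 3 := by ring
  have h6 : (1 : ℝ) ≤ Real.log n ^ 3 := one_le_pow₀ hlog
  have h7 : (⌈320 * (Real.logb 2 n) ^ 3⌉₊ : ℝ) + 1 ≤ 2562 * Real.log n ^ 3 := by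
    have := Nat.ceil_lt_add_one (show 0 ≤ 320 * (Real.logb 2 n) ^ 3 by positivity)
    linarith
  have h8 : ((⌈320 * (Real.logb 2 n) ^ 3⌉₊ : ℝ) + 1) ^ k ≤ 2562 ^ k * Real.log n ^ (3 * k) := by
    calc ((⌈320 * (Real.logb 2 n) ^ 3⌉₊ : ℝ) + 1) ^ k ≤ (2562 * Real.log n ^ 3) ^ k :=
          pow_le_pow_left₀ (by positivity) h7 k
      _ = _ := by rw [mul_pow, ← pow_mul]
  rw [Real.norm_of_nonneg (by positivity), id, Real.norm_of_nonneg hn3.le] at h3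
  calc 2 * ((⌈320 * (Real.logb 2 n) ^ 3⌉₊ : ℝ) + 1) ^ k
      ≤ 2 * (2562 ^ k * Real.log n ^ (3 * k)) := mul_le_mul_of_nonneg_left h8 (by norm_num)
    _ ≤ 2 * (2562 ^ k * (1 / (2 * 2562 ^ k) * n)) := by gcongr
    _ = n := by field_simp

end GIR_

theorem p_GIR (h : T_GRE) : T_GIR := by
  intro k hk
  obtain ⟨n₀, hn₀⟩ := GIR_.big k
  refine ⟨n₀, fun n hn => ?_⟩
  obtain ⟨h3, h4⟩ := hn₀ n hn
  obtain ⟨G, hG, hG2⟩ := h k ⌈320 * (Real.logb 2 n) ^ 3⌉₊ n hk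
  refine ⟨G, hG, ?_⟩
  have h5 : ((⌈320 * (Real.logb 2 n) ^ 3⌉₊ : ℕ) : ℝ) * n ≤ 2 * (Nat.card G.edgeSet : ℝ) +
      ⌈320 * (Real.logb 2 n) ^ 3⌉₊ * ((⌈320 * (Real.logb 2 n) ^ 3⌉₊ : ℝ) + 1) ^ k := by
    exact_mod_cast hG2
  have h6 := Nat.le_ceil (320 * (Real.logb 2 n) ^ 3)
  set d : ℝ := ((⌈320 * (Real.logb 2 n) ^ 3⌉₊ : ℕ) : ℝ) with hd
  have hd0 : 0 ≤ d := Nat.cast_nonneg _
  have h7 : d * (d + 1) ^ k ≤ d * (n / 2) := mul_le_mul_of_nonneg_left (by linarith) hd0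
  have h8 : 320 * (Real.logb 2 n) ^ 3 * n ≤ d * n :=
    mul_le_mul_of_nonneg_right h6 (by linarith)
  linarith

end Pool.Agent.HER47
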