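import Pool.Agent.HER47.Targets

/-!
# GRE: a maximal graph of bounded degree and large girth
-/

set_option autoImplicit false

namespace Pool.Agent.HER47

open Finset Classical

namespace GRE_

variable {V : Type}

/-- a cycle through the edge `uv`, opened at this edge -/
lemma open_cycle {H : SimpleGraph V} {u v : V} (c : H.Walk u u) (hc : c.IsCycle)
    (he : s(u, v) ∈ c.edges) :
    ∃ q : H.Walk v u, s(u, v) ∉ q.edges ∧ q.length + 1 = c.length := by
  cases c with
  | nil => simp at he
  | @cons _ w _ h p =>
    rw [SimpleGraph.Walk.cons_isCycle_iff] at hc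
    obtain ⟨hp, hn⟩ := hc
    by_cases hwv : w = v
    · subst hwv
      exact ⟨p, hn, by simp⟩
    · have hne : s(u, v) ≠ s(u, w) := by
        intro h0
        rw [Sym2.eq_iff] at h0
        rcases h0 with h0 | h0
        · exact hwv h0.2.symm
        · exact hwv (h0.1.symm.trans h0.2.symm)
      have he' : s(u, v) ∈ p.edges := by
        rw [SimpleGraph.Walk.edges_cons, List.mem_cons] at he
        exact he.resolve_left hne
      have hpr : p.reverse.IsPath := hp.reverse
      have her : s(u, v) ∈ p.reverse.edges := by
        rw [SimpleGraph.Walk.edges_reverse, List.mem_reverse]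
        exact he'
      have hlen : p.reverse.length = p.length := SimpleGraph.Walk.length_reverse p
      have hnr : s(u, w) ∉ p.reverse.edges := by
        rw [SimpleGraph.Walk.edges_reverse, List.mem_reverse]
        exact hn
      generalize p.reverse = q at hpr her hlen hnr
      cases q with
      | nil => simp at her
      | @cons _ x _ h' q' =>
        rw [SimpleGraph.Walk.cons_isPath_iff] at hpr
        have hx : x = v := by
          rw [SimpleGraph.Walk.edges_cons, List.mem_cons] at her
          rcases her with h1 | h1
          · rw [Sym2.eq_iff] at h1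
            rcases h1 with h1 | h1
            · exact h1.2.symm
            · exact h1.1.symm.trans h1.2.symm |>.symm ▸ rfl
          · exact absurd (SimpleGraph.Walk.fst_mem_support_of_mem_edges _ h1) hpr.2
        subst hx
        refine ⟨q'.concat h.symm, ?_, ?_⟩
        · rw [SimpleGraph.Walk.edges_concat, List.concat_eq_append, List.mem_append,
            List.mem_singleton]
          rintro (h1 | h1)
          · exact hpr.2 (SimpleGraph.Walk.fst_mem_support_of_mem_edges _ h1)
          · exact hne (h1.trans Sym2.eq_swap)
        · rw [SimpleGraph.Walk.length_concat, SimpleGraph.Walk.length_cons, ← hlen,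
            SimpleGraph.Walk.length_cons]

/-- no cycle of length at most `k` -/
def NC (k : ℕ) (G : SimpleGraph V) : Prop := ∀ (a : V) (c : G.Walk a a), c.IsCycle → k < c.length

/-- a short cycle of `G + uv` gives a short walk of `G` -/
lemma short_walk {k : ℕ} {G : SimpleGraph V} {u v : V} (hG : NC k G)
    (h : ¬ NC k (G ⊔ SimpleGraph.edge u v)) : ∃ q : G.Walk v u, q.length ≤ k := by
  unfold NC at h
  push Not at h
  obtain ⟨a, c, hc, hk⟩ := h
  have hsub : ∀ e ∈ (G ⊔ SimpleGraph.edge u v).edgeSet, e ≠ s(u, v) → e ∈ G.edgeSet := by
    intro e he hne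
    induction e with
    | _ x y =>
      rw [SimpleGraph.mem_edgeSet, SimpleGraph.sup_adj] at he
      rcases he with he | he
      · exact he
      · exfalso
        apply hne
        rw [SimpleGraph.edge_adj] at he
        rcases he.1 with h1 | h1
        · rw [h1.1, h1.2]
        · rw [h1.1, h1.2]; exact Sym2.eq_swap
  have hin : s(u, v) ∈ c.edges := by
    by_contra hno
    have hall : ∀ e ∈ c.edges, e ∈ G.edgeSet := fun e he =>
      hsub e (c.edges_subset_edgeSet he) (fun h0 => hno (h0 ▸ he))
    have h1 := hG a (c.transfer G hall) (hc.transfer hall)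
    rw [SimpleGraph.Walk.length_transfer] at h1
    omega
  have hu : u ∈ c.support := SimpleGraph.Walk.fst_mem_support_of_mem_edges _ hin
  obtain ⟨q, hq1, hq2⟩ := open_cycle (v := v) (c.rotate u hu)
    ((SimpleGraph.Walk.isCycle_rotate hu).2 hc)
    ((SimpleGraph.Walk.rotate_edges c u hu).perm.mem_iff.2 hin)
  have hl : (c.rotate u hu).length = c.length := SimpleGraph.Walk.length_rotate c u hu
  have hall : ∀ e ∈ q.edges, e ∈ G.edgeSet := fun e he =>
    hsub e (q.edges_subset_edgeSet he) (fun h0 => hq1 (h0 ▸ he))
  refine ⟨q.transfer G hall, ?_⟩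
  rw [SimpleGraph.Walk.length_transfer]
  omega

variable [Fintype V]

/-- the neighbours -/
noncomputable def nb (G : SimpleGraph V) (v : V) : Finset V := univ.filter fun w => G.Adj v w

lemma mem_nb {G : SimpleGraph V} {v w : V} : w ∈ nb G v ↔ G.Adj v w := by simp [nb]

/-- the degree -/
noncomputable def dg (G : SimpleGraph V) (v : V) : ℕ := (nb G v).card

/-- the ball of radius `j` about `u` -/
noncomputable def ball (G : SimpleGraph V) (u : V) : ℕ → Finset V
  | 0 => {u}
  | j + 1 => ball G u j ∪ (ball G u j).biUnion fun x => nb G x

lemma card_ball {G : SimpleGraph V} {d : ℕ} (hd : ∀ v, dg G v ≤ d) (u : V) (j : ℕ) :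
    (ball G u j).card ≤ (d + 1) ^ j := by
  induction j with
  | zero => simp [ball]
  | succ j ih =>
    have h1 : ((ball G u j).biUnion fun x => nb G x).card ≤
        (ball G u j).card * d := Finset.card_biUnion_le_card_mul _ _ _ fun x _ => hd x
    calc (ball G u (j + 1)).card ≤ (ball G u j).card + (ball G u j).card * d :=
          (Finset.card_union_le _ _).trans (Nat.add_le_add_left h1 _)
      _ = (ball G u j).card * (d + 1) := by ring
      _ ≤ (d + 1) ^ j * (d + 1) := Nat.mul_le_mul_right _ ih
      _ = (d + 1) ^ (j + 1) := by ring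

lemma ball_mono (G : SimpleGraph V) (u : V) {i j : ℕ} (h : i ≤ j) : ball G u i ⊆ ball G u j := by
  induction h with
  | refl => exact subset_rfl
  | step _ ih => exact ih.trans Finset.subset_union_left

lemma mem_ball {G : SimpleGraph V} {u : V} : ∀ {v : V} (q : G.Walk v u),
    v ∈ ball G u q.length := by
  intro v q
  induction q with
  | nil => simp [ball]
  | cons h p ih =>
    rw [SimpleGraph.Walk.length_cons]
    exact Finset.mem_union_right _ (Finset.mem_biUnion.2 ⟨_, ih, mem_nb.2 h.symm⟩)

lemma dg_edge_le {G : SimpleGraph V} (u v w : V) :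
    dg (G ⊔ SimpleGraph.edge u v) w ≤ dg G w + (if w = u ∨ w = v then 1 else 0) := by
  unfold dg
  split_ifs with h
  · have hex : ∃ x : V, nb (G ⊔ SimpleGraph.edge u v) w ⊆ insert x (nb G w) := by
      rcases h with h | h
      · refine ⟨v, fun y hy => ?_⟩
        rw [mem_nb, SimpleGraph.sup_adj, SimpleGraph.edge_adj] at hy
        rw [Finset.mem_insert, mem_nb]
        rcases hy with h1 | h1
        · exact Or.inr h1
        · rcases h1.1 with h2 | h2
          · exact Or.inl h2.2
          · left; rw [h2.2, ← h, h2.1]
      · refine ⟨u, fun y hy => ?_⟩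
        rw [mem_nb, SimpleGraph.sup_adj, SimpleGraph.edge_adj] at hy
        rw [Finset.mem_insert, mem_nb]
        rcases hy with h1 | h1
        · exact Or.inr h1
        · rcases h1.1 with h2 | h2
          · left; rw [h2.2, ← h, h2.1]
          · exact Or.inl h2.2
    obtain ⟨x, hx⟩ := hex
    exact (Finset.card_le_card hx).trans (Finset.card_insert_le _ _)
  · refine Finset.card_le_card fun y hy => ?_
    rw [mem_nb, SimpleGraph.sup_adj, SimpleGraph.edge_adj] at hy
    rw [mem_nb]
    rcases hy with h1 | h1
    · exact h1
    · exfalso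
      apply h
      rcases h1.1 with h2 | h2
      · exact Or.inl h2.1
      · exact Or.inr h2.1

lemma sum_dg (G : SimpleGraph V) : ∑ v, dg G v = 2 * Nat.card G.edgeSet := by
  have h1 := G.sum_degrees_eq_twice_card_edges
  rw [Nat.card_eq_fintype_card, ← SimpleGraph.edgeFinset_card, ← h1]
  refine Finset.sum_congr rfl fun v _ => ?_
  rw [← SimpleGraph.card_neighborFinset_eq_degree, SimpleGraph.neighborFinset_eq_filter]
  rfl

end GRE_

open GRE_ in
/-- GRE. -/
theorem p_GRE : T_GRE := by
  intro k d n hk
  obtain ⟨G, hG⟩ := (Set.toFinite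
    {G : SimpleGraph (Fin n) | NC k G ∧ ∀ v, dg G v ≤ d}).exists_maximal
    ⟨⊥, fun a c hc => by
        exfalso
        cases c with
        | nil => exact hc.ne_nil rfl
        | cons h p => exact h,
      fun v => by simp [dg, nb]⟩
  obtain ⟨⟨hnc, hdeg⟩, hmax⟩ := hG
  refine ⟨G, ?_, ?_⟩
  · have h1 : ((k + 1 : ℕ) : ℕ∞) ≤ G.egirth := by
      rw [SimpleGraph.le_egirth]
      intro a c hc
      exact_mod_cast hnc a c hc
    refine lt_of_lt_of_le ?_ h1
    exact_mod_cast Nat.lt_succ_self k
  · set S : Finset (Fin n) := univ.filter fun v => dg G v < d with hS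
    have hSc : S.card ≤ (d + 1) ^ k := by
      rcases S.eq_empty_or_nonempty with h0 | ⟨u, hu⟩
      · rw [h0, Finset.card_empty]; exact Nat.zero_le _
      · refine (Finset.card_le_card ?_).trans (card_ball hdeg u k)
        intro v hv
        by_cases hvu : v = u
        · subst hvu
          exact ball_mono G v (Nat.zero_le k) (by simp [ball])
        by_cases hadj : G.Adj v u
        · have := mem_ball (SimpleGraph.Walk.cons hadj SimpleGraph.Walk.nil)
          exact ball_mono G u (by simpa using hk) this
        · obtain ⟨q, hq⟩ := short_walk (u := u) (v := v) hnc (by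
            intro hcon
            have hP : G ⊔ SimpleGraph.edge u v ∈
                {G : SimpleGraph (Fin n) | NC k G ∧ ∀ v, dg G v ≤ d} := by
              refine ⟨hcon, fun w => (dg_edge_le u v w).trans ?_⟩
              split_ifs with hw
              · rcases hw with hw | hw
                · subst hw
                  exact (Finset.mem_filter.1 hu).2
                · subst hw
                  exact (Finset.mem_filter.1 hv).2
              · exact hdeg w
            have h2 := hmax hP le_sup_left
            apply hadj
            have h3 : (G ⊔ SimpleGraph.edge u v).Adj v u := by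
              rw [SimpleGraph.sup_adj, SimpleGraph.edge_adj]
              exact Or.inr ⟨Or.inr ⟨rfl, rfl⟩, hvu⟩
            exact h2 h3)
          exact ball_mono G u hq (mem_ball q)
    have hsum : d * n ≤ ∑ v : Fin n, (dg G v + if v ∈ S then d else 0) := by
      calc d * n = ∑ v : Fin n, d := by simp [mul_comm]
        _ ≤ _ := by
          refine Finset.sum_le_sum fun v _ => ?_
          split_ifs with hv
          · exact Nat.le_add_left _ _
          · rw [hS, Finset.mem_filter] at hv
            have : ¬ dg G v < d := fun h => hv ⟨Finset.mem_univ _, h⟩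
            omega
    rw [Finset.sum_add_distrib, sum_dg, Finset.sum_ite_mem, Finset.univ_inter, Finset.sum_const,
      smul_eq_mul] at hsum
    calc d * n ≤ 2 * Nat.card G.edgeSet + S.card * d := hsum
      _ ≤ 2 * Nat.card G.edgeSet + d * (d + 1) ^ k := by
          rw [mul_comm S.card d]
          exact Nat.add_le_add_left (Nat.mul_le_mul_left _ hSc) _

end Pool.Agent.HER47
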