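import Pool.Agent.HER47.Targets

set_option autoImplicit false

namespace Pool.Agent.HER47

open Finset Classical

namespace INF_

lemma lt_two_pow_lg (n : ℕ) : n < 2 ^ lg n := Nat.lt_pow_succ_log_self one_lt_two n

lemma lg_mono {m n : ℕ} (h : m ≤ n) : lg m ≤ lg n :=
  Nat.add_le_add_right (Nat.log_mono_right h) 1

lemma eight_le_lg {m : ℕ} (h : 1024 ≤ m) : 8 ≤ lg m := by
  have h1 : lg 1024 ≤ lg m := lg_mono h
  have h2 : lg 1024 = 11 := by
    unfold lg
    rw [show (1024 : ℕ) = 2 ^ 10 by norm_num, Nat.log_pow one_lt_two]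
  omega

lemma pow_self_le {m : ℕ} (h : 1024 ≤ m) :
    m ^ m * m ≤ 2 ^ (lg m ^ 3 * (m / (8 * lg m) + 1)) := by
  have hL := eight_le_lg h
  have h1 : m + 1 ≤ 8 * lg m * (m / (8 * lg m) + 1) := by
    have := Nat.lt_mul_div_succ m (show 0 < 8 * lg m by omega)
    omega
  calc m ^ m * m = m ^ (m + 1) := (pow_succ _ _).symm
    _ ≤ (2 ^ lg m) ^ (m + 1) := Nat.pow_le_pow_left (lt_two_pow_lg m).le _
    _ = 2 ^ (lg m * (m + 1)) := (pow_mul _ _ _).symm
    _ ≤ _ := by
      apply Nat.pow_le_pow_right (by norm_num)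
      calc lg m * (m + 1) ≤ lg m * (8 * lg m * (m / (8 * lg m) + 1)) :=
            Nat.mul_le_mul_left _ h1
        _ = 8 * (lg m ^ 2 * (m / (8 * lg m) + 1)) := by ring
        _ ≤ lg m * (lg m ^ 2 * (m / (8 * lg m) + 1)) := Nat.mul_le_mul_right _ hL
        _ = _ := by ring

end INF_

open INF_ in
theorem p_INF (h : T_ALL) : T_INF := by
  intro C hC hBig N
  obtain ⟨n₀, hn₀⟩ := h
  by_contra hcon
  push Not at hcon
  set N₁ : ℕ := max N (max n₀ 1024) with hN₁
  set D : ℕ := 1 + ∑ m ∈ range (N₁ + 1), cn C m with hD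
  have hsmall : ∀ m, m ≤ N₁ → cn C m ≤ D := by
    intro m hm
    have := Finset.single_le_sum (f := fun m => cn C m) (s := range (N₁ + 1))
      (fun i _ => Nat.zero_le _) (Finset.mem_range.mpr (by omega : m < N₁ + 1))
    omega
  have claim : ∀ n m : ℕ, m ≤ n → cn C m ≤ D * 2 ^ (10 * lg n ^ 3 * m) := by
    intro n m
    induction m using Nat.strong_induction_on with
    | _ m ih =>
      intro hmn
      rcases Nat.lt_or_ge N₁ m with hm | hm
      · have hmN : N ≤ m := le_trans (le_max_left _ _) hm.le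
        have hmn₀ : n₀ ≤ m :=
          le_trans (le_trans (le_max_left _ _) (le_max_right _ _)) hm.le
        have hm1024 : 1024 ≤ m :=
          le_trans (le_trans (le_max_right _ _) (le_max_right _ _)) hm.le
        have h1 := hcon m hmN
        have h2 := hn₀ C hC m hmn₀
        set r₀ : ℕ := m / (8 * lg m) + 1 with hr₀
        have hr₀1 : 1 ≤ r₀ := Nat.succ_pos _
        have hL : lg m ≤ lg n := lg_mono hmn
        have hL3 : lg m ^ 3 ≤ lg n ^ 3 := Nat.pow_le_pow_left hL 3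
        have h3 : (∑ r ∈ Icc r₀ m, 2 ^ (9 * lg m ^ 3 * r) * cn C (m - r)) *
            2 ^ (lg m ^ 3 * r₀) ≤ m * (D * 2 ^ (10 * lg n ^ 3 * m)) := by
          rw [Finset.sum_mul]
          have h4 : ∀ r ∈ Icc r₀ m, 2 ^ (9 * lg m ^ 3 * r) * cn C (m - r) *
              2 ^ (lg m ^ 3 * r₀) ≤ D * 2 ^ (10 * lg n ^ 3 * m) := by
            intro r hr
            rw [Finset.mem_Icc] at hr
            have h5 := ih (m - r) (by omega) (by omega)
            have h6 : 9 * lg m ^ 3 * r + 10 * lg n ^ 3 * (m - r) + lg m ^ 3 * r₀ ≤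
                10 * lg n ^ 3 * m := by
              have h7 : lg m ^ 3 * r₀ ≤ lg m ^ 3 * r := Nat.mul_le_mul_left _ hr.1
              have h8 : lg m ^ 3 * r ≤ lg n ^ 3 * r := Nat.mul_le_mul_right _ hL3
              have h9 : 10 * lg n ^ 3 * m = 10 * lg n ^ 3 * (m - r) + 10 * (lg n ^ 3 * r) := by
                obtain ⟨s, hs⟩ := Nat.exists_eq_add_of_le hr.2
                rw [hs, Nat.add_sub_cancel_left]
                ring
              rw [h9]
              have h10 : 9 * lg m ^ 3 * r = 9 * (lg m ^ 3 * r) := by ring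
              rw [h10]
              omega
            calc 2 ^ (9 * lg m ^ 3 * r) * cn C (m - r) * 2 ^ (lg m ^ 3 * r₀)
                ≤ 2 ^ (9 * lg m ^ 3 * r) * (D * 2 ^ (10 * lg n ^ 3 * (m - r))) *
                  2 ^ (lg m ^ 3 * r₀) := by gcongr
              _ = D * 2 ^ (9 * lg m ^ 3 * r + 10 * lg n ^ 3 * (m - r) + lg m ^ 3 * r₀) := by
                  rw [pow_add, pow_add]; ring
              _ ≤ _ := Nat.mul_le_mul_left _ (Nat.pow_le_pow_right (by norm_num) h6)
          calc _ ≤ (Icc r₀ m).card • (D * 2 ^ (10 * lg n ^ 3 * m)) :=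
                Finset.sum_le_card_nsmul _ _ _ h4
            _ ≤ m * (D * 2 ^ (10 * lg n ^ 3 * m)) := by
                rw [smul_eq_mul]
                apply Nat.mul_le_mul_right
                rw [Nat.card_Icc]
                omega
        have h11 := pow_self_le hm1024
        rw [← hr₀] at h11
        have hpos : 0 < 2 ^ (lg m ^ 3 * r₀) := by positivity
        refine Nat.le_of_mul_le_mul_left ?_ hpos
        calc 2 ^ (lg m ^ 3 * r₀) * cn C m
            ≤ 2 ^ (lg m ^ 3 * r₀) * (m ^ m *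
              ∑ r ∈ Icc r₀ m, 2 ^ (9 * lg m ^ 3 * r) * cn C (m - r)) := by
              apply Nat.mul_le_mul_left
              exact h1.le.trans (Nat.mul_le_mul_left _ h2)
          _ = m ^ m * ((∑ r ∈ Icc r₀ m, 2 ^ (9 * lg m ^ 3 * r) * cn C (m - r)) *
              2 ^ (lg m ^ 3 * r₀)) := by ring
          _ ≤ m ^ m * (m * (D * 2 ^ (10 * lg n ^ 3 * m))) := Nat.mul_le_mul_left _ h3
          _ = (m ^ m * m) * (D * 2 ^ (10 * lg n ^ 3 * m)) := by ring
          _ ≤ 2 ^ (lg m ^ 3 * r₀) * (D * 2 ^ (10 * lg n ^ 3 * m)) :=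
              Nat.mul_le_mul_right _ h11
      · exact (hsmall m hm).trans (Nat.le_mul_of_pos_right _ (by positivity))
  obtain ⟨n, hn, hb⟩ := hBig (max 4 D)
  have hn4 : 4 ≤ n := le_trans (le_max_left _ _) hn
  have hnD : D ≤ n := le_trans (le_max_right _ _) hn
  have h1 := claim n n le_rfl
  set l : ℕ := Nat.log 2 n with hl
  have hlg : lg n = l + 1 := rfl
  have hl2 : 2 ≤ l := by
    rw [hl]
    exact Nat.le_log_of_pow_le one_lt_two (by norm_num; exact hn4)
  have hlog : (l : ℝ) ≤ Real.logb 2 n := by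
    rw [Real.le_logb_iff_rpow_le one_lt_two (by positivity)]
    rw [Real.rpow_natCast]
    exact_mod_cast Nat.pow_log_le_self 2 (by omega)
  have h2 : 2 ^ (80 * n * l ^ 3) ≤ cn C n := by
    have h3 : (2 : ℝ) ^ (80 * (n : ℝ) * (l : ℝ) ^ 3) ≤
        (2 : ℝ) ^ (80 * (n : ℝ) * (Real.logb 2 n) ^ 3) := by
      apply Real.rpow_le_rpow_of_exponent_le (by norm_num)
      gcongr
    have h4 : ((2 ^ (80 * n * l ^ 3) : ℕ) : ℝ) ≤ (cn C n : ℝ) := by
      refine le_trans (le_of_eq ?_) (h3.trans hb)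
      push_cast
      rw [← Real.rpow_natCast]
      push_cast
      rfl
    exact_mod_cast h4
  have h5 : 11 * (l + 1) ^ 3 ≤ 80 * l ^ 3 := by
    obtain ⟨k, hk⟩ := Nat.exists_eq_add_of_le hl2
    rw [hk]
    have e1 : 80 * (2 + k) ^ 3 = 11 * (2 + k + 1) ^ 3 + (343 + 663 * k + 381 * k ^ 2 +
      69 * k ^ 3) := by ring
    omega
  have h6 : 2 ^ (10 * (l + 1) ^ 3 * n) * 2 ^ ((l + 1) ^ 3 * n) ≤
      2 ^ (10 * (l + 1) ^ 3 * n) * D := by
    calc 2 ^ (10 * (l + 1) ^ 3 * n) * 2 ^ ((l + 1) ^ 3 * n)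
        = 2 ^ (11 * (l + 1) ^ 3 * n) := by rw [← pow_add]; congr 1; ring
      _ ≤ 2 ^ (80 * n * l ^ 3) := by
          apply Nat.pow_le_pow_right (by norm_num)
          calc 11 * (l + 1) ^ 3 * n ≤ 80 * l ^ 3 * n := Nat.mul_le_mul_right _ h5
            _ = _ := by ring
      _ ≤ cn C n := h2
      _ ≤ _ := h1
      _ = _ := by rw [hlg, mul_comm]
  have h7 : 2 ^ ((l + 1) ^ 3 * n) ≤ D := Nat.le_of_mul_le_mul_left h6 (by positivity)
  have h8 : n < 2 ^ n := Nat.lt_two_pow_self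
  have h9 : 2 ^ n ≤ 2 ^ ((l + 1) ^ 3 * n) :=
    Nat.pow_le_pow_right (by norm_num) (Nat.le_mul_of_pos_left _ (by positivity))
  omega

end Pool.Agent.HER47
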