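import Pool.Agent.HER47.Targets

set_option autoImplicit false

/-!
# HER-MONO: the subgraphs of a graph
-/

namespace Pool.Agent.HER47

open Finset Classical

theorem p_MONO : T_MONO := by
  intro C hC n G hG
  have hle : ∀ s : Set G.edgeSet,
      SimpleGraph.fromEdgeSet (Subtype.val '' s : Set (Sym2 (Fin n))) ≤ G := by
    intro s u v huv
    rw [SimpleGraph.fromEdgeSet_adj] at huv
    obtain ⟨⟨e, he⟩, _, h⟩ := huv.1
    rw [← SimpleGraph.mem_edgeSet, ← h]
    exact he
  let F : Set G.edgeSet → {H : SimpleGraph (Fin n) // C (Fin n) H} := fun s =>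
    ⟨SimpleGraph.fromEdgeSet (Subtype.val '' s : Set (Sym2 (Fin n))), hC n _ G (hle s) hG⟩
  have hF : Function.Injective F := by
    have key : ∀ s : Set G.edgeSet, (F s).1.edgeSet = Subtype.val '' s := by
      intro s
      show (SimpleGraph.fromEdgeSet (Subtype.val '' s : Set (Sym2 (Fin n)))).edgeSet = _
      rw [SimpleGraph.edgeSet_fromEdgeSet]
      ext e
      simp only [Set.mem_sdiff, and_iff_left_iff_imp]
      rintro ⟨e', _, rfl⟩
      exact G.not_isDiag_of_mem_edgeSet e'.2
    intro s t h
    have h1 := key s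
    rw [h, key t] at h1
    exact (Subtype.val_injective.image_injective h1).symm
  have h1 := Nat.card_le_card_of_injective F hF
  have h2 : Nat.card (Set G.edgeSet) = 2 ^ Nat.card G.edgeSet := by
    rw [Nat.card_eq_fintype_card, Nat.card_eq_fintype_card, Fintype.card_set]
  rw [h2] at h1
  exact h1

end Pool.Agent.HER47
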