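import Pool.Agent.HER47.Targets

/-!
# SUM: union bound over the dominating sets
-/

set_option autoImplicit false

namespace Pool.Agent.HER47

open Finset Classical

namespace SUM_

theorem card_compl_eq (n r : ℕ) :
    ((univ : Finset (Finset (Fin n))).filter (fun M => Mᶜ.card = r)).card ≤ n ^ r := by
  have h1 : ((univ : Finset (Finset (Fin n))).filter (fun M => Mᶜ.card = r)).card ≤
      (powersetCard r (univ : Finset (Fin n))).card := by
    apply Finset.card_le_card_of_injOn (fun M => Mᶜ)
    · intro M hM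
      rw [Finset.mem_coe, Finset.mem_filter] at hM
      rw [Finset.mem_coe, Finset.mem_powersetCard]
      exact ⟨Finset.subset_univ _, hM.2⟩
    · intro M _ M' _ h
      exact compl_injective h
  rw [Finset.card_powersetCard, Finset.card_univ, Fintype.card_fin] at h1
  exact h1.trans (Nat.choose_le_pow n r)

theorem bound1 (K n r c : ℕ) : n ^ r * (c * (2 * n * (n + 1) ^ K) ^ r) ≤
    (n + 1) ^ ((K + 3) * r) * c := by
  have h1 : n * (2 * n) ≤ (n + 1) ^ 3 := by
    have h3 : (n + 1) ^ 3 = n * (2 * n) + (n ^ 3 + n ^ 2 + 3 * n + 1) := by ring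
    rw [h3]
    exact Nat.le_add_right _ _
  have h2 : n ^ r * (c * (2 * n * (n + 1) ^ K) ^ r) =
      (n * (2 * n) * (n + 1) ^ K) ^ r * c := by
    rw [show n * (2 * n) * (n + 1) ^ K = n * (2 * n * (n + 1) ^ K) by ring, mul_pow]
    ring
  rw [h2, pow_mul, pow_add, mul_comm ((n + 1) ^ K)]
  exact Nat.mul_le_mul_right _ (Nat.pow_le_pow_left (Nat.mul_le_mul_right _ h1) _)

end SUM_

theorem p_SUM (h : T_CODE) : T_SUM := by
  intro C hC n K t r₀ hn h1 h2
  have hcov : bn C n ≤ ∑ M ∈ (univ : Finset (Finset (Fin n))).filter (fun M => r₀ ≤ Mᶜ.card),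
      Nat.card {G : SimpleGraph (Fin n) // C (Fin n) G ∧ Dom K G M} := by
    unfold bn
    rw [Nat.card_eq_fintype_card, Fintype.card_subtype]
    have h3 : ∀ M : Finset (Fin n), Nat.card {G : SimpleGraph (Fin n) // C (Fin n) G ∧ Dom K G M}
        = ((univ : Finset (SimpleGraph (Fin n))).filter
          (fun G => C (Fin n) G ∧ Dom K G M)).card := by
      intro M
      rw [Nat.card_eq_fintype_card, Fintype.card_subtype]
    simp_rw [h3]
    refine (Finset.card_le_card ?_).trans Finset.card_biUnion_le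
    intro G hG
    rw [Finset.mem_filter] at hG
    obtain ⟨M, hM, hr⟩ := Base_.structure_nonrec G hG.2.2 K t r₀ (by simpa using hn)
      (by simpa using h1) (by simpa using h2)
    rw [Finset.mem_biUnion]
    refine ⟨M, Finset.mem_filter.2 ⟨mem_univ _, ?_⟩,
      Finset.mem_filter.2 ⟨mem_univ _, hG.2.1, hM⟩⟩
    rw [Finset.card_compl]
    exact hr.trans (le_of_eq (@Finset.card_compl (Fin n)
      (fun a b => Classical.propDecidable (a = b)) (Fin.fintype n) M))
  refine hcov.trans ?_
  have hle : ∀ M : Finset (Fin n), Mᶜ.card ≤ n := by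
    intro M
    simpa using Finset.card_le_univ Mᶜ
  have hmap : ∀ M ∈ (univ : Finset (Finset (Fin n))).filter (fun M => r₀ ≤ Mᶜ.card),
      Mᶜ.card ∈ Icc r₀ n := by
    intro M hM
    rw [Finset.mem_filter] at hM
    exact Finset.mem_Icc.2 ⟨hM.2, hle M⟩
  rw [← Finset.sum_fiberwise_of_maps_to hmap]
  refine Finset.sum_le_sum fun r _ => ?_
  have hfib : ∀ M ∈ ((univ : Finset (Finset (Fin n))).filter (fun M => r₀ ≤ Mᶜ.card)).filter
      (fun M => Mᶜ.card = r), Nat.card {G : SimpleGraph (Fin n) // C (Fin n) G ∧ Dom K G M} ≤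
        cn C (n - r) * (2 * n * (n + 1) ^ K) ^ r := by
    intro M hM
    rw [Finset.mem_filter] at hM
    have h5 : n - M.card = r := by
      rw [← hM.2, Finset.card_compl, Fintype.card_fin]
    have h6 : M.card = n - r := by
      have h7 : M.card ≤ n := by simpa using Finset.card_le_univ M
      omega
    have h8 := h C hC n K M
    rw [h5, h6] at h8
    exact h8
  refine (Finset.sum_le_card_nsmul _ _ _ hfib).trans ?_
  rw [smul_eq_mul]
  refine (Nat.mul_le_mul_right _ ?_).trans (SUM_.bound1 K n r (cn C (n - r)))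
  refine (Finset.card_le_card ?_).trans (SUM_.card_compl_eq n r)
  intro M hM
  rw [Finset.mem_filter] at hM
  exact Finset.mem_filter.2 ⟨mem_univ _, hM.2⟩

end Pool.Agent.HER47
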