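import Pool.Agent.HER47.Targets

/-!
# HER47: disjoint unions and joins (target UNI)
-/

set_option autoImplicit false

namespace Pool.Agent.HER47

open Finset Classical

namespace UNI_

/-- the equivalence as a function -/
def e (a b : ℕ) : Fin (a + b) ↪ Fin a ⊕ Fin b := finSumFinEquiv.symm.toEmbedding

theorem comap_inj {a b : ℕ} {S T : SimpleGraph (Fin a ⊕ Fin b)}
    (h : S.comap (e a b) = T.comap (e a b)) : S = T := by
  ext x y
  have h1 : (S.comap (e a b)).Adj (finSumFinEquiv x) (finSumFinEquiv y) ↔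
      (T.comap (e a b)).Adj (finSumFinEquiv x) (finSumFinEquiv y) := by rw [h]
  simpa [e] using h1

theorem sum_inj {a b : ℕ} {G G' : SimpleGraph (Fin a)} {H H' : SimpleGraph (Fin b)}
    (h : G ⊕g H = G' ⊕g H') : G = G' ∧ H = H' := by
  constructor
  · ext x y
    have h1 : (G ⊕g H).Adj (Sum.inl x) (Sum.inl y) ↔ (G' ⊕g H').Adj (Sum.inl x) (Sum.inl y) := by
      rw [h]
    exact h1
  · ext x y
    have h1 : (G ⊕g H).Adj (Sum.inr x) (Sum.inr y) ↔ (G' ⊕g H').Adj (Sum.inr x) (Sum.inr y) := by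
      rw [h]
    exact h1

/-- the general form -/
theorem main {C : Cls} (hC : Her C) {a b : ℕ}
    (j : SimpleGraph (Fin a) → SimpleGraph (Fin b) → SimpleGraph (Fin a ⊕ Fin b))
    (hj : ∀ G H, C (Fin a) G → C (Fin b) H → C (Fin a ⊕ Fin b) (j G H))
    (hinj : ∀ G G' H H', j G H = j G' H' → G = G' ∧ H = H') :
    cn C a * cn C b ≤ cn C (a + b) := by
  unfold cn
  rw [← Nat.card_prod]
  let F : {G : SimpleGraph (Fin a) // C (Fin a) G} × {H : SimpleGraph (Fin b) // C (Fin b) H} →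
      {G : SimpleGraph (Fin (a + b)) // C (Fin (a + b)) G} := fun p =>
    ⟨(j p.1.1 p.2.1).comap (e a b), hC _ _ (e a b) _ (hj _ _ p.1.2 p.2.2)⟩
  refine Nat.card_le_card_of_injective F ?_
  rintro ⟨⟨G, hG⟩, ⟨H, hH⟩⟩ ⟨⟨G', hG'⟩, ⟨H', hH'⟩⟩ h
  have h1 : (j G H).comap (e a b) = (j G' H').comap (e a b) := congrArg Subtype.val h
  obtain ⟨h2, h3⟩ := hinj _ _ _ _ (comap_inj h1)
  subst h2
  subst h3
  rfl

end UNI_

/-- **UNI** -/
theorem p_UNI : T_UNI := by
  intro C hC h a b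
  rcases h with h | h
  · exact UNI_.main hC (fun G H => G ⊕g H) (fun G H => h (Fin a) (Fin b) G H)
      fun G G' H H' h => UNI_.sum_inj h
  · refine UNI_.main hC (fun G H => (Gᶜ ⊕g Hᶜ)ᶜ) (fun G H => h (Fin a) (Fin b) G H)
      fun G G' H H' h => ?_
    obtain ⟨h1, h2⟩ := UNI_.sum_inj (compl_injective h)
    exact ⟨compl_injective h1, compl_injective h2⟩

end Pool.Agent.HER47
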