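import Pool.Agent.HER47.Asm
import Pool.Agent.HER47.P_CODE
import Pool.Agent.HER47.P_SUM
import Pool.Agent.HER47.P_ALL
import Pool.Agent.HER47.P_SUP
import Pool.Agent.HER47.P_INF
import Pool.Agent.HER47.P_UNI
import Pool.Agent.HER47.P_GRE
import Pool.Agent.HER47.P_GIR
import Pool.Agent.HER47.P_MONO
import Pool.Agent.HER47.P_FREE

/-!
# Theorem H: final theorems
-/

set_option autoImplicit false

namespace Pool.Agent.HER47

open Finset Classical

theorem all_ : T_ALL := p_ALL (p_SUM p_CODE)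

/-- Classes closed under disjoint unions or joins. -/
theorem final_union (C : Cls) (hC : Her C)
    (hU : (∀ (V W : Type) [Finite V] [Finite W] (G : SimpleGraph V) (H : SimpleGraph W),
      C V G → C W H → C (V ⊕ W) (G ⊕g H)) ∨
    (∀ (V W : Type) [Finite V] [Finite W] (G : SimpleGraph V) (H : SimpleGraph W),
      C V G → C W H → C (V ⊕ W) ((Gᶜ ⊕g Hᶜ)ᶜ)))
    (hB : ∃ N : ℕ, ∀ n : ℕ, N ≤ n → Big C n) :
    ∃ N : ℕ, ∀ n : ℕ, N ≤ n → n ^ n * bn C n ≤ cn C n :=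
  main_union (p_SUP all_) p_UNI C hC hU hB

/-- All hereditary classes. -/
theorem final_inf (C : Cls) (hC : Her C) (hB : ∀ N : ℕ, ∃ n : ℕ, N ≤ n ∧ Big C n) :
    ∀ N : ℕ, ∃ n : ℕ, N ≤ n ∧ n ^ n * bn C n ≤ cn C n :=
  p_INF all_ C hC hB

/-- Graphs without a subgraph `F i`. -/
theorem final_free (ι : Type) (W : ι → Type) (F : ∀ i, SimpleGraph (W i)) (k : ℕ)
    (hF : ∀ i, (F i).Connected ∧ (F i).egirth ≤ k) :
    ∃ N : ℕ, ∀ n : ℕ, N ≤ n → n ^ n * bn (FreeOf F) n ≤ cn (FreeOf F) n :=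
  main_free (p_SUP all_) p_UNI (p_GIR p_GRE) p_MONO p_FREE ι W F k hF

end Pool.Agent.HER47
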