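import Pool.Agent.HER47.TargetsV

set_option autoImplicit false

namespace Pool.Agent.HER47

open Finset Classical

namespace CNT_

/-- The neighbourhood. -/
noncomputable def nbh {n : ℕ} (G : SimpleGraph (Fin n)) (v : Fin n) : Finset (Fin n) :=
  univ.filter (fun w => G.Adj v w)

lemma mem_nbh {n : ℕ} {G : SimpleGraph (Fin n)} {v w : Fin n} : w ∈ nbh G v ↔ G.Adj v w := by
  simp [nbh]

/-- A maximal separated family of neighbourhoods. -/
lemma exists_code (d : ℕ) (ε : ℝ) (hε : 0 < ε) (K : ℕ)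
    (hK : ∀ (m : ℕ) (F : Finset (Finset (Fin m))),
      (∀ S : Finset (Fin m), F.Shatters S → S.card < d) →
      (∀ A ∈ F, ∀ B ∈ F, A ≠ B → ε * m ≤ ((symmDiff A B).card : ℝ)) → F.card ≤ K)
    (n : ℕ) (G : SimpleGraph (Fin n)) (hG : ∀ S : Finset (Fin n), Shat G S → S.card < d) :
    ∃ (A : Fin (K + 1) → Finset (Fin n)) (φ : Fin n → Fin (K + 1)),
      ∀ v, ((symmDiff (A (φ v)) (nbh G v)).card : ℝ) ≤ ε * n := by
  obtain ⟨F, hF, hmax⟩ := Finset.exists_max_image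
    (((univ : Finset (Fin n)).image (nbh G)).powerset.filter
      (fun F => ∀ A ∈ F, ∀ B ∈ F, A ≠ B → ε * n ≤ ((symmDiff A B).card : ℝ))) Finset.card
    ⟨∅, by simp⟩
  rw [Finset.mem_filter, Finset.mem_powerset] at hF
  have hFK : F.card ≤ K := by
    refine hK n F (fun S hS => hG S ?_) hF.2
    intro T hT
    obtain ⟨U, hU, hST⟩ := hS hT
    obtain ⟨v, -, hv⟩ := Finset.mem_image.mp (hF.1 hU)
    refine ⟨v, fun s hs => ?_⟩
    rw [← mem_nbh, hv, ← hST, Finset.mem_inter]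
    exact ⟨fun h => ⟨hs, h⟩, fun h => h.2⟩
  have hclose : ∀ v, ∃ A ∈ F, ((symmDiff A (nbh G v)).card : ℝ) ≤ ε * n := by
    intro v
    by_contra hcon
    push Not at hcon
    have hv : nbh G v ∉ F := by
      intro hv
      have := hcon _ hv
      rw [symmDiff_self] at this
      simp only [Finset.bot_eq_empty, Finset.card_empty, Nat.cast_zero] at this
      have : 0 ≤ ε * n := by positivity
      linarith
    have h1 := hmax (insert (nbh G v) F) (by
      rw [Finset.mem_filter, Finset.mem_powerset]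
      refine ⟨Finset.insert_subset (Finset.mem_image_of_mem _ (mem_univ v)) hF.1, ?_⟩
      intro A hA B hB hAB
      rw [Finset.mem_insert] at hA hB
      rcases hA with rfl | hA
      · rcases hB with rfl | hB
        · exact absurd rfl hAB
        · rw [symmDiff_comm]
          exact (hcon B hB).le
      · rcases hB with rfl | hB
        · exact (hcon A hA).le
        · exact hF.2 A hA B hB hAB)
    rw [Finset.card_insert_of_notMem hv] at h1
    omega
  choose a ha1 ha2 using hclose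
  refine ⟨fun i => if h : i.1 < F.card then (F.equivFin.symm ⟨i.1, h⟩).1 else ∅,
    fun v => ⟨(F.equivFin ⟨a v, ha1 v⟩).1, ?_⟩, fun v => ?_⟩
  · exact (F.equivFin ⟨a v, ha1 v⟩).2.trans_le (hFK.trans (Nat.le_succ K))
  · have h2 : (F.equivFin ⟨a v, ha1 v⟩).1 < F.card := (F.equivFin ⟨a v, ha1 v⟩).2
    simp only [h2, dif_pos]
    have h3 : (⟨(F.equivFin ⟨a v, ha1 v⟩).1, h2⟩ : Fin F.card) = F.equivFin ⟨a v, ha1 v⟩ :=
      Fin.ext rfl
    rw [h3, Equiv.symm_apply_apply]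
    exact ha2 v

end CNT_

open CNT_ in
theorem p_CNT (h1 : T_PAK) (h2 : T_ENT) : T_CNT := by
  intro d δ hδ
  obtain ⟨ε, hε, hent⟩ := h2 (δ / 2) (by positivity)
  obtain ⟨K, hK⟩ := h1 d ε hε
  obtain ⟨N, hN⟩ := exists_nat_gt (4 * ((K : ℝ) + 1) / δ)
  refine ⟨N, fun n hn => ?_⟩
  set P := {G : SimpleGraph (Fin n) // ∀ S : Finset (Fin n), Shat G S → S.card < d} with hP
  choose A φ hAφ using fun G : P => exists_code d ε hε K hK n G.1 G.2
  set Z := {Z : Finset (Fin n) // (Z.card : ℝ) ≤ ε * n} with hZ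
  let code : P → (Fin (K + 1) → Finset (Fin n)) × (Fin n → Fin (K + 1)) × (Fin n → Z) :=
    fun G => (A G, φ G, fun v => ⟨symmDiff (A G (φ G v)) (nbh G.1 v), hAφ G v⟩)
  have hinj : Function.Injective code := by
    intro G G' h
    simp only [code, Prod.mk.injEq] at h
    obtain ⟨hA, hφ, hD⟩ := h
    have hnb : ∀ v, nbh G.1 v = nbh G'.1 v := by
      intro v
      have h3 := congrArg Subtype.val (congrFun hD v)
      simp only at h3
      rw [hA, hφ] at h3
      exact symmDiff_right_injective _ h3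
    apply Subtype.ext
    ext v w
    rw [← mem_nbh, hnb v, mem_nbh]
  have hcard := Nat.card_le_card_of_injective code hinj
  have hZc : (Nat.card Z : ℝ) ≤ 2 ^ (δ / 2 * (n : ℝ)) := by
    have h3 : Nat.card Z =
        ((univ : Finset (Finset (Fin n))).filter (fun Z => (Z.card : ℝ) ≤ ε * n)).card := by
      rw [hZ, Nat.card_eq_fintype_card, Fintype.card_subtype]
    rw [h3]
    exact hent n
  have hcard2 : (Nat.card P : ℝ) ≤
      ((2 : ℝ) ^ n) ^ (K + 1) * (((K : ℝ) + 1) ^ n * (Nat.card Z : ℝ) ^ n) := by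
    have h3 : (Nat.card P : ℝ) ≤ (Nat.card ((Fin (K + 1) → Finset (Fin n)) ×
      (Fin n → Fin (K + 1)) × (Fin n → Z)) : ℝ) := by exact_mod_cast hcard
    refine h3.trans (le_of_eq ?_)
    rw [Nat.card_prod, Nat.card_prod, Nat.card_fun, Nat.card_fun, Nat.card_fun]
    simp only [Nat.card_eq_fintype_card, Fintype.card_fin, Fintype.card_finset]
    push_cast
    rfl
  refine hcard2.trans ?_
  have hK1 : ((K : ℝ) + 1) ≤ 2 ^ ((K : ℝ) + 1) := by
    have h3 : K + 1 ≤ 2 ^ (K + 1) := Nat.lt_two_pow_self.le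
    have h4 : ((K + 1 : ℕ) : ℝ) ≤ ((2 ^ (K + 1) : ℕ) : ℝ) := by exact_mod_cast h3
    push_cast at h4
    rw [show ((K : ℝ) + 1) = ((K + 1 : ℕ) : ℝ) by push_cast; ring, Real.rpow_natCast]
    push_cast
    exact h4
  have e1 : (((2 : ℝ) ^ n) ^ (K + 1)) = 2 ^ ((n : ℝ) * ((K : ℝ) + 1)) := by
    rw [← pow_mul, show ((n : ℝ) * ((K : ℝ) + 1)) = ((n * (K + 1) : ℕ) : ℝ) by push_cast; ring,
      Real.rpow_natCast]
  have e2 : ((K : ℝ) + 1) ^ n ≤ 2 ^ (((K : ℝ) + 1) * n) := by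
    calc ((K : ℝ) + 1) ^ n ≤ (2 ^ ((K : ℝ) + 1)) ^ n := pow_le_pow_left₀ (by positivity) hK1 n
      _ = 2 ^ (((K : ℝ) + 1) * n) := by
          rw [Real.rpow_mul (by norm_num), Real.rpow_natCast]
  have e3 : (Nat.card Z : ℝ) ^ n ≤ 2 ^ (δ / 2 * (n : ℝ) * n) := by
    calc (Nat.card Z : ℝ) ^ n ≤ (2 ^ (δ / 2 * (n : ℝ))) ^ n :=
          pow_le_pow_left₀ (by positivity) hZc n
      _ = 2 ^ (δ / 2 * (n : ℝ) * n) := by
          rw [Real.rpow_mul (by norm_num : (0 : ℝ) ≤ 2) (δ / 2 * (n : ℝ)) n, Real.rpow_natCast]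
  calc ((2 : ℝ) ^ n) ^ (K + 1) * (((K : ℝ) + 1) ^ n * (Nat.card Z : ℝ) ^ n)
      ≤ 2 ^ ((n : ℝ) * ((K : ℝ) + 1)) *
        (2 ^ (((K : ℝ) + 1) * n) * 2 ^ (δ / 2 * (n : ℝ) * n)) := by
        rw [e1]
        refine mul_le_mul_of_nonneg_left ?_ (by positivity)
        exact mul_le_mul e2 e3 (by positivity) (by positivity)
    _ = 2 ^ ((n : ℝ) * ((K : ℝ) + 1) + (((K : ℝ) + 1) * n + δ / 2 * (n : ℝ) * n)) := by
        rw [Real.rpow_add (by norm_num), Real.rpow_add (by norm_num)]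
    _ ≤ 2 ^ (δ * (n : ℝ) ^ 2) := by
        refine Real.rpow_le_rpow_of_exponent_le (by norm_num) ?_
        have h3 : 4 * ((K : ℝ) + 1) / δ ≤ n := hN.le.trans (by exact_mod_cast hn)
        rw [div_le_iff₀ hδ] at h3
        have h4 : (0 : ℝ) ≤ n := Nat.cast_nonneg n
        nlinarith

end Pool.Agent.HER47
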