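import Pool.Agent.HER47.TargetsV

/-!
# Theorem H, part V: ENT, the number of small sets
-/

set_option autoImplicit false

namespace Pool.Agent.HER47

open Finset Classical

namespace ENT_

theorem sum_all (n : ℕ) (x : ℝ) :
    ∑ Z : Finset (Fin n), x ^ Z.card = (x + 1) ^ n := by
  have h := Fintype.sum_pow_mul_eq_add_pow (Fin n) x (1 : ℝ)
  simpa using h

theorem bound {n : ℕ} {x ε : ℝ} (hx : 0 < x) (hx1 : x ≤ 1) :
    ((((univ : Finset (Finset (Fin n))).filter (fun Z => (Z.card : ℝ) ≤ ε * n)).card : ℕ) : ℝ) *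
      x ^ (ε * (n : ℝ)) ≤ (x + 1) ^ n := by
  rw [← sum_all n x, ← nsmul_eq_mul]
  calc ((univ : Finset (Finset (Fin n))).filter (fun Z => (Z.card : ℝ) ≤ ε * n)).card •
        x ^ (ε * (n : ℝ))
      ≤ ∑ Z ∈ (univ : Finset (Finset (Fin n))).filter (fun Z => (Z.card : ℝ) ≤ ε * n),
          x ^ Z.card := by
        refine Finset.card_nsmul_le_sum _ _ _ fun Z hZ => ?_
        rw [Finset.mem_filter] at hZ
        rw [← Real.rpow_natCast]
        exact Real.rpow_le_rpow_of_exponent_ge hx hx1 hZ.2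
    _ ≤ ∑ Z : Finset (Fin n), x ^ Z.card :=
        Finset.sum_le_sum_of_subset_of_nonneg (Finset.subset_univ _)
          fun Z _ _ => pow_nonneg hx.le _

end ENT_

open ENT_ in
/-- ENT. -/
theorem p_ENT : T_ENT := by
  intro δ hδ
  have h2 : 1 < (2 : ℝ) ^ (δ / 2) := Real.one_lt_rpow (by norm_num) (by positivity)
  set x : ℝ := min 1 ((2 : ℝ) ^ (δ / 2) - 1) with hxd
  have hx0 : 0 < x := lt_min one_pos (by linarith)
  have hx1 : x ≤ 1 := min_le_left _ _
  have hx2 : x + 1 ≤ (2 : ℝ) ^ (δ / 2) := by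
    have := min_le_right 1 ((2 : ℝ) ^ (δ / 2) - 1)
    linarith
  have hl : Real.log x ≤ 0 := Real.log_nonpos hx0.le hx1
  have hl2 : 0 < Real.log 2 := Real.log_pos (by norm_num)
  refine ⟨(δ / 2 * Real.log 2) / (1 - Real.log x), by
    have : 0 < 1 - Real.log x := by linarith
    positivity, fun n => ?_⟩
  set ε : ℝ := (δ / 2 * Real.log 2) / (1 - Real.log x) with hε
  have hd : 0 < 1 - Real.log x := by linarith
  have hε0 : 0 < ε := by positivity
  have hεl : ε * (1 - Real.log x) = δ / 2 * Real.log 2 := by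
    rw [hε]
    field_simp
  have h3 := bound (n := n) (ε := ε) hx0 hx1
  set c : ℝ := ((((univ : Finset (Finset (Fin n))).filter
    (fun Z => (Z.card : ℝ) ≤ ε * n)).card : ℕ) : ℝ) with hc
  have hc0 : 0 ≤ c := Nat.cast_nonneg _
  -- lower bound for the power
  have h4 : (2 : ℝ) ^ (-(δ / 2 * (n : ℝ))) ≤ x ^ (ε * (n : ℝ)) := by
    rw [Real.rpow_def_of_pos (by norm_num : (0 : ℝ) < 2), Real.rpow_def_of_pos hx0]
    refine Real.exp_le_exp.mpr ?_
    have h5 : -(δ / 2 * Real.log 2) ≤ ε * Real.log x := by nlinarith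
    have h6 := mul_le_mul_of_nonneg_right h5 (Nat.cast_nonneg n : (0 : ℝ) ≤ n)
    nlinarith
  have h5 : (x + 1) ^ n ≤ (2 : ℝ) ^ (δ / 2 * (n : ℝ)) := by
    rw [Real.rpow_mul (by norm_num), Real.rpow_natCast]
    exact pow_le_pow_left₀ (by linarith) hx2 n
  have h6 : c * (2 : ℝ) ^ (-(δ / 2 * (n : ℝ))) ≤ (2 : ℝ) ^ (δ / 2 * (n : ℝ)) :=
    le_trans (mul_le_mul_of_nonneg_left h4 hc0) (le_trans h3 h5)
  have h7 : (0 : ℝ) < 2 ^ (δ / 2 * (n : ℝ)) := by positivity
  have h8 := mul_le_mul_of_nonneg_right h6 h7.le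
  rw [mul_assoc, ← Real.rpow_add (by norm_num), ← Real.rpow_add (by norm_num)] at h8
  have e1 : -(δ / 2 * (n : ℝ)) + δ / 2 * (n : ℝ) = 0 := by ring
  have e2 : δ / 2 * (n : ℝ) + δ / 2 * (n : ℝ) = δ * (n : ℝ) := by ring
  rw [e1, e2, Real.rpow_zero, mul_one] at h8
  exact h8

end Pool.Agent.HER47
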