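import Pool.Agent.HER47.TargetsV

set_option autoImplicit false

/-!
# PAK: Haussler's packing lemma, weak form
-/

namespace Pool.Agent.HER47

open Finset Classical

namespace PAK_

lemma exists_t (d : ℕ) (r : ℝ) (h0 : 0 ≤ r) (h1 : r < 1) :
    ∃ t : ℕ, ((d * (t + 1) ^ d + 1 : ℕ) : ℝ) ^ 2 * r ^ t < 1 := by
  rcases h0.eq_or_lt with h | h
  · exact ⟨1, by rw [← h]; simp⟩
  · have h2 := tendsto_pow_const_mul_const_pow_of_abs_lt_one (2 * d)
      (show |r| < 1 by rw [abs_of_pos h]; exact h1)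
    have h3 : Filter.Tendsto (fun n : ℕ => ((d : ℝ) + 1) ^ 2 / r * ((n : ℝ) ^ (2 * d) * r ^ n))
        Filter.atTop (nhds (((d : ℝ) + 1) ^ 2 / r * 0)) := h2.const_mul _
    rw [mul_zero] at h3
    obtain ⟨N, hN⟩ := Filter.eventually_atTop.mp (h3.eventually (gt_mem_nhds one_pos))
    refine ⟨N, ?_⟩
    have h4 := hN (N + 1) (Nat.le_succ N)
    refine lt_of_le_of_lt ?_ h4
    have e1 : ((d : ℝ) + 1) ^ 2 / r * (((N + 1 : ℕ) : ℝ) ^ (2 * d) * r ^ (N + 1)) =
        (((d : ℝ) + 1) * ((N : ℝ) + 1) ^ d) ^ 2 * r ^ N := by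
      push_cast
      field_simp
      ring
    rw [e1]
    refine mul_le_mul_of_nonneg_right ?_ (by positivity)
    refine pow_le_pow_left₀ (by positivity) ?_ 2
    push_cast
    have h5 : (1 : ℝ) ≤ ((N : ℝ) + 1) ^ d := one_le_pow₀ (by linarith [Nat.cast_nonneg (α := ℝ) N])
    nlinarith

lemma small_sets (t d : ℕ) :
    ((univ : Finset (Finset (Fin t))).filter (fun S => S.card < d)).card ≤ d * (t + 1) ^ d := by
  have hsub : (univ : Finset (Finset (Fin t))).filter (fun S => S.card < d) ⊆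
      (range d).biUnion (fun k => powersetCard k (univ : Finset (Fin t))) := by
    intro S hS
    rw [mem_filter] at hS
    rw [mem_biUnion]
    exact ⟨S.card, mem_range.2 hS.2, mem_powersetCard.2 ⟨subset_univ _, rfl⟩⟩
  refine (card_le_card hsub).trans ((card_biUnion_le).trans ?_)
  calc ∑ k ∈ range d, (powersetCard k (univ : Finset (Fin t))).card
      ≤ ∑ _k ∈ range d, (t + 1) ^ d := by
        refine sum_le_sum fun k hk => ?_
        rw [card_powersetCard, card_univ, Fintype.card_fin]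
        have hk' : k < d := mem_range.1 hk
        calc t.choose k ≤ t ^ k := Nat.choose_le_pow t k
          _ ≤ (t + 1) ^ k := Nat.pow_le_pow_left (Nat.le_succ t) k
          _ ≤ (t + 1) ^ d := Nat.pow_le_pow_right (Nat.succ_pos t) hk'.le
    _ = d * (t + 1) ^ d := by rw [sum_const, card_range, smul_eq_mul]

/-- a random sample separates the members -/
lemma exists_sep {m t N : ℕ} (hm : 0 < m) {r : ℝ} (hr0 : 0 ≤ r)
    (hr : ((N : ℕ) : ℝ) ^ 2 * r ^ t < 1) (F : Finset (Finset (Fin m))) (hF : F.card ≤ N)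
    (hd : ∀ A ∈ F, ∀ B ∈ F, A ≠ B → ((symmDiff A B)ᶜ.card : ℝ) ≤ r * m) :
    ∃ c : Fin t → Fin m, ∀ A ∈ F, ∀ B ∈ F, A ≠ B → ∃ i, c i ∈ symmDiff A B := by
  by_contra hno
  push Not at hno
  have hsub : (univ : Finset (Fin t → Fin m)) ⊆ F.offDiag.biUnion
      (fun p => Fintype.piFinset (fun _ : Fin t => (symmDiff p.1 p.2)ᶜ)) := by
    intro c _
    obtain ⟨A, hA, B, hB, hAB, hc⟩ := hno c
    rw [mem_biUnion]
    refine ⟨(A, B), mem_offDiag.2 ⟨hA, hB, hAB⟩, ?_⟩
    rw [Fintype.mem_piFinset]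
    intro i
    rw [mem_compl]
    exact hc i
  have h1 := (card_le_card hsub).trans card_biUnion_le
  rw [card_univ, Fintype.card_fun, Fintype.card_fin, Fintype.card_fin] at h1
  have h2 : ((m ^ t : ℕ) : ℝ) ≤ ∑ p ∈ F.offDiag, (r * m) ^ t := by
    have h3 : ((m ^ t : ℕ) : ℝ) ≤ ((∑ p ∈ F.offDiag,
        (Fintype.piFinset (fun _ : Fin t => (symmDiff p.1 p.2)ᶜ)).card : ℕ) : ℝ) := by
      exact_mod_cast h1
    refine h3.trans ?_
    rw [Nat.cast_sum]
    refine sum_le_sum fun p hp => ?_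
    rw [mem_offDiag] at hp
    rw [Fintype.card_piFinset, prod_const, card_univ, Fintype.card_fin, Nat.cast_pow]
    exact pow_le_pow_left₀ (Nat.cast_nonneg _) (hd _ hp.1 _ hp.2.1 hp.2.2) t
  rw [sum_const, nsmul_eq_mul, mul_pow, Nat.cast_pow] at h2
  have h4 : ((F.offDiag.card : ℕ) : ℝ) ≤ (N : ℝ) ^ 2 := by
    rw [offDiag_card]
    have h5 : F.card * F.card - F.card ≤ N ^ 2 := by
      refine (Nat.sub_le _ _).trans ?_
      rw [pow_two]
      exact Nat.mul_le_mul hF hF
    exact_mod_cast h5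
  have hmt : (0 : ℝ) < (m : ℝ) ^ t := by positivity
  have h6 : ((F.offDiag.card : ℕ) : ℝ) * (r ^ t * (m : ℝ) ^ t) ≤
      (N : ℝ) ^ 2 * (r ^ t * (m : ℝ) ^ t) :=
    mul_le_mul_of_nonneg_right h4 (by positivity)
  have h7 : (N : ℝ) ^ 2 * (r ^ t * (m : ℝ) ^ t) < (m : ℝ) ^ t := by
    rw [← mul_assoc]
    exact (mul_lt_iff_lt_one_left hmt).mpr hr
  linarith

/-- traces -/
lemma trace_bound {m t d : ℕ} (F : Finset (Finset (Fin m)))
    (hs : ∀ S : Finset (Fin m), F.Shatters S → S.card < d) (F' : Finset (Finset (Fin m)))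
    (hsub : F' ⊆ F) (c : Fin t → Fin m)
    (hc : ∀ A ∈ F', ∀ B ∈ F', A ≠ B → ∃ i, c i ∈ symmDiff A B) :
    F'.card ≤ d * (t + 1) ^ d := by
  have hinj : Set.InjOn (fun A : Finset (Fin m) =>
      (univ : Finset (Fin t)).filter (fun i => c i ∈ A)) F' := by
    intro A hA B hB hAB
    by_contra hne
    obtain ⟨i, hi⟩ := hc A hA B hB hne
    have h1 : (i ∈ (univ : Finset (Fin t)).filter (fun i => c i ∈ A)) ↔
        (i ∈ (univ : Finset (Fin t)).filter (fun i => c i ∈ B)) := by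
      have := congrArg (fun s : Finset (Fin t) => i ∈ s) hAB
      exact Eq.to_iff this
    simp only [mem_filter, mem_univ, true_and] at h1
    rw [mem_symmDiff] at hi
    tauto
  have hcard : (F'.image (fun A : Finset (Fin m) =>
      (univ : Finset (Fin t)).filter (fun i => c i ∈ A))).card = F'.card :=
    card_image_of_injOn hinj
  rw [← hcard]
  refine (card_le_card_shatterer _).trans ((card_le_card ?_).trans (small_sets t d))
  intro S hS
  rw [mem_shatterer] at hS
  rw [mem_filter]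
  refine ⟨mem_univ _, ?_⟩
  have hcS : Set.InjOn c S := by
    intro i hi j hj hij
    by_contra hne
    obtain ⟨u, hu, hSu⟩ := hS (singleton_subset_iff.2 hi)
    obtain ⟨A, hA, rfl⟩ := mem_image.1 hu
    have h1 : i ∈ S ∩ (univ : Finset (Fin t)).filter (fun i => c i ∈ A) := by
      rw [hSu]; exact mem_singleton_self i
    have h2 : c i ∈ A := (mem_filter.1 (mem_inter.1 h1).2).2
    have h3 : j ∈ S ∩ (univ : Finset (Fin t)).filter (fun i => c i ∈ A) :=
      mem_inter.2 ⟨hj, mem_filter.2 ⟨mem_univ _, by rw [← hij]; exact h2⟩⟩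
    rw [hSu, mem_singleton] at h3
    exact hne h3.symm
  have hF : F.Shatters (S.image c) := by
    intro U hU
    obtain ⟨u, hu, hSu⟩ := hS (filter_subset (fun i => c i ∈ U) S)
    obtain ⟨A, hA, rfl⟩ := mem_image.1 hu
    refine ⟨A, hsub hA, ?_⟩
    ext x
    rw [mem_inter, mem_image]
    constructor
    · rintro ⟨⟨i, hi, rfl⟩, hx⟩
      have h1 : i ∈ S ∩ (univ : Finset (Fin t)).filter (fun i => c i ∈ A) :=
        mem_inter.2 ⟨hi, mem_filter.2 ⟨mem_univ _, hx⟩⟩
      rw [hSu] at h1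
      exact (mem_filter.1 h1).2
    · intro hx
      obtain ⟨i, hi, rfl⟩ := mem_image.1 (hU hx)
      have h1 : i ∈ S.filter (fun i => c i ∈ U) := mem_filter.2 ⟨hi, hx⟩
      rw [← hSu] at h1
      exact ⟨⟨i, hi, rfl⟩, (mem_filter.1 (mem_inter.1 h1).2).2⟩
  have h2 := hs _ hF
  rwa [card_image_of_injOn hcS] at h2

end PAK_

open PAK_ in
theorem p_PAK : T_PAK := by
  intro d ε hε
  obtain ⟨r, hr⟩ : ∃ r : ℝ, r = 1 - min ε 1 := ⟨_, rfl⟩
  have hr0 : 0 ≤ r := by rw [hr]; linarith [min_le_right ε 1]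
  have hr1 : r < 1 := by
    rw [hr]
    have : 0 < min ε 1 := lt_min hε one_pos
    linarith
  obtain ⟨t, ht⟩ := exists_t d r hr0 hr1
  refine ⟨d * (t + 1) ^ d + 1, fun m F hs hd => ?_⟩
  by_contra hlt
  push Not at hlt
  have hm : 0 < m := by
    by_contra h0
    have h1 : m = 0 := by omega
    subst h1
    have h2 : F.card ≤ 1 := by
      refine card_le_one.2 fun A _ B _ => ?_
      exact Subsingleton.elim A B
    omega
  obtain ⟨F', hsub, hcard⟩ := exists_subset_card_eq hlt.le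
  obtain ⟨c, hc⟩ := exists_sep hm hr0 ht F' hcard.le (by
    intro A hA B hB hAB
    have h1 := hd A (hsub hA) B (hsub hB) hAB
    rw [card_compl, Fintype.card_fin, Nat.cast_sub (by
      have := card_le_univ (symmDiff A B)
      rwa [Fintype.card_fin] at this)]
    have hm' : (0 : ℝ) ≤ m := Nat.cast_nonneg m
    have h2 : min ε 1 * m ≤ ε * m := mul_le_mul_of_nonneg_right (min_le_left _ _) hm'
    rw [hr]
    nlinarith)
  have := trace_bound F hs F' hsub c hc
  omega

end Pool.Agent.HER47
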