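import Pool.Agent.HER47.TargetsV

/-!
# RAM: Ramsey's theorem for graphs
-/

set_option autoImplicit false

namespace Pool.Agent.HER47

open Finset Classical

/-- RAM. -/
theorem p_RAM : T_RAM := by
  intro a
  induction a with
  | zero =>
    exact fun b => ⟨0, fun V G S _ => Or.inl ⟨∅, by simp, by simp, by simp⟩⟩
  | succ a iha =>
    intro b
    induction b with
    | zero =>
      exact ⟨0, fun V G S _ => Or.inr ⟨∅, by simp, by simp, by simp⟩⟩
    | succ b ihb =>
      obtain ⟨R₁, h₁⟩ := iha (b + 1)
      obtain ⟨R₂, h₂⟩ := ihb
      refine ⟨R₁ + R₂ + 1, fun V G S hS => ?_⟩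
      obtain ⟨x, hx⟩ : S.Nonempty := Finset.card_pos.1 (by omega)
      have hsplit : ((S.erase x).filter fun y => G.Adj x y).card +
          ((S.erase x).filter fun y => ¬ G.Adj x y).card = (S.erase x).card :=
        Finset.card_filter_add_card_filter_not _
      rw [Finset.card_erase_of_mem hx] at hsplit
      rcases Nat.lt_or_ge ((S.erase x).filter fun y => G.Adj x y).card R₁ with hlt | hge
      · -- many non-neighbours
        have h3 : R₂ ≤ ((S.erase x).filter fun y => ¬ G.Adj x y).card := by omega
        rcases h₂ V G _ h3 with ⟨T, hT, hc, hcl⟩ | ⟨T, hT, hc, hin⟩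
        · exact Or.inl ⟨T, fun y hy => Finset.mem_of_mem_erase
            (Finset.mem_filter.1 (hT hy)).1, hc, hcl⟩
        · have hxT : x ∉ T := fun h => by
            have := (Finset.mem_filter.1 (hT h)).1
            exact (Finset.ne_of_mem_erase this) rfl
          refine Or.inr ⟨insert x T, ?_, ?_, ?_⟩
          · intro y hy
            rcases Finset.mem_insert.1 hy with h | h
            · exact h ▸ hx
            · exact Finset.mem_of_mem_erase (Finset.mem_filter.1 (hT h)).1
          · rw [Finset.card_insert_of_notMem hxT, hc]
          · intro y hy z hz hyz
            rcases Finset.mem_insert.1 hy with h | h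
            · rcases Finset.mem_insert.1 hz with h' | h'
              · exact absurd (h.trans h'.symm) hyz
              · rw [h]
                exact (Finset.mem_filter.1 (hT h')).2
            · rcases Finset.mem_insert.1 hz with h' | h'
              · rw [h']
                exact fun hadj => (Finset.mem_filter.1 (hT h)).2 hadj.symm
              · exact hin y h z h' hyz
      · rcases h₁ V G _ hge with ⟨T, hT, hc, hcl⟩ | ⟨T, hT, hc, hin⟩
        · have hxT : x ∉ T := fun h => by
            have := (Finset.mem_filter.1 (hT h)).1
            exact (Finset.ne_of_mem_erase this) rfl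
          refine Or.inl ⟨insert x T, ?_, ?_, ?_⟩
          · intro y hy
            rcases Finset.mem_insert.1 hy with h | h
            · exact h ▸ hx
            · exact Finset.mem_of_mem_erase (Finset.mem_filter.1 (hT h)).1
          · rw [Finset.card_insert_of_notMem hxT, hc]
          · intro y hy z hz hyz
            rcases Finset.mem_insert.1 hy with h | h
            · rcases Finset.mem_insert.1 hz with h' | h'
              · exact absurd (h.trans h'.symm) hyz
              · rw [h]
                exact (Finset.mem_filter.1 (hT h')).2
            · rcases Finset.mem_insert.1 hz with h' | h'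
              · rw [h']
                exact (Finset.mem_filter.1 (hT h)).2.symm
              · exact hcl y h z h' hyz
        · exact Or.inr ⟨T, fun y hy => Finset.mem_of_mem_erase
            (Finset.mem_filter.1 (hT hy)).1, hc, hin⟩

end Pool.Agent.HER47
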