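import Pool.Agent.HER47.TargetsV

set_option autoImplicit false

/-!
# Shattered sets contain all bipartite, co-bipartite or split graphs
-/

namespace Pool.Agent.HER47

open Finset Classical

namespace SHA_

/-- two homogeneous sets and all possible adjacencies between them -/
theorem embed {n R₀ : ℕ} {V : Type} {G : SimpleGraph V} {rb cb : Prop} {v : Fin R₀ → V}
    {col : Finset (Fin R₀) × Fin (n + 2) → V} {ρ : Fin n → Fin R₀}
    (hvi : Function.Injective v) (hci : Function.Injective col) (hρ : Function.Injective ρ)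
    (hvc : ∀ r x, v r ≠ col x) (hv : ∀ r x, G.Adj (v r) (col x) ↔ r ∈ x.1)
    (hr : ∀ i j, i ≠ j → (G.Adj (v (ρ i)) (v (ρ j)) ↔ rb))
    (hc : ∀ x y, x ≠ y → (G.Adj (col x) (col y) ↔ cb))
    (B : SimpleGraph (Fin n)) (χ : Fin n → Prop)
    (h0 : ∀ i j, i ≠ j → ¬ χ i → ¬ χ j → (B.Adj i j ↔ rb))
    (h1 : ∀ i j, i ≠ j → χ i → χ j → (B.Adj i j ↔ cb)) :
    ∃ f : Fin n ↪ V, G.comap f = B := by
  let P : Fin n → Finset (Fin R₀) × Fin (n + 2) := fun i =>
    ((univ.filter fun j => ¬ χ j ∧ B.Adj i j).image ρ, Fin.castAdd 2 i)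
  have hP : ∀ i j, P i = P j → i = j := by
    intro i j h
    have := congrArg Prod.snd h
    exact Fin.castAdd_injective n 2 this
  have hPm : ∀ i j, ¬ χ j → (ρ j ∈ (P i).1 ↔ B.Adj i j) := by
    intro i j hj
    simp only [P, mem_image, mem_filter, mem_univ, true_and]
    constructor
    · rintro ⟨k, hk, hkj⟩
      rw [← hρ hkj]
      exact hk.2
    · intro h
      exact ⟨j, ⟨hj, h⟩, rfl⟩
  let F : Fin n → V := fun i => if χ i then col (P i) else v (ρ i)
  have hFt : ∀ i, χ i → F i = col (P i) := fun i hi => if_pos hi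
  have hFf : ∀ i, ¬ χ i → F i = v (ρ i) := fun i hi => if_neg hi
  have hF : Function.Injective F := by
    intro i j h
    by_cases hi : χ i <;> by_cases hj : χ j
    · rw [hFt i hi, hFt j hj] at h
      exact hP i j (hci h)
    · rw [hFt i hi, hFf j hj] at h
      exact absurd h.symm (hvc _ _)
    · rw [hFf i hi, hFt j hj] at h
      exact absurd h (hvc _ _)
    · rw [hFf i hi, hFf j hj] at h
      exact hρ (hvi h)
  refine ⟨⟨F, hF⟩, ?_⟩
  ext i j
  rw [SimpleGraph.comap_adj]
  change G.Adj (F i) (F j) ↔ B.Adj i j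
  by_cases hij : i = j
  · subst hij
    exact ⟨fun h => absurd h (G.loopless.irrefl _), fun h => absurd h (B.loopless.irrefl _)⟩
  by_cases hi : χ i <;> by_cases hj : χ j
  · rw [hFt i hi, hFt j hj, hc _ _ fun h => hij (hP i j h), h1 i j hij hi hj]
  · rw [hFt i hi, hFf j hj, G.adj_comm, hv, hPm i j hj]
  · rw [hFf i hi, hFt j hj, hv, hPm j i hi, B.adj_comm]
  · rw [hFf i hi, hFf j hj, hr _ _ hij, h0 i j hij hi hj]

/-- numbering of the elements of a homogeneous set of rows -/
theorem rows {n R₀ : ℕ} {V : Type} {v : Fin R₀ → V} {T : Finset V}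
    (hT : T ⊆ univ.image v) (hc : T.card = n) :
    ∃ ρ : Fin n → Fin R₀, Function.Injective ρ ∧ ∀ j, v (ρ j) ∈ T := by
  have e : Fin n ≃ T := (Fintype.equivFinOfCardEq (by rw [Fintype.card_coe, hc])).symm
  have h1 : ∀ j, ∃ r, v r = (e j : V) := by
    intro j
    obtain ⟨r, -, hr⟩ := mem_image.1 (hT (e j).2)
    exact ⟨r, hr⟩
  choose ρ hρ using h1
  refine ⟨ρ, fun i j h => ?_, fun j => by rw [hρ]; exact (e j).2⟩
  apply e.injective
  apply Subtype.ext
  rw [← hρ, ← hρ, h]

end SHA_

open SHA_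

theorem p_SHA (h : T_RAM) : T_SHA := by
  intro n
  obtain ⟨R₀, hR₀⟩ := h n n
  obtain ⟨d, hd⟩ := h (2 ^ R₀ * (n + 2)) (2 ^ R₀ * (n + 2))
  refine ⟨d, fun V G S hS hShat => ?_⟩
  have main : ∀ (T : Finset V) (cb : Prop), T ⊆ S → T.card = 2 ^ R₀ * (n + 2) →
      (∀ x ∈ T, ∀ y ∈ T, x ≠ y → (G.Adj x y ↔ cb)) → ∃ (rb : Prop) (_ : rb ∨ ¬ rb)
        (v : Fin R₀ → V) (col : Finset (Fin R₀) × Fin (n + 2) → V) (ρ : Fin n → Fin R₀),
        Function.Injective v ∧ Function.Injective col ∧ Function.Injective ρ ∧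
        (∀ r x, v r ≠ col x) ∧ (∀ r x, G.Adj (v r) (col x) ↔ r ∈ x.1) ∧
        (∀ i j, i ≠ j → (G.Adj (v (ρ i)) (v (ρ j)) ↔ rb)) ∧
        (∀ x y, x ≠ y → (G.Adj (col x) (col y) ↔ cb)) := by
    intro T cb hTS hTc hT
    have e : Finset (Fin R₀) × Fin (n + 2) ≃ T := Fintype.equivOfCardEq (by
      rw [Fintype.card_prod, Fintype.card_finset, Fintype.card_fin, Fintype.card_fin,
        Fintype.card_coe, hTc])
    have hci : Function.Injective fun x => (e x : V) := fun x y hxy =>
      e.injective (Subtype.ext hxy)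
    have h1 : ∀ r : Fin R₀, ∃ v : V, ∀ x, (G.Adj v (e x : V) ↔ r ∈ x.1) := by
      intro r
      obtain ⟨v, hv⟩ := hShat ((univ.filter fun x : Finset (Fin R₀) × Fin (n + 2) =>
        r ∈ x.1).image fun x => (e x : V)) (fun s hs => by
          obtain ⟨x, -, rfl⟩ := mem_image.1 hs
          exact hTS (e x).2)
      refine ⟨v, fun x => ?_⟩
      rw [hv _ (hTS (e x).2), mem_image]
      constructor
      · rintro ⟨y, hy, hyx⟩
        rw [← hci hyx]
        exact (mem_filter.1 hy).2
      · intro hx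
        exact ⟨x, mem_filter.2 ⟨mem_univ _, hx⟩, rfl⟩
    choose v hv using h1
    have hvi : Function.Injective v := by
      intro r r' hrr
      have h2 := (hv r ({r}, 0)).2 (mem_singleton_self r)
      rw [hrr, hv] at h2
      exact (mem_singleton.1 h2).symm
    have hcol : ∀ x y, x ≠ y → (G.Adj (e x : V) (e y : V) ↔ cb) := fun x y hxy =>
      hT _ (e x).2 _ (e y).2 fun h => hxy (hci h)
    have hvc : ∀ r x, v r ≠ (e x : V) := by
      intro r x hx
      by_cases hcb : cb
      · have h2 : ∀ c : Fin (n + 2), x = (∅, c) := by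
          intro c
          by_contra hne
          have h3 := (hcol x (∅, c) hne).2 hcb
          rw [← hx, hv] at h3
          exact absurd h3 (notMem_empty r)
        have h3 := (h2 0).symm.trans (h2 1)
        have h4 : (0 : Fin (n + 2)) = 1 := congrArg Prod.snd h3
        exact absurd h4 (by simp)
      · have h2 := (hv r (univ, 0)).2 (mem_univ r)
        by_cases hne : x = (univ, 0)
        · rw [hx, hne] at h2
          exact G.loopless.irrefl _ h2
        · rw [hx, hcol _ _ hne] at h2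
          exact hcb h2
    have hcardv : R₀ ≤ (univ.image v).card := by
      rw [card_image_of_injective _ hvi, card_univ, Fintype.card_fin]
    rcases hR₀ V G (univ.image v) hcardv with ⟨U, hU, hUc, hUa⟩ | ⟨U, hU, hUc, hUa⟩
    · obtain ⟨ρ, hρ, hρU⟩ := rows hU hUc
      exact ⟨True, Classical.em _, v, fun x => (e x : V), ρ, hvi, hci, hρ, hvc, hv, fun i j hij =>
        iff_true_intro (hUa _ (hρU i) _ (hρU j) fun h => hij (hρ (hvi h))), hcol⟩
    · obtain ⟨ρ, hρ, hρU⟩ := rows hU hUc
      exact ⟨False, Classical.em _, v, fun x => (e x : V), ρ, hvi, hci, hρ, hvc, hv, fun i j hij =>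
        iff_false_intro (hUa _ (hρU i) _ (hρU j) fun h => hij (hρ (hvi h))), hcol⟩
  rcases hd V G S hS.ge with ⟨T, hTS, hTc, hT⟩ | ⟨T, hTS, hTc, hT⟩
  · obtain ⟨rb, hrb, v, col, ρ, g1, g2, g3, g4, g5, g6, g7⟩ := main T True hTS hTc
      fun x hx y hy hxy => iff_true_intro (hT x hx y hy hxy)
    rcases hrb with hrb | hrb
    · right; left
      rintro B ⟨C⟩
      refine embed g1 g2 g3 g4 g5 g6 g7 B (fun i => C i = 1) (fun i j hij hi hj => ?_)
        fun i j hij hi hj => ?_
      · have h1 : C i = C j := by omega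
        have h2 : ¬ Bᶜ.Adj i j := fun h => C.valid h h1
        rw [SimpleGraph.compl_adj, not_and, not_not] at h2
        exact ⟨fun _ => hrb, fun _ => h2 hij⟩
      · have h1 : C i = C j := by omega
        have h2 : ¬ Bᶜ.Adj i j := fun h => C.valid h h1
        rw [SimpleGraph.compl_adj, not_and, not_not] at h2
        exact iff_true_intro (h2 hij)
    · right; right
      rintro B ⟨s, hs1, hs2⟩
      refine embed g1 g2 g3 g4 g5 g6 g7 B (fun i => i ∈ s) (fun i j hij hi hj => ?_)
        fun i j hij hi hj => ?_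
      · exact ⟨fun h => absurd h (hs2 hi hj hij), fun h => absurd h hrb⟩
      · exact iff_true_intro (hs1 hi hj hij)
  · obtain ⟨rb, hrb, v, col, ρ, g1, g2, g3, g4, g5, g6, g7⟩ := main T False hTS hTc
      fun x hx y hy hxy => iff_false_intro (hT x hx y hy hxy)
    rcases hrb with hrb | hrb
    · right; right
      rintro B ⟨s, hs1, hs2⟩
      refine embed g1 g2 g3 g4 g5 g6 g7 B (fun i => i ∉ s) (fun i j hij hi hj => ?_)
        fun i j hij hi hj => ?_
      · exact ⟨fun _ => hrb, fun _ => hs1 (not_not.1 hi) (not_not.1 hj) hij⟩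
      · exact iff_false_intro (hs2 hi hj hij)
    · left
      rintro B ⟨C⟩
      refine embed g1 g2 g3 g4 g5 g6 g7 B (fun i => C i = 1) (fun i j hij hi hj => ?_)
        fun i j hij hi hj => ?_
      · have h1 : C i = C j := by omega
        exact ⟨fun h => absurd h1 (C.valid h), fun h => absurd h hrb⟩
      · have h1 : C i = C j := by omega
        exact iff_false_intro fun h => C.valid h h1

end Pool.Agent.HER47
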