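import Pool.Agent.HER47.Final
import Pool.Agent.HER47.AsmV
import Pool.Agent.HER47.P_RAM
import Pool.Agent.HER47.P_SHA
import Pool.Agent.HER47.P_PAK
import Pool.Agent.HER47.P_ENT
import Pool.Agent.HER47.P_CNT

/-!
# Theorem H: final theorem, part V
-/

set_option autoImplicit false

namespace Pool.Agent.HER47

open Finset Classical

/-- Hereditary classes with `2 ^ (δ n ^ 2)` members. -/
theorem final_quad (C : Cls) (hC : Her C) (δ : ℝ) (hδ : 0 < δ)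
    (hB : ∀ N : ℕ, ∃ n : ℕ, N ≤ n ∧ (2 : ℝ) ^ (δ * (n : ℝ) ^ 2) ≤ (cn C n : ℝ))
    (ε : ℝ) (hε : 0 < ε) :
    ∃ N : ℕ, ∀ n : ℕ, N ≤ n → (bn C n : ℝ) ≤ 2 ^ ((2 / 9 + ε) * (n : ℝ) ^ 2) ∧
      2 ^ (n ^ 2 / 4) ≤ cn C n :=
  main_quad (p_SHA p_RAM) (p_CNT p_PAK p_ENT) C hC δ hδ hB ε hε

end Pool.Agent.HER47
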