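import Pool.Agent.HER47.TargetsX

set_option autoImplicit false

namespace Pool.Agent.HER47

open Finset Classical

namespace EMB_

lemma leaf (W : Type) [Finite W] [Nonempty W] (T : SimpleGraph W) (h : T.IsAcyclic) :
    ∃ x, ∀ y z, T.Adj x y → T.Adj x z → y = z := by
  rcases subsingleton_or_nontrivial W with hs | hn
  · obtain ⟨x⟩ := (inferInstance : Nonempty W)
    exact ⟨x, fun y z _ _ => Subsingleton.elim _ _⟩
  · obtain ⟨T', hT'1, hT'2, hT'3⟩ :=
      (SimpleGraph.connected_top (V := W)).exists_isTree_le_of_le_of_isAcyclic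
        (le_top : T ≤ ⊤) h
    have hfin : Fintype W := Fintype.ofFinite W
    obtain ⟨x, hx⟩ := hT'3.exists_vert_degree_one_of_nontrivial
    rw [SimpleGraph.degree_eq_one_iff_existsUnique_adj] at hx
    exact ⟨x, fun y z hy hz => hx.unique (hT'1 hy) (hT'1 hz)⟩

lemma main (t : ℕ) : ∀ (W : Type) [Finite W] (T : SimpleGraph W), T.IsAcyclic → Nat.card W = t →
    ∀ (V : Type) [Finite V] [Nonempty V] (G : SimpleGraph V) (d : ℕ), t ≤ d →
    (∀ v, d ≤ (G.neighborSet v).ncard) →
    ∃ φ : W → V, Function.Injective φ ∧ ∀ a b, T.Adj a b → G.Adj (φ a) (φ b) := by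
  induction t with
  | zero =>
    intro W _ T _ hW V _ _ G d _ _
    have : IsEmpty W := by
      rcases Nat.card_eq_zero.mp hW with h | h
      · exact h
      · exact absurd h (by rw [not_infinite_iff_finite]; infer_instance)
    exact ⟨fun w => isEmptyElim w, fun w => isEmptyElim w, fun w => isEmptyElim w⟩
  | succ t ih =>
    intro W _ T hT hW V _ _ G d htd hd
    have hne : Nonempty W := by
      by_contra h
      rw [not_nonempty_iff] at h
      rw [Nat.card_of_isEmpty] at hW
      omega
    obtain ⟨x, hx⟩ := leaf W T hT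
    set T' : SimpleGraph {w : W // w ≠ x} := T.comap (Function.Embedding.subtype _) with hT'
    have hT'a : T'.IsAcyclic := hT.of_comap _
    have hcard : Nat.card {w : W // w ≠ x} = t := by
      have h1 := Nat.card_congr (Equiv.sumCompl (fun w : W => w = x))
      rw [Nat.card_sum, hW, Nat.card_unique] at h1
      have h2 : Nat.card {a : W // ¬ a = x} = Nat.card {w : W // w ≠ x} := rfl
      omega
    obtain ⟨φ, hφi, hφ⟩ := ih {w : W // w ≠ x} T' hT'a hcard V G d (by omega) hd
    have hrange : (Set.range φ).ncard = t := by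
      rw [← Set.image_univ, Set.ncard_image_of_injective _ hφi, Set.ncard_univ, hcard]
    -- an unused neighbour of any vertex
    have hnew : ∀ v₀ : V, ∃ v, G.Adj v₀ v ∧ v ∉ Set.range φ := by
      intro v₀
      by_contra hcon
      push Not at hcon
      have h1 : G.neighborSet v₀ ⊆ Set.range φ := fun v hv => hcon v hv
      have h2 := Set.ncard_le_ncard h1 (Set.toFinite _)
      have h3 := hd v₀
      omega
    -- the anchor
    obtain ⟨v₀, hv₀⟩ : ∃ v₀ : V, ∀ (y : W) (hy : y ≠ x), T.Adj x y → v₀ = φ ⟨y, hy⟩ := by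
      by_cases hy : ∃ y, T.Adj x y
      · obtain ⟨y, hy⟩ := hy
        refine ⟨φ ⟨y, hy.ne'⟩, fun z hz hxz => ?_⟩
        have := hx y z hy hxz
        subst this
        rfl
      · obtain ⟨v⟩ := (inferInstance : Nonempty V)
        exact ⟨v, fun y _ hxy => absurd ⟨y, hxy⟩ hy⟩
    obtain ⟨v, hv1, hv2⟩ := hnew v₀
    refine ⟨fun w => if h : w = x then v else φ ⟨w, h⟩, ?_, ?_⟩
    · intro a b hab
      by_cases ha : a = x <;> by_cases hb : b = x
      · rw [ha, hb]
      · simp only [ha, hb, dif_pos, dif_neg, not_false_eq_true] at hab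
        exact absurd ⟨_, hab.symm⟩ hv2
      · simp only [ha, hb, dif_pos, dif_neg, not_false_eq_true] at hab
        exact absurd ⟨_, hab⟩ hv2
      · simp only [ha, hb, dif_neg, not_false_eq_true] at hab
        exact congrArg Subtype.val (hφi hab)
    · intro a b hab
      by_cases ha : a = x <;> by_cases hb : b = x
      · subst ha; subst hb
        exact absurd hab (T.irrefl)
      · simp only [ha, hb, dif_pos, dif_neg, not_false_eq_true]
        subst ha
        rw [← hv₀ b hb hab]
        exact hv1.symm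
      · simp only [ha, hb, dif_pos, dif_neg, not_false_eq_true]
        subst hb
        rw [← hv₀ a ha hab.symm]
        exact hv1
      · simp only [ha, hb, dif_neg, not_false_eq_true]
        exact hφ ⟨a, ha⟩ ⟨b, hb⟩ hab

end EMB_

open EMB_ in
theorem p_EMB : T_EMB := by
  intro W _ T hT V _ _ G hd hfree
  obtain ⟨φ, hφi, hφ⟩ := main (Nat.card W) W T hT rfl V G (Nat.card W) le_rfl hd
  exact hfree ⟨⟨⟨φ, fun {a b} h => hφ a b h⟩, hφi⟩⟩

end Pool.Agent.HER47
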