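import Pool.Agent.HER47.TargetsX

set_option autoImplicit false

namespace Pool.Agent.HER47

open Finset Classical

namespace FEW_

lemma enum {α : Type} (E : Finset α) (q : ℕ) (h : E.card ≤ q) :
    ∃ f : Fin q → Option α, ∀ e, e ∈ E ↔ ∃ i, f i = some e := by
  refine ⟨fun i => if h : i.1 < E.card then some (E.equivFin.symm ⟨i.1, h⟩).1 else none,
    fun e => ⟨fun he => ?_, ?_⟩⟩
  · have hlt : (E.equivFin ⟨e, he⟩).1 < q := (E.equivFin ⟨e, he⟩).2.trans_le h
    refine ⟨⟨(E.equivFin ⟨e, he⟩).1, hlt⟩, ?_⟩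
    have h2 : (E.equivFin ⟨e, he⟩).1 < E.card := (E.equivFin ⟨e, he⟩).2
    simp only [h2, dif_pos]
    have h3 : (⟨(E.equivFin ⟨e, he⟩).1, h2⟩ : Fin E.card) = E.equivFin ⟨e, he⟩ := Fin.ext rfl
    rw [h3, Equiv.symm_apply_apply]
  · rintro ⟨i, hi⟩
    by_cases h2 : i.1 < E.card
    · simp only [h2, dif_pos, Option.some.injEq] at hi
      rw [← hi]
      exact (E.equivFin.symm ⟨i.1, h2⟩).2
    · simp only [h2, dif_neg, not_false_eq_true] at hi
      exact absurd hi (by simp)

end FEW_

open FEW_ in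
theorem p_FEW : T_FEW := by
  intro m q
  have hfin : ∀ G : SimpleGraph (Fin m), (G.edgeSet).Finite := fun G => Set.toFinite _
  have hex : ∀ G : {G : SimpleGraph (Fin m) // Nat.card G.edgeSet ≤ q},
      ∃ f : Fin q → Option (Sym2 (Fin m)), ∀ e, e ∈ (hfin G.1).toFinset ↔ ∃ i, f i = some e := by
    intro G
    apply enum
    have h1 := Set.ncard_eq_toFinset_card G.1.edgeSet (hfin G.1)
    have h2 : G.1.edgeSet.ncard = Nat.card G.1.edgeSet := rfl
    rw [← h1, h2]
    exact G.2
  choose f hf using hex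
  have hinj : Function.Injective f := by
    intro G G' h
    apply Subtype.ext
    apply SimpleGraph.edgeSet_injective
    ext e
    have h1 := hf G e
    have h2 := hf G' e
    rw [h] at h1
    rw [Set.Finite.mem_toFinset] at h1 h2
    exact h1.trans h2.symm
  refine (Nat.card_le_card_of_injective f hinj).trans ?_
  rw [Nat.card_eq_fintype_card, Fintype.card_fun, Fintype.card_fin, Fintype.card_option,
    Sym2.card, Fintype.card_fin]
  refine Nat.pow_le_pow_left (Nat.add_le_add_right ?_ 1) q
  rw [Nat.choose_two_right]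
  apply Nat.div_le_of_le_mul
  rcases Nat.eq_zero_or_pos m with h | h
  · subst h; simp
  · have : m + 1 - 1 = m := by omega
    rw [this]
    nlinarith

end Pool.Agent.HER47
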