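import Pool.Agent.HER47.TargetsX

set_option autoImplicit false

namespace Pool.Agent.HER47

open Finset Classical

namespace FOR_

lemma edges_le {V : Type} [Finite V] (G : SimpleGraph V) (v : V) :
    Nat.card G.edgeSet ≤
      Nat.card (G.comap (Function.Embedding.subtype (fun w => w ≠ v))).edgeSet +
        (G.neighborSet v).ncard := by
  have hsub : G.edgeSet ⊆ (Sym2.map (Subtype.val : {w : V // w ≠ v} → V) ''
      (G.comap (Function.Embedding.subtype (fun w => w ≠ v))).edgeSet) ∪
      ((fun w => s(v, w)) '' G.neighborSet v) := by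
    intro e he
    induction e using Sym2.ind with
    | _ a b =>
      rw [SimpleGraph.mem_edgeSet] at he
      by_cases ha : a = v
      · subst ha
        exact Or.inr ⟨b, he, rfl⟩
      · by_cases hb : b = v
        · subst hb
          exact Or.inr ⟨a, he.symm, Sym2.eq_swap⟩
        · refine Or.inl ⟨s(⟨a, ha⟩, ⟨b, hb⟩), ?_, rfl⟩
          rw [SimpleGraph.mem_edgeSet]
          exact he
  have h1 := (Set.ncard_le_ncard hsub (Set.toFinite _)).trans (Set.ncard_union_le _ _)
  have h2 := Set.ncard_image_le (f := Sym2.map (Subtype.val : {w : V // w ≠ v} → V))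
    (Set.toFinite (G.comap (Function.Embedding.subtype (fun w => w ≠ v))).edgeSet)
  have h3 := Set.ncard_image_le (f := fun w => s(v, w)) (Set.toFinite (G.neighborSet v))
  have h4 : G.edgeSet.ncard = Nat.card G.edgeSet := rfl
  have h5 : (G.comap (Function.Embedding.subtype (fun w => w ≠ v))).edgeSet.ncard =
    Nat.card (G.comap (Function.Embedding.subtype (fun w => w ≠ v))).edgeSet := rfl
  omega

lemma main (h : T_EMB) (W : Type) [Finite W] (T : SimpleGraph W) (hT : T.IsAcyclic) (n : ℕ) :
    ∀ (V : Type) [Finite V] (G : SimpleGraph V), Nat.card V = n → T.Free G →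
    Nat.card G.edgeSet ≤ Nat.card W * n := by
  induction n with
  | zero =>
    intro V _ G hV _
    have hE : IsEmpty V := by
      rcases Nat.card_eq_zero.mp hV with h | h
      · exact h
      · exact absurd h (by rw [not_infinite_iff_finite]; infer_instance)
    have : IsEmpty G.edgeSet := by
      refine ⟨fun e => ?_⟩
      obtain ⟨e, he⟩ := e
      induction e using Sym2.ind with
      | _ a b => exact hE.false a
    rw [Nat.card_of_isEmpty]
    exact Nat.zero_le _
  | succ n ih =>
    intro V _ G hV hG
    have hne : Nonempty V := by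
      by_contra hcon
      rw [not_nonempty_iff] at hcon
      rw [Nat.card_of_isEmpty] at hV
      omega
    obtain ⟨v, hv⟩ : ∃ v, (G.neighborSet v).ncard < Nat.card W := by
      by_contra hcon
      push Not at hcon
      exact h W T hT V G hcon hG
    have hcard : Nat.card {w : V // w ≠ v} = n := by
      have h1 := Nat.card_congr (Equiv.sumCompl (fun w : V => w = v))
      rw [Nat.card_sum, hV, Nat.card_unique] at h1
      have h2 : Nat.card {a : V // ¬ a = v} = Nat.card {w : V // w ≠ v} := rfl
      omega
    have hfree : T.Free (G.comap (Function.Embedding.subtype (fun w => w ≠ v))) := by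
      rintro ⟨φ⟩
      refine hG ⟨⟨⟨fun w => (φ w).1, fun {a b} hab => φ.toHom.map_adj hab⟩, fun a b hab => ?_⟩⟩
      exact φ.injective (Subtype.ext hab)
    have h1 := ih {w : V // w ≠ v} (G.comap (Function.Embedding.subtype (fun w => w ≠ v))) hcard
      hfree
    have h2 := edges_le G v
    rw [Nat.mul_succ]
    omega

end FOR_

open FOR_ in
theorem p_FOR (h : T_EMB) : T_FOR := by
  intro W _ T hT V _ G hG
  exact main h W T hT (Nat.card V) V G rfl hG

end Pool.Agent.HER47
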