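import Pool.Agent.HER47.TargetsX

/-!
# HER47: target GU
-/

set_option autoImplicit false

namespace Pool.Agent.HER47

open Finset Classical

namespace GU_

theorem lift {V V' : Type} (G : SimpleGraph V) (H : SimpleGraph V') {x y : V ⊕ V'}
    (p : (G ⊕g H).Walk x y) : ∀ v : V, ∀ hx : x = Sum.inl v, ∃ (v' : V) (hy : y = Sum.inl v')
      (p' : G.Walk v v'), p.copy hx hy = p'.map SimpleGraph.Embedding.sumInl.toHom := by
  induction p with
  | nil =>
    intro v hx
    subst hx
    exact ⟨v, rfl, SimpleGraph.Walk.nil, rfl⟩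
  | cons h p ih =>
    rename_i a z b
    intro v hx
    subst hx
    rcases z with z | z
    · obtain ⟨v', hy, p', hp⟩ := ih z rfl
      subst hy
      refine ⟨v', rfl, SimpleGraph.Walk.cons (SimpleGraph.sum_adj_inl.mp h) p', ?_⟩
      rw [SimpleGraph.Walk.copy_rfl_rfl] at hp ⊢
      rw [SimpleGraph.Walk.map_cons, hp]
      rfl
    · exact absurd h (by simp)

theorem cyc_inl {V V' : Type} (G : SimpleGraph V) (H : SimpleGraph V') (v : V)
    (c : (G ⊕g H).Walk (Sum.inl v) (Sum.inl v)) (hc : c.IsCycle) : G.egirth ≤ c.length := by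
  obtain ⟨v', hy, p', hp⟩ := lift G H c v rfl
  have hv : v = v' := Sum.inl_injective hy
  subst hv
  rw [SimpleGraph.Walk.copy_rfl_rfl] at hp
  have e : c.length = p'.length := by
    rw [hp]
    exact SimpleGraph.Walk.length_map _ _
  rw [hp] at hc
  have h1 : p'.IsCycle := by
    refine (SimpleGraph.Walk.map_isCycle_iff_of_injective ?_).mp hc
    exact (SimpleGraph.Embedding.sumInl (G := G) (H := H)).injective
  rw [e]
  exact SimpleGraph.egirth_le_length h1

theorem cyc_inr {V V' : Type} (G : SimpleGraph V) (H : SimpleGraph V') (v : V')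
    (c : (G ⊕g H).Walk (Sum.inr v) (Sum.inr v)) (hc : c.IsCycle) : H.egirth ≤ c.length := by
  have h1 := cyc_inl H G v (c.map (SimpleGraph.Iso.sumComm (G := G) (H := H)).toHom)
    (hc.map (SimpleGraph.Iso.sumComm (G := G) (H := H)).injective)
  have e : (c.map (SimpleGraph.Iso.sumComm (G := G) (H := H)).toHom).length = c.length :=
    SimpleGraph.Walk.length_map _ _
  exact le_of_le_of_eq h1 (congrArg _ e)

end GU_

theorem p_GU : T_GU := by
  intro k
  refine ⟨?_, ?_, ?_, ?_⟩
  · intro V W _ f G hG
    have h1 : (G.comap f).IsContained G := ⟨(SimpleGraph.Embedding.comap f G).toCopy⟩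
    exact lt_of_lt_of_le hG h1.egirth_le
  · intro V V' G H hG hH
    unfold gcls at *
    have h0 : ((k + 1 : ℕ) : ℕ∞) ≤ (G ⊕g H).egirth := by
      rw [SimpleGraph.le_egirth]
      intro a w hw
      rcases a with a | a
      · have h1 := lt_of_lt_of_le hG (GU_.cyc_inl G H a w hw)
        have h2 : k < w.length := by exact_mod_cast h1
        exact_mod_cast h2
      · have h1 := lt_of_lt_of_le hH (GU_.cyc_inr G H a w hw)
        have h2 : k < w.length := by exact_mod_cast h1
        exact_mod_cast h2
    refine lt_of_lt_of_le ?_ h0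
    exact_mod_cast Nat.lt_succ_self k
  · intro V G H hGH hH
    exact lt_of_lt_of_le hH (SimpleGraph.egirth_anti hGH)
  · intro W V _ F G hW hF hG hcon
    have := Fintype.ofFinite W
    obtain ⟨a, w, hw, hl⟩ := SimpleGraph.exists_egirth_eq_length.mpr hF
    have h1 : (k : ℕ∞) < F.egirth := lt_of_lt_of_le hG hcon.egirth_le
    rw [hl] at h1
    have h2 : k < w.length := by exact_mod_cast h1
    have h3 : w.length ≤ Fintype.card W := by
      have h4 := hw.support_nodup.length_le_card
      simpa using h4
    rw [Nat.card_eq_fintype_card] at hW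
    omega

end Pool.Agent.HER47
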