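import Pool.Agent.HER47.TargetsX

/-!
# HER47: near supermultiplicativity (target NEA)
-/

set_option autoImplicit false

namespace Pool.Agent.HER47

open Finset Classical

namespace NEA_

theorem comap_inj {X Y : Type} (e : X ≃ Y) {S T : SimpleGraph Y}
    (h : S.comap e = T.comap e) : S = T := by
  ext x y
  have h1 : (S.comap e).Adj (e.symm x) (e.symm y) ↔ (T.comap e).Adj (e.symm x) (e.symm y) := by
    rw [h]
  simpa using h1

theorem sum_inj {X Y : Type} {G G' : SimpleGraph X} {H H' : SimpleGraph Y}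
    (h : G ⊕g H = G' ⊕g H') : G = G' ∧ H = H' := by
  constructor
  · ext x y
    have h1 : (G ⊕g H).Adj (Sum.inl x) (Sum.inl y) ↔ (G' ⊕g H').Adj (Sum.inl x) (Sum.inl y) := by
      rw [h]
    exact h1
  · ext x y
    have h1 : (G ⊕g H).Adj (Sum.inr x) (Sum.inr y) ↔ (G' ⊕g H').Adj (Sum.inr x) (Sum.inr y) := by
      rw [h]
    exact h1

theorem free_comap {ι : Type} {W : ι → Type} (F : ∀ i, SimpleGraph (W i)) {X Y : Type} (e : X ≃ Y)
    (G : SimpleGraph Y) (h : ∀ i, (F i).Free G) : ∀ i, (F i).Free (G.comap e) := by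
  intro i hc
  exact h i (hc.trans (SimpleGraph.Iso.comap e G).isContained)

/-- the equivalence -/
def e (a b : ℕ) : Fin (a + b) ≃ Fin b ⊕ Fin a := finSumFinEquiv.symm.trans (Equiv.sumComm _ _)

/-- the two kinds of pairs -/
theorem split {ι : Type} {W : ι → Type} [∀ i, Finite (W i)] (F : ∀ i, SimpleGraph (W i)) (k : ℕ)
    (hF : ∀ i, Nat.card (W i) ≤ k) (h1 : T_SPL) (a b : ℕ) :
    cn (gcls k) a * cn (Fr F) b ≤ cn (Fr F) (a + b) + cn (gcls k) a *
      Nat.card {G : SimpleGraph (Fin b) // Nat.card G.edgeSet ≤ k * b} := by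
  unfold cn
  rw [← Nat.card_prod, ← Nat.card_prod, ← Nat.card_sum]
  let f : {G : SimpleGraph (Fin a) // gcls k (Fin a) G} × {H : SimpleGraph (Fin b) //
      Fr F (Fin b) H} → {G : SimpleGraph (Fin (a + b)) // Fr F (Fin (a + b)) G} ⊕
      {G : SimpleGraph (Fin a) // gcls k (Fin a) G} ×
        {G : SimpleGraph (Fin b) // Nat.card G.edgeSet ≤ k * b} := fun p =>
    if h : ∀ i, (F i).Free (p.2.1 ⊕g p.1.1) then
      Sum.inl ⟨(p.2.1 ⊕g p.1.1).comap (e a b), free_comap F (e a b) _ h⟩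
    else Sum.inr (p.1, ⟨p.2.1, by
      obtain ⟨i, hi⟩ := not_forall.1 h
      have h2 := h1 (W i) (F i) k (hF i) (Fin b) (Fin a) p.2.1 p.1.1 p.1.2 (p.2.2 i) hi
      rwa [Nat.card_fin] at h2⟩)
  refine Nat.card_le_card_of_injective f ?_
  intro p q hpq
  by_cases hp : ∀ i, (F i).Free (p.2.1 ⊕g p.1.1)
  · by_cases hq : ∀ i, (F i).Free (q.2.1 ⊕g q.1.1)
    · simp only [f, dif_pos hp, dif_pos hq, Sum.inl.injEq] at hpq
      have hval : (p.2.1 ⊕g p.1.1).comap (e a b) = (q.2.1 ⊕g q.1.1).comap (e a b) :=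
        congrArg (fun G => G.1) hpq
      obtain ⟨h3, h4⟩ := sum_inj (comap_inj (e a b) hval)
      exact Prod.ext (Subtype.ext h4) (Subtype.ext h3)
    · simp only [f, dif_pos hp, dif_neg hq, reduceCtorEq] at hpq
  · by_cases hq : ∀ i, (F i).Free (q.2.1 ⊕g q.1.1)
    · simp only [f, dif_neg hp, dif_pos hq, reduceCtorEq] at hpq
    · simp only [f, dif_neg hp, dif_neg hq, Sum.inr.injEq, Prod.mk.injEq, Subtype.mk.injEq] at hpq
      exact Prod.ext hpq.1 (Subtype.ext hpq.2)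

theorem growth (k b : ℕ) (hb : 2 ^ (k + 1) ≤ b) :
    (((b ^ 2 + 1) ^ (k * b) : ℕ) : ℝ) ≤ (2 : ℝ) ^ (80 * (b : ℝ) * (Real.logb 2 b) ^ 3) := by
  have hb2 : 2 ≤ b := le_trans (by
    calc 2 = 2 ^ 1 := by norm_num
      _ ≤ 2 ^ (k + 1) := Nat.pow_le_pow_right (by norm_num) (by omega)) hb
  have hb0 : (0 : ℝ) < b := by exact_mod_cast (by omega : 0 < b)
  have h1 : b ^ 2 + 1 ≤ b ^ 3 := by
    have h0 : 2 * b ^ 2 ≤ b * b ^ 2 := Nat.mul_le_mul_right _ hb2
    have h00 : 1 ≤ b ^ 2 := Nat.one_le_pow _ _ (by omega)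
    calc b ^ 2 + 1 ≤ 2 * b ^ 2 := by omega
      _ ≤ b * b ^ 2 := h0
      _ = b ^ 3 := by ring
  have hL : ((k : ℝ) + 1) ≤ Real.logb 2 b := by
    rw [Real.le_logb_iff_rpow_le (by norm_num) hb0]
    have h5 : (2 : ℝ) ^ ((k : ℝ) + 1) = ((2 ^ (k + 1) : ℕ) : ℝ) := by
      have h6 : ((k : ℝ) + 1) = ((k + 1 : ℕ) : ℝ) := by push_cast; rfl
      rw [h6, Real.rpow_natCast]
      push_cast
      rfl
    rw [h5]
    exact_mod_cast hb
  set L := Real.logb 2 b with hLdef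
  have hk0 : (0 : ℝ) ≤ k := Nat.cast_nonneg k
  calc (((b ^ 2 + 1) ^ (k * b) : ℕ) : ℝ) ≤ (((b ^ 3) ^ (k * b) : ℕ) : ℝ) := by
        exact_mod_cast Nat.pow_le_pow_left h1 _
    _ = (b : ℝ) ^ ((3 * (k * b) : ℕ) : ℝ) := by
        rw [Real.rpow_natCast]
        push_cast
        rw [← pow_mul]
    _ = ((2 : ℝ) ^ L) ^ ((3 * (k * b) : ℕ) : ℝ) := by
        rw [hLdef, Real.rpow_logb (by norm_num) (by norm_num) hb0]
    _ = (2 : ℝ) ^ (L * ((3 * (k * b) : ℕ) : ℝ)) := by rw [← Real.rpow_mul (by norm_num)]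
    _ ≤ (2 : ℝ) ^ (80 * (b : ℝ) * L ^ 3) := by
        refine Real.rpow_le_rpow_of_exponent_le (by norm_num) ?_
        push_cast
        have h2 : 3 * (k : ℝ) ≤ 80 * L ^ 2 := by nlinarith
        have h3 : 0 ≤ L * b := mul_nonneg (by linarith) hb0.le
        nlinarith [mul_le_mul_of_nonneg_left h2 h3]

theorem one_le (k b : ℕ) : 1 ≤ cn (gcls k) b := by
  unfold cn
  rw [Nat.one_le_iff_ne_zero, Nat.card_ne_zero]
  refine ⟨⟨⟨⊥, ?_⟩⟩, inferInstance⟩
  show (k : ℕ∞) < (⊥ : SimpleGraph (Fin b)).egirth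
  rw [SimpleGraph.egirth_bot]
  exact ENat.natCast_lt_top k

end NEA_

/-- **NEA** -/
theorem p_NEA (h1 : T_SPL) (h2 : T_FEW) (h3 : T_GU) (h4 : T_UNI) : T_NEA := by
  intro ι W _ F k hF hbig
  obtain ⟨N, hN⟩ := hbig
  obtain ⟨hher, huni, -, hfree⟩ := h3 k
  have hmul := h4 (gcls k) hher (Or.inl fun V V' _ _ G H => huni V V' G H)
  set b₀ := max N (2 ^ (k + 1)) with hb₀
  set B₀ := (b₀ ^ 2 + 1) ^ (k * b₀) with hB₀
  have hB1 : 1 ≤ B₀ := Nat.one_le_pow _ _ (by positivity)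
  refine ⟨B₀ + 1, fun a b => ?_⟩
  have hsub : ∀ n : ℕ, cn (gcls k) n ≤ cn (Fr F) n := by
    intro n
    unfold cn
    refine Nat.card_le_card_of_injective (fun G => ⟨G.1, fun i =>
      hfree (W i) (Fin n) (F i) G.1 (hF i).1 (hF i).2 G.2⟩) ?_
    intro G H hGH
    exact Subtype.ext (congrArg (fun G => G.1) hGH)
  have hfew : (b ^ 2 + 1) ^ (k * b) ≤ B₀ * cn (gcls k) b := by
    by_cases hb : b₀ ≤ b
    · have h5 := NEA_.growth k b ((le_max_right _ _).trans hb)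
      have h6 : (((b ^ 2 + 1) ^ (k * b) : ℕ) : ℝ) ≤ (cn (gcls k) b : ℝ) :=
        h5.trans (hN b ((le_max_left _ _).trans hb))
      have h7 : (b ^ 2 + 1) ^ (k * b) ≤ cn (gcls k) b := by exact_mod_cast h6
      exact h7.trans (Nat.le_mul_of_pos_left _ hB1)
    · push Not at hb
      calc (b ^ 2 + 1) ^ (k * b) ≤ (b₀ ^ 2 + 1) ^ (k * b) :=
            Nat.pow_le_pow_left (by nlinarith) _
        _ ≤ B₀ := Nat.pow_le_pow_right (by positivity) (Nat.mul_le_mul_left k hb.le)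
        _ ≤ B₀ * cn (gcls k) b := Nat.le_mul_of_pos_right _ (NEA_.one_le k b)
  calc cn (gcls k) a * cn (Fr F) b
      ≤ cn (Fr F) (a + b) + cn (gcls k) a *
          Nat.card {G : SimpleGraph (Fin b) // Nat.card G.edgeSet ≤ k * b} :=
        NEA_.split F k (fun i => (hF i).1) h1 a b
    _ ≤ cn (Fr F) (a + b) + cn (gcls k) a * (b ^ 2 + 1) ^ (k * b) := by
        gcongr
        exact h2 b (k * b)
    _ ≤ cn (Fr F) (a + b) + cn (gcls k) a * (B₀ * cn (gcls k) b) := by gcongr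
    _ = cn (Fr F) (a + b) + B₀ * (cn (gcls k) a * cn (gcls k) b) := by ring
    _ ≤ cn (Fr F) (a + b) + B₀ * cn (gcls k) (a + b) := by
        gcongr
        exact hmul a b
    _ ≤ cn (Fr F) (a + b) + B₀ * cn (Fr F) (a + b) := by
        gcongr
        exact hsub (a + b)
    _ = (B₀ + 1) * cn (Fr F) (a + b) := by ring

end Pool.Agent.HER47
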