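import Pool.Agent.HER47.TargetsX

set_option autoImplicit false

namespace Pool.Agent.HER47

open Finset Classical

namespace SPL_

lemma cycle_le {W : Type} [Finite W] {F : SimpleGraph W} {a : W} (c : F.Walk a a)
    (hc : c.IsCycle) : c.length ≤ Nat.card W := by
  have : Fintype W := Fintype.ofFinite W
  have h1 : c.support.tail.Nodup := hc.support_nodup
  have h2 := h1.length_le_card
  rw [List.length_tail, SimpleGraph.Walk.length_support] at h2
  rw [Nat.card_eq_fintype_card]
  omega

lemma acyc {W V' : Type} [Finite W] (F : SimpleGraph W) (G₀ : SimpleGraph V') (k : ℕ)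
    (hk : Nat.card W ≤ k) (hg : (k : ℕ∞) < G₀.egirth) (f : F →g G₀)
    (hf : Function.Injective f) : F.IsAcyclic := by
  intro a c hc
  have h1 : (c.map f).IsCycle := hc.map hf
  have h2 := SimpleGraph.egirth_le_length h1
  rw [SimpleGraph.Walk.length_map] at h2
  have h3 := cycle_le c hc
  have h4 : G₀.egirth ≤ (k : ℕ∞) := h2.trans (by exact_mod_cast h3.trans hk)
  exact absurd hg (not_lt.mpr h4)

lemma edges_le {V : Type} [Finite V] (G : SimpleGraph V) (S : Set V) :
    Nat.card G.edgeSet ≤
      Nat.card (G.comap (Function.Embedding.subtype (fun w => w ∉ S))).edgeSet +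
        S.ncard * Nat.card V := by
  have hsub : G.edgeSet ⊆ (Sym2.map (Subtype.val : {w : V // w ∉ S} → V) ''
      (G.comap (Function.Embedding.subtype (fun w => w ∉ S))).edgeSet) ∪
      ((fun p : V × V => s(p.1, p.2)) '' (S ×ˢ Set.univ)) := by
    intro e he
    induction e using Sym2.ind with
    | _ a b =>
      rw [SimpleGraph.mem_edgeSet] at he
      by_cases ha : a ∈ S
      · exact Or.inr ⟨(a, b), ⟨ha, Set.mem_univ _⟩, rfl⟩
      · by_cases hb : b ∈ S
        · exact Or.inr ⟨(b, a), ⟨hb, Set.mem_univ _⟩, Sym2.eq_swap⟩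
        · refine Or.inl ⟨s(⟨a, ha⟩, ⟨b, hb⟩), ?_, rfl⟩
          rw [SimpleGraph.mem_edgeSet]
          exact he
  have h1 := (Set.ncard_le_ncard hsub (Set.toFinite _)).trans (Set.ncard_union_le _ _)
  have h2 := Set.ncard_image_le (f := Sym2.map (Subtype.val : {w : V // w ∉ S} → V))
    (Set.toFinite (G.comap (Function.Embedding.subtype (fun w => w ∉ S))).edgeSet)
  have h3 := Set.ncard_image_le (f := fun p : V × V => s(p.1, p.2))
    (Set.toFinite (S ×ˢ (Set.univ : Set V)))
  rw [Set.ncard_prod, Set.ncard_univ] at h3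
  have h4 : G.edgeSet.ncard = Nat.card G.edgeSet := rfl
  have h5 : (G.comap (Function.Embedding.subtype (fun w => w ∉ S))).edgeSet.ncard =
    Nat.card (G.comap (Function.Embedding.subtype (fun w => w ∉ S))).edgeSet := rfl
  omega

end SPL_

open SPL_ in
theorem p_SPL (h : T_FOR) : T_SPL := by
  intro W _ H k hk V V' _ G' G₀ hg hfree hnf
  obtain ⟨φ⟩ := not_not.mp hnf
  -- the two sides
  have hA : ∀ w : {w : W // ¬ (φ w).isRight = true}, ∃ v : V, φ w.1 = Sum.inl v := by
    rintro ⟨w, hw⟩
    rcases hφ : φ w with v | v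
    · exact ⟨v, rfl⟩
    · exact absurd (by rw [hφ]; rfl) hw
  have hB : ∀ w : {w : W // (φ w).isRight = true}, ∃ v : V', φ w.1 = Sum.inr v := by
    rintro ⟨w, hw⟩
    rcases hφ : φ w with v | v
    · rw [hφ] at hw
      exact absurd hw (by simp)
    · exact ⟨v, rfl⟩
  choose fA hfA using hA
  choose fB hfB using hB
  have hfAi : Function.Injective fA := by
    intro a b hab
    apply Subtype.ext
    apply φ.injective
    change φ a.1 = φ b.1
    rw [hfA a, hfA b, hab]
  have hfBi : Function.Injective fB := by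
    intro a b hab
    apply Subtype.ext
    apply φ.injective
    change φ a.1 = φ b.1
    rw [hfB a, hfB b, hab]
  set HB := H.comap (Function.Embedding.subtype (fun w => (φ w).isRight = true)) with hHB
  have hcardB : Nat.card {w : W // (φ w).isRight = true} ≤ Nat.card W :=
    Nat.card_le_card_of_injective _ Subtype.val_injective
  have hac : HB.IsAcyclic := by
    refine acyc HB G₀ k (hcardB.trans hk) hg ⟨fB, fun {a b} hab => ?_⟩ hfBi
    have h1 : (G' ⊕g G₀).Adj (φ a.1) (φ b.1) := φ.toHom.map_adj hab
    rw [hfB a, hfB b] at h1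
    exact h1
  set S : Set V := Set.range fA with hS
  have hSc : S.ncard = Nat.card {w : W // ¬ (φ w).isRight = true} := by
    rw [hS, ← Set.image_univ, Set.ncard_image_of_injective _ hfAi, Set.ncard_univ]
  have hfreeB : HB.Free (G'.comap (Function.Embedding.subtype (fun w => w ∉ S))) := by
    rintro ⟨ψ⟩
    refine hfree ⟨⟨⟨fun w => if hw : (φ w).isRight = true then (ψ ⟨w, hw⟩).1 else fA ⟨w, hw⟩,
      fun {a b} hab => ?_⟩, fun a b hab => ?_⟩⟩
    · have h1 : (G' ⊕g G₀).Adj (φ a) (φ b) := φ.toHom.map_adj hab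
      by_cases ha : (φ a).isRight = true <;> by_cases hb : (φ b).isRight = true
      · simp only [ha, hb, dif_pos]
        exact ψ.toHom.map_adj (show HB.Adj ⟨a, ha⟩ ⟨b, hb⟩ from hab)
      · have e1 := hfB ⟨a, ha⟩
        have e2 := hfA ⟨b, hb⟩
        simp only at e1 e2
        rw [e1, e2] at h1
        exact absurd h1 (by simp [SimpleGraph.sum])
      · have e1 := hfA ⟨a, ha⟩
        have e2 := hfB ⟨b, hb⟩
        simp only at e1 e2
        rw [e1, e2] at h1
        exact absurd h1 (by simp [SimpleGraph.sum])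
      · have e1 := hfA ⟨a, ha⟩
        have e2 := hfA ⟨b, hb⟩
        simp only at e1 e2
        rw [e1, e2] at h1
        simp only [ha, hb, dif_neg, not_false_eq_true, Bool.false_eq_true]
        exact h1
    · by_cases ha : (φ a).isRight = true <;> by_cases hb : (φ b).isRight = true
      · simp only [RelHom.coeFn_mk, ha, hb, dif_pos] at hab
        exact congrArg Subtype.val (ψ.injective (Subtype.ext hab))
      · simp only [RelHom.coeFn_mk, ha, hb, dif_pos, dif_neg, not_false_eq_true,
          Bool.false_eq_true] at hab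
        exact absurd ⟨_, hab.symm⟩ (ψ ⟨a, ha⟩).2
      · simp only [RelHom.coeFn_mk, ha, hb, dif_pos, dif_neg, not_false_eq_true,
          Bool.false_eq_true] at hab
        exact absurd ⟨_, hab⟩ (ψ ⟨b, hb⟩).2
      · simp only [RelHom.coeFn_mk, ha, hb, dif_neg, not_false_eq_true,
          Bool.false_eq_true] at hab
        exact congrArg Subtype.val (hfAi hab)
  have h1 := h _ HB hac _ _ hfreeB
  have h2 := edges_le G' S
  have h3 : Nat.card {w : V // w ∉ S} ≤ Nat.card V :=
    Nat.card_le_card_of_injective _ Subtype.val_injective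
  have h4 : Nat.card {w : W // (φ w).isRight = true} +
      Nat.card {w : W // ¬ (φ w).isRight = true} = Nat.card W := by
    rw [← Nat.card_sum]
    exact Nat.card_congr (Equiv.sumCompl (fun w : W => (φ w).isRight = true))
  rw [hSc] at h2
  calc Nat.card G'.edgeSet ≤ _ := h2
    _ ≤ Nat.card {w : W // (φ w).isRight = true} * Nat.card V +
        Nat.card {w : W // ¬ (φ w).isRight = true} * Nat.card V :=
      Nat.add_le_add_right (h1.trans (Nat.mul_le_mul_left _ h3)) _
    _ = Nat.card W * Nat.card V := by rw [← Nat.add_mul, h4]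
    _ ≤ k * Nat.card V := Nat.mul_le_mul_right _ hk

end Pool.Agent.HER47
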