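import Pool.Agent.HER47.TargetsX

set_option autoImplicit false

namespace Pool.Agent.HER47

open Finset Classical

namespace SUG_

lemma pow_ge (l : ℕ) (hl : 16 ≤ l) : 256 * l ^ 2 ≤ 2 ^ l := by
  induction l, hl using Nat.le_induction with
  | base => norm_num
  | succ l hl ih =>
    rw [pow_succ 2 l]
    nlinarith

lemma lt_mul (n r : ℕ) (hl : 16 ≤ lg n) (hr : n / (8 * lg n) + 1 ≤ r) : n < 8 * lg n * r :=
  (Nat.lt_mul_div_succ n (show 0 < 8 * lg n by omega)).trans_le (Nat.mul_le_mul_left _ hr)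

lemma r_sq (n r : ℕ) (hn : n ≠ 0) (hl : 16 ≤ lg n) (hr : n / (8 * lg n) + 1 ≤ r) :
    2 ^ lg n ≤ r ^ 2 := by
  have h1 : 2 ^ lg n ≤ 2 * n := by
    rw [lg, pow_succ, mul_comm]
    exact Nat.mul_le_mul_left _ (Nat.pow_log_le_self 2 hn)
  have h2 := lt_mul n r hl hr
  have h3 := pow_ge _ hl
  have h4 : 2 ^ lg n ≤ 16 * lg n * r := by
    calc 2 ^ lg n ≤ 2 * n := h1
      _ ≤ 2 * (8 * lg n * r) := by omega
      _ = _ := by ring
  have h5 : (2 ^ lg n) * 2 ^ lg n ≤ 2 ^ lg n * r ^ 2 := by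
    calc (2 ^ lg n) * 2 ^ lg n ≤ (16 * lg n * r) * (16 * lg n * r) := Nat.mul_le_mul h4 h4
      _ = (256 * lg n ^ 2) * r ^ 2 := by ring
      _ ≤ _ := Nat.mul_le_mul_right _ h3
  exact Nat.le_of_mul_le_mul_left h5 (by positivity)

lemma big (C : Cls) (l r : ℕ) (hr : 2 ^ l ≤ r ^ 2) (hB : Big C r) :
    2 ^ (10 * l ^ 3 * r) ≤ cn C r := by
  have hr0 : 0 < r := by
    rcases Nat.eq_zero_or_pos r with h | h
    · subst h
      have : 0 < 2 ^ l := by positivity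
      omega
    · exact h
  have h1 : (l : ℝ) / 2 ≤ Real.logb 2 r := by
    have h2 : (l : ℝ) ≤ Real.logb 2 ((r : ℝ) ^ 2) := by
      rw [Real.le_logb_iff_rpow_le (by norm_num) (by positivity), Real.rpow_natCast]
      exact_mod_cast hr
    rw [Real.logb_pow] at h2
    push_cast at h2
    linarith
  have h3 : (10 * (l : ℝ) ^ 3 * r) ≤ 80 * (r : ℝ) * (Real.logb 2 r) ^ 3 := by
    have h4 : ((l : ℝ) / 2) ^ 3 ≤ (Real.logb 2 r) ^ 3 := pow_le_pow_left₀ (by positivity) h1 3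
    have h5 : (0 : ℝ) < r := by exact_mod_cast hr0
    nlinarith
  have h6 : (2 : ℝ) ^ (10 * (l : ℝ) ^ 3 * r) ≤ (cn C r : ℝ) :=
    (Real.rpow_le_rpow_of_exponent_le (by norm_num) h3).trans hB
  have h7 : (2 : ℝ) ^ (10 * (l : ℝ) ^ 3 * r) = ((2 ^ (10 * l ^ 3 * r) : ℕ) : ℝ) := by
    rw [show (10 * (l : ℝ) ^ 3 * r) = ((10 * l ^ 3 * r : ℕ) : ℝ) by push_cast; ring,
      Real.rpow_natCast]
    norm_num
  rw [h7] at h6
  exact_mod_cast h6

end SUG_

open SUG_ in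
theorem p_SUG (h : T_ALL) : T_SUG := by
  intro C D B hC hsup hbig
  obtain ⟨n₀, hall⟩ := h
  obtain ⟨N, hN⟩ := hbig
  refine ⟨max (max n₀ (N ^ 2)) (max (2 ^ 16) B), fun n hn => ?_⟩
  have hn0 : n₀ ≤ n := (le_max_left _ _).trans ((le_max_left _ _).trans hn)
  have hnN : N ^ 2 ≤ n := (le_max_right _ _).trans ((le_max_left _ _).trans hn)
  have hn1 : 2 ^ 16 ≤ n := (le_max_left _ _).trans ((le_max_right _ _).trans hn)
  have hnB : B ≤ n := (le_max_right _ _).trans ((le_max_right _ _).trans hn)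
  have hnp : n ≠ 0 := by omega
  have hlg : 16 ≤ lg n := by
    have := Nat.log_mono_right (b := 2) hn1
    rw [Nat.log_pow (by norm_num)] at this
    unfold lg
    omega
  have hlt : n < 2 ^ lg n := Nat.lt_pow_succ_log_self (by norm_num) n
  set l := lg n with hl
  set r₀ := n / (8 * l) + 1 with hr₀
  have hterm : ∀ r ∈ Icc r₀ n, 2 ^ (9 * l ^ 3 * r) * cn C (n - r) * 2 ^ (l ^ 3 * r₀) ≤
      B * cn C n := by
    intro r hr
    rw [mem_Icc] at hr
    have h1 : 2 ^ l ≤ r ^ 2 := r_sq n r hnp hlg hr.1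
    have h2 : N ≤ r := by
      by_contra hc
      push Not at hc
      have : r ^ 2 ≤ N ^ 2 := Nat.pow_le_pow_left hc.le 2
      omega
    have h3 := big D l r h1 (hN r h2)
    calc 2 ^ (9 * l ^ 3 * r) * cn C (n - r) * 2 ^ (l ^ 3 * r₀)
        ≤ 2 ^ (9 * l ^ 3 * r) * cn C (n - r) * 2 ^ (l ^ 3 * r) :=
          Nat.mul_le_mul_left _ (Nat.pow_le_pow_right (by norm_num)
            (Nat.mul_le_mul_left _ hr.1))
      _ = 2 ^ (10 * l ^ 3 * r) * cn C (n - r) := by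
          rw [show 10 * l ^ 3 * r = 9 * l ^ 3 * r + l ^ 3 * r by ring, pow_add]
          ring
      _ ≤ cn D r * cn C (n - r) := Nat.mul_le_mul_right _ h3
      _ ≤ B * cn C (r + (n - r)) := hsup _ _
      _ = B * cn C n := by rw [Nat.add_sub_cancel' hr.2]
  have hsum : bn C n * 2 ^ (l ^ 3 * r₀) ≤ n * (B * cn C n) := by
    calc bn C n * 2 ^ (l ^ 3 * r₀)
        ≤ (∑ r ∈ Icc r₀ n, 2 ^ (9 * l ^ 3 * r) * cn C (n - r)) * 2 ^ (l ^ 3 * r₀) :=
          Nat.mul_le_mul_right _ (hall C hC n hn0)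
      _ = ∑ r ∈ Icc r₀ n, 2 ^ (9 * l ^ 3 * r) * cn C (n - r) * 2 ^ (l ^ 3 * r₀) := by
          rw [Finset.sum_mul]
      _ ≤ ∑ r ∈ Icc r₀ n, B * cn C n := Finset.sum_le_sum hterm
      _ = (n + 1 - r₀) * (B * cn C n) := by
          rw [Finset.sum_const, Nat.card_Icc, smul_eq_mul]
      _ ≤ n * (B * cn C n) := Nat.mul_le_mul_right _ (by
          have hr1 : 1 ≤ r₀ := by rw [hr₀]; exact Nat.le_add_left 1 _
          omega)
  have hpow : n * (n * n ^ n) ≤ 2 ^ (l ^ 3 * r₀) := by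
    have h1 : n + 2 ≤ l ^ 2 * r₀ := by
      have h2 : n < 8 * l * r₀ := lt_mul n r₀ hlg le_rfl
      have h3 : 2 * (8 * l * r₀) ≤ l ^ 2 * r₀ := by
        calc 2 * (8 * l * r₀) = (16 * l) * r₀ := by ring
          _ ≤ l ^ 2 * r₀ := Nat.mul_le_mul_right _ (by nlinarith)
      omega
    calc n * (n * n ^ n) = n ^ (n + 2) := by rw [pow_add]; ring
      _ ≤ (2 ^ l) ^ (n + 2) := Nat.pow_le_pow_left hlt.le _
      _ = 2 ^ (l * (n + 2)) := by rw [← pow_mul]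
      _ ≤ 2 ^ (l ^ 3 * r₀) := Nat.pow_le_pow_right (by norm_num) (by
          calc l * (n + 2) ≤ l * (l ^ 2 * r₀) := Nat.mul_le_mul_left _ h1
            _ = l ^ 3 * r₀ := by ring)
  have hfin : (n * n) * (n ^ n * bn C n) ≤ (n * n) * cn C n := by
    calc (n * n) * (n ^ n * bn C n) = bn C n * (n * (n * n ^ n)) := by ring
      _ ≤ bn C n * 2 ^ (l ^ 3 * r₀) := Nat.mul_le_mul_left _ hpow
      _ ≤ n * (B * cn C n) := hsum
      _ ≤ n * (n * cn C n) := Nat.mul_le_mul_left _ (Nat.mul_le_mul_right _ hnB)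
      _ = (n * n) * cn C n := by ring
  exact Nat.le_of_mul_le_mul_left hfin (by positivity)

end Pool.Agent.HER47
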