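import Pool.Agent.HER47.FinalV
import Pool.Agent.HER47.AsmX
import Pool.Agent.HER47.P_EMB
import Pool.Agent.HER47.P_FOR
import Pool.Agent.HER47.P_SPL
import Pool.Agent.HER47.P_FEW
import Pool.Agent.HER47.P_GU
import Pool.Agent.HER47.P_NEA
import Pool.Agent.HER47.P_SUG

/-!
# Theorem H: final theorem, part X
-/

set_option autoImplicit false

namespace Pool.Agent.HER47

open Finset Classical

/-- Graphs without a subgraph in a finite family of graphs which are not forests. -/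
theorem final_fr (ι : Type) (W : ι → Type) [∀ i, Finite (W i)] (F : ∀ i, SimpleGraph (W i))
    (k : ℕ) (hF : ∀ i, Nat.card (W i) ≤ k ∧ ¬ (F i).IsAcyclic) :
    ∃ N : ℕ, ∀ n : ℕ, N ≤ n → n ^ n * bn (Fr F) n ≤ cn (Fr F) n :=
  main_fr (p_SUG all_) (p_NEA (p_SPL (p_FOR p_EMB)) p_FEW p_GU p_UNI) p_GU (p_GIR p_GRE) p_MONO
    ι W F k hF

end Pool.Agent.HER47
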