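import Pool.Agent.HER47.Base

/-!
# Theorem H (MP_552896_co): almost all members of hereditary classes are reconstructible

Targets `T_X`, each to be proved in its own file `Pool/Agent/HER47/P_X.lean` as
`theorem p_X ... : T_X`. `structure_nonrec` (Base.lean) is proved. See `ideas` row 5003.
-/

set_option autoImplicit false

namespace Pool.Agent.HER47

open Finset Classical

/-- A class of graphs. -/
abbrev Cls := ∀ V : Type, SimpleGraph V → Prop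

/-- `C` is closed under isomorphisms and induced subgraphs (of finite graphs). -/
def Her (C : Cls) : Prop := ∀ (V W : Type) [Finite W] (f : V ↪ W) (G : SimpleGraph W),
  C W G → C V (G.comap f)

/-- The number of members of `C` on `{0, ..., n-1}`. -/
noncomputable def cn (C : Cls) (n : ℕ) : ℕ := Nat.card {G : SimpleGraph (Fin n) // C (Fin n) G}

/-- The number of non-reconstructible members of `C` on `{0, ..., n-1}`. -/
noncomputable def bn (C : Cls) (n : ℕ) : ℕ :=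
  Nat.card {G : SimpleGraph (Fin n) // C (Fin n) G ∧ ¬ Rec G}

/-- `n < 2 ^ lg n`, `2 ^ (lg n - 1) ≤ n` for `n ≥ 1`. -/
def lg (n : ℕ) : ℕ := Nat.log 2 n + 1

/-- `C` has many members on `n` vertices. -/
def Big (C : Cls) (n : ℕ) : Prop :=
  (2 : ℝ) ^ (80 * (n : ℝ) * (Real.logb 2 n) ^ 3) ≤ (cn C n : ℝ)

/-- **CODE** (40 min). For a graph `G` with `Dom K G M` choose for every `v ∉ M` a vertex `m v ∈ M`
with `(ds G v (m v)).card < K`, the bit `b v = G.Adj v (m v)` and `Z v = ds G v (m v)`. The map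
`G ↦ (G.comap e, (m v, b v, Z v)_{v ∉ M})` is injective, `e : Fin M.card ↪ Fin n` a fixed embedding
with range `M` (for example `M.orderEmbOfFin rfl`; `G.comap e` is in `C` by `Her`): for `v ∉ M` and
`w ∈ M`: if `w = m v` then `G.Adj v w ↔ b v`, else `G.Adj v w ↔ (G.Adj (m v) w xor w ∈ Z v)`; for
`v, v' ∉ M`, `v ≠ v'`: `G.Adj v v' ↔ (G.Adj (m v) v' xor v' ∈ Z v)` (`v' ≠ m v`), and
`G.Adj v' (m v)` is known. There are at most `(n + 1) ^ K` sets `Z` with fewer than `K`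
elements (images of functions `Fin K → Option (Fin n)`, or `Σ_{i < K} (n choose i)`). -/
def T_CODE : Prop := ∀ C : Cls, Her C → ∀ (n K : ℕ) (M : Finset (Fin n)),
  Nat.card {G : SimpleGraph (Fin n) // C (Fin n) G ∧ Dom K G M} ≤
    cn C M.card * (2 * n * (n + 1) ^ K) ^ (n - M.card)

/-- **SUM** (30 min; uses CODE as a hypothesis `T_CODE`). By `Base_.structure_nonrec` every
non-reconstructible `G` has `Dom K G M` for some `M` with `r₀ ≤ Mᶜ.card`; union bound over `M`,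
grouped by `r = Mᶜ.card`: there are `n choose r ≤ n ^ r` sets `M`, each with at most
`cn C (n - r) * (2 * n * (n + 1) ^ K) ^ r` graphs, and `n * (2 * n) ≤ (n + 1) ^ 3`. -/
def T_SUM : Prop := ∀ C : Cls, Her C → ∀ n K t r₀ : ℕ, 0 < n →
  n ^ 2 * (n - K) ^ t ≤ n ^ t → 4 * n ^ (2 * (t + r₀)) < 2 ^ (n - (t + r₀)) →
  bn C n ≤ ∑ r ∈ Icc r₀ n, (n + 1) ^ ((K + 3) * r) * cn C (n - r)

/-- **ALL** (40 min; uses SUM as a hypothesis `T_SUM`). Put `l = lg n`, `K = 8 l ^ 2`,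
`t = n / (4 l) + 1`, `r₀ = n / (8 l) + 1`. First condition of SUM: if `K ≥ n` the left side is `0`
(`t ≥ 1`); otherwise `(1 - K / n) ^ t ≤ exp (- K t / n) ≤ exp (-2 l)` (`t ≥ n / (4 l)` as reals) and
`n ^ 2 ≤ 2 ^ (2 l) ≤ exp (2 l)`. Second condition: `n ≤ 2 ^ l`, so it suffices that
`2 + 2 l (t + r₀) + (t + r₀) < n`; `t + r₀ ≤ 3 n / (8 l) + 2`, so the left side is at most
`3 n / 4 + 3 n / (8 l) + 4 l + 4 ≤ 7 n / 8 + 4 l + 4` (`l ≥ 3`) `< n` if `32 (l + 1) < n`, true for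
`n ≥ 1024`. Finally `(n + 1) ^ ((K + 3) r) ≤ 2 ^ (l (8 l ^ 2 + 3) r) ≤ 2 ^ (9 l ^ 3 r)`. -/
def T_ALL : Prop := ∃ n₀ : ℕ, ∀ C : Cls, Her C → ∀ n : ℕ, n₀ ≤ n →
  bn C n ≤ ∑ r ∈ Icc (n / (8 * lg n) + 1) n, 2 ^ (9 * lg n ^ 3 * r) * cn C (n - r)

/-- **SUP** (45 min; uses ALL as a hypothesis `T_ALL`). Let `n` be large, `l = lg n`,
`r₀ = n / (8 l) + 1`, so `8 l r₀ ≥ n`. For `r ≥ r₀`: `r ≥ n / (8 l) ≥ 2 ^ (l / 2)` (as
`n ≥ 2 ^ (l - 1)` and `l` is large), so `logb 2 r ≥ l / 2`, `80 (logb 2 r) ^ 3 ≥ 10 l ^ 3`, and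
`Big C r` gives `2 ^ (10 l ^ 3 r) ≤ cn C r` (`r ≥ r₀ ≥ N` for large `n`). Hence
`2 ^ (9 l ^ 3 r) * cn C (n - r) * 2 ^ (l ^ 3 r₀) ≤ cn C r * cn C (n - r) ≤ cn C n`. Sum over the at
most `n` values of `r`: `bn C n * 2 ^ (l ^ 3 r₀) ≤ n * cn C n`; and `n ^ n * n ≤ 2 ^ (l (n + 1)) ≤
2 ^ (l ^ 3 r₀)` as `l ^ 3 r₀ ≥ l ^ 2 n / 8 ≥ l (n + 1)` for `l ≥ 9`, `n ≥ 8`. -/
def T_SUP : Prop := ∀ C : Cls, Her C → (∀ a b : ℕ, cn C a * cn C b ≤ cn C (a + b)) →
  (∃ N : ℕ, ∀ n : ℕ, N ≤ n → Big C n) → ∃ N : ℕ, ∀ n : ℕ, N ≤ n → n ^ n * bn C n ≤ cn C n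

/-- **INF** (60 min; uses ALL as a hypothesis `T_ALL`). Otherwise `cn C m < m ^ m * bn C m` for all
`m ≥ N₁` (`N₁ ≥ n₀`, `N₁ ≥ 1024`). Let `D = 1 + Σ_{m ≤ N₁} cn C m`. Claim: `cn C m ≤
D * 2 ^ (10 * lg n ^ 3 * m)` for all `m ≤ n` (strong induction on `m`): clear if `m ≤ N₁`;
otherwise `cn C m ≤ m ^ m * Σ_{r ≥ r₀} 2 ^ (9 * lg m ^ 3 * r) * D * 2 ^ (10 * lg n ^ 3 * (m - r))`,
`r₀ = m / (8 lg m) + 1`, each term of the sum is at most `D * 2 ^ (10 lg n ^ 3 m) / 2 ^ (lg m ^ 3 r₀)`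
(`lg m ≤ lg n`, `r ≥ r₀`), there are at most `m` terms and `m ^ m * m ≤ 2 ^ (lg m (m + 1)) ≤
2 ^ (lg m ^ 3 r₀)` (`8 lg m r₀ ≥ m`, `lg m ≥ 9`). For `m = n` this contradicts `Big C n` for large
`n`: `80 (logb 2 n) ^ 3 ≥ 80 (lg n - 1) ^ 3 ≥ 11 lg n ^ 3` (`lg n ≥ 3`) and `2 ^ (lg n ^ 3 n) > D`. -/
def T_INF : Prop := ∀ C : Cls, Her C → (∀ N : ℕ, ∃ n : ℕ, N ≤ n ∧ Big C n) →
  ∀ N : ℕ, ∃ n : ℕ, N ≤ n ∧ n ^ n * bn C n ≤ cn C n

/-- **UNI** (40 min). Injection `(G, H) ↦ (G ⊕g H).comap finSumFinEquiv.symm` (respectively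
`((Gᶜ ⊕g Hᶜ)ᶜ).comap finSumFinEquiv.symm`) of the pairs of members on `Fin a`, `Fin b` into the members
on `Fin (a + b)`; `Her` for the equivalence. `(Gᶜ ⊕g Hᶜ)ᶜ` is the join. -/
def T_UNI : Prop := ∀ C : Cls, Her C →
  ((∀ (V W : Type) [Finite V] [Finite W] (G : SimpleGraph V) (H : SimpleGraph W),
      C V G → C W H → C (V ⊕ W) (G ⊕g H)) ∨
    (∀ (V W : Type) [Finite V] [Finite W] (G : SimpleGraph V) (H : SimpleGraph W),
      C V G → C W H → C (V ⊕ W) ((Gᶜ ⊕g Hᶜ)ᶜ))) →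
  ∀ a b : ℕ, cn C a * cn C b ≤ cn C (a + b)

/-- **GRE** (60 min). A graph with `girth > k`, all degrees at most `d`, and with the largest
number of edges (`Finset.exists_max_image`; the empty graph qualifies). Let `S` be the set of the
vertices of degree `< d`. If `S` is empty all degrees are `d` and `2 e = d n`. Otherwise let
`u ∈ S`. For `v ∈ S`, `v ≠ u`, not adjacent to `u`, the graph `G + uv` has degrees `≤ d` and
more edges, so it has a cycle of length `≤ k`, which uses the edge `uv` (otherwise it is a cycle of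
`G`): rotate it to `u` (`Walk.IsCycle.rotate`), it is `cons h p`, `p` a path from `w` to `u`
(`Walk.cons_isCycle_iff`); if `w = v` then `p` is a walk of `G` from `v` to `u`; otherwise `uv` is
the last edge of `p` (`Walk.IsPath.eq_penultimate_of_mem_edges`) and `cons h p.dropLast` is a walk of
`G` from `u` to `v`. So `v` is reached from `u` by a walk of `G` of length `≤ k - 1`. The vertices
reached by walks of length `≤ j` are at most `(d + 1) ^ j` (induction on `j`), so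
`|S| ≤ (d + 1) ^ k` (adjacent vertices: length `1 ≤ k`). Sum of the degrees: `2 e ≥ d (n - |S|)`. -/
def T_GRE : Prop := ∀ k d n : ℕ, 1 ≤ k → ∃ G : SimpleGraph (Fin n), (k : ℕ∞) < G.egirth ∧
  d * n ≤ 2 * Nat.card G.edgeSet + d * (d + 1) ^ k

/-- **GIR** (40 min; uses GRE as a hypothesis `T_GRE`). Use GRE with `k`, `d = 320 * lg n ^ 3`. For
large `n`, `2 * (320 * lg n ^ 3 + 1) ^ k ≤ n` (polynomials in `log n` are `o(n)`), so `2 e ≥ d n / 2`,
`e ≥ 80 n lg n ^ 3 ≥ 80 n (logb 2 n) ^ 3`. -/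
def T_GIR : Prop := ∀ k : ℕ, 1 ≤ k → ∃ n₀ : ℕ, ∀ n : ℕ, n₀ ≤ n → ∃ G : SimpleGraph (Fin n),
  (k : ℕ∞) < G.egirth ∧ 80 * (n : ℝ) * (Real.logb 2 n) ^ 3 ≤ (Nat.card G.edgeSet : ℝ)

/-- **MONO** (20 min). The subgraphs of `G` correspond to the subsets of its edge set
(`SimpleGraph.fromEdgeSet`). -/
def T_MONO : Prop := ∀ C : Cls,
  (∀ (n : ℕ) (G H : SimpleGraph (Fin n)), G ≤ H → C (Fin n) H → C (Fin n) G) →
  ∀ (n : ℕ) (G : SimpleGraph (Fin n)), C (Fin n) G → 2 ^ Nat.card G.edgeSet ≤ cn C n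

/-- **FREE** (45 min). Graphs without a subgraph `F i` (not necessarily induced). (1) Hereditary: a
copy in `G.comap f` gives one in `G`. (2) Closed under disjoint unions: `F i` is connected, so the
side (`Sum.isLeft`) of the image of a vertex under a copy of `F i` in `G ⊕g H` is constant; the
copy is then a copy in `G` or in `H`. (3) Monotone: `Copy` composed with `G ≤ H`. (4) If every `F i`
has a cycle of length `≤ k` then so has every graph which contains `F i`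
(`SimpleGraph.exists_egirth_eq_length`, `Walk.map_isCycle_iff_of_injective`). -/
def T_FREE : Prop := ∀ (ι : Type) (W : ι → Type) (F : ∀ i, SimpleGraph (W i)) (k : ℕ),
  (∀ i, (F i).Connected ∧ (F i).egirth ≤ k) →
  Her (fun _ G => ∀ i, (F i).Free G) ∧
  (∀ (V V' : Type) (G : SimpleGraph V) (H : SimpleGraph V'), (∀ i, (F i).Free G) →
    (∀ i, (F i).Free H) → ∀ i, (F i).Free (G ⊕g H)) ∧
  (∀ (V : Type) (G H : SimpleGraph V), G ≤ H → (∀ i, (F i).Free H) → ∀ i, (F i).Free G) ∧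
  ∀ (V : Type) (G : SimpleGraph V), (k : ℕ∞) < G.egirth → ∀ i, (F i).Free G

end Pool.Agent.HER47
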