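import Pool.Agent.HER47.Targets

/-!
# Theorem H, part V: hereditary classes with `2 ^ (δ n ^ 2)` members

Such a class contains all bipartite graphs, or all complements of bipartite graphs, or all split
graphs on every number of vertices (Alekseev, Bollobás–Thomason); proof by the VC dimension of the
neighbourhoods. Targets `T_X`, each in its own file `Pool/Agent/HER47/P_X.lean`.
-/

set_option autoImplicit false

namespace Pool.Agent.HER47

open Finset Classical

/-- `S` is shattered by the neighbourhoods of `G`. -/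
def Shat {V : Type} (G : SimpleGraph V) (S : Finset V) : Prop :=
  ∀ T : Finset V, T ⊆ S → ∃ v : V, ∀ s ∈ S, (G.Adj v s ↔ s ∈ T)

/-- `G` contains all bipartite, or all co-bipartite, or all split graphs on `n` vertices. -/
def Univ (n : ℕ) {V : Type} (G : SimpleGraph V) : Prop :=
  (∀ B : SimpleGraph (Fin n), B.Colorable 2 → ∃ f : Fin n ↪ V, G.comap f = B) ∨
  (∀ B : SimpleGraph (Fin n), Bᶜ.Colorable 2 → ∃ f : Fin n ↪ V, G.comap f = B) ∨
  (∀ B : SimpleGraph (Fin n), (∃ s : Set (Fin n), B.IsClique s ∧ B.IsIndepSet sᶜ) →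
    ∃ f : Fin n ↪ V, G.comap f = B)

/-- **RAM** (30 min). Ramsey: induction on `a + b`, `R (a+1) (b+1) ≤ R a (b+1) + R (a+1) b`
(take a vertex of `S` and its neighbours, respectively non-neighbours, in `S`). -/
def T_RAM : Prop := ∀ a b : ℕ, ∃ R : ℕ, ∀ (V : Type) (G : SimpleGraph V) (S : Finset V),
  R ≤ S.card → (∃ T ⊆ S, T.card = a ∧ ∀ x ∈ T, ∀ y ∈ T, x ≠ y → G.Adj x y) ∨
    (∃ T ⊆ S, T.card = b ∧ ∀ x ∈ T, ∀ y ∈ T, x ≠ y → ¬ G.Adj x y)

/-- **SHA** (60 min; uses RAM as a hypothesis `T_RAM`). Let `R₀` be the Ramsey number for `(n, n)`,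
`M = 2 ^ R₀ (n + 2)`, `d` the Ramsey number for `(M, M)`. The shattered set `S` contains a
homogeneous `T` with `|T| = M`; number it by a bijection `col` from
`Finset (Fin R₀) × Fin (n + 2)`. For `r : Fin R₀` let `v r` be a vertex with
`∀ s ∈ S, (G.Adj (v r) s ↔ s ∈ T r)`, `T r = {col (P, c) | r ∈ P}`. The `v r` are different
(`col ({r}, 0)`), and not in `T`: if `v r ∈ T` and `T` is a clique then `v r` is adjacent to one of
the two vertices `col (∅, 0)`, `col (∅, 1)`; if `T` is independent then `v r` is not adjacent to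
`col (univ, 0)`; both contradict the choice of `v r`. Among the `v r` there are `n` homogeneous
ones, `v (ρ j)`, `ρ : Fin n → Fin R₀` injective. Given `B` and `χ : Fin n → Bool` map `i` to
`v (ρ i)` if `χ i = false` and to `col ({ρ j | χ j = false, B.Adj i j}, i)` if `χ i = true`: this
is injective and gives the right adjacencies between the two colour classes. Inside the classes
they are right if: both homogeneous sets are independent and `χ` is a colouring of `B`; both are
cliques and `χ` is a colouring of `Bᶜ`; `T` is a clique, the rows are independent and `χ i = true`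
iff `i ∈ s`; `T` is independent, the rows are a clique and `χ i = false` iff `i ∈ s`. -/
def T_SHA : Prop := ∀ n : ℕ, ∃ d : ℕ, ∀ (V : Type) (G : SimpleGraph V) (S : Finset V),
  S.card = d → Shat G S → Univ n G

/-- **PAK** (60 min). Haussler's packing lemma (weak form). Assume `ε ≤ 1`. Choose `t` with
`(d (t + 1) ^ d + 1) ^ 2 (1 - ε) ^ t < 1` and `K = d (t + 1) ^ d + 1`. If `F` has more than `K`
members take `F' ⊆ F` with exactly `K` members. A function `c : Fin t → Fin m` does not separate `A ≠ B` if `c i ∉ A ∆ B` for all `i`; there are at most `((1 - ε) m) ^ t` such `c`, so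
some `c` separates all pairs of members of `F'`. The family of the sets
`univ.filter (fun i => c i ∈ A)`, `A ∈ F'`, in `Finset (Fin t)` has the same cardinality, and if it
shatters `S` then `c` is injective on `S` and `F` shatters `S.image c`, so `S.card < d`. By
`Finset.card_le_card_shatterer` and `Finset.card_shatterer_le_sum_vcDim` (Sauer–Shelah) it has at
most `Σ_{i < d} (t choose i) ≤ d (t + 1) ^ d` members, a contradiction. (`m = 0`, `d = 0`:
trivial.) -/
def T_PAK : Prop := ∀ (d : ℕ) (ε : ℝ), 0 < ε → ∃ K : ℕ, ∀ (m : ℕ) (F : Finset (Finset (Fin m))),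
  (∀ S : Finset (Fin m), F.Shatters S → S.card < d) →
  (∀ A ∈ F, ∀ B ∈ F, A ≠ B → ε * m ≤ ((symmDiff A B).card : ℝ)) → F.card ≤ K

/-- **ENT** (30 min). For `0 < x ≤ 1` with `1 + x ≤ 2 ^ (δ / 2)` and `ε > 0` with
`x ^ (-ε) ≤ 2 ^ (δ / 2)`: `#{Z} x ^ (ε n) ≤ Σ_Z x ^ |Z| = (1 + x) ^ n`
(`Finset.sum_pow_mul_eq_add_pow` or `Finset.prod_add`). -/
def T_ENT : Prop := ∀ δ : ℝ, 0 < δ → ∃ ε : ℝ, 0 < ε ∧ ∀ n : ℕ,
  ((((univ : Finset (Finset (Fin n))).filter (fun Z => (Z.card : ℝ) ≤ ε * n)).card : ℕ) : ℝ) ≤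
    2 ^ (δ * (n : ℝ))

/-- **CNT** (60 min; uses PAK and ENT as hypotheses `T_PAK`, `T_ENT`). Let `ε` be as in ENT for
`δ / 2` and `K ≥ 1` as in PAK for `d`, `ε`. For such a `G` let `F` be a maximal subfamily of the
family of the neighbourhoods `N v` with pairwise symmetric differences of size `≥ ε n`;
`F.Shatters S` implies `Shat G S`, so `|F| ≤ K`, and every `N v` differs from a member of `F` in
less than `ε n` elements (0 if it is in `F`). So `G` is determined by a list
`Fin K → Finset (Fin n)` of the members of `F`, a function `Fin n → Fin K` and the differences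
`Fin n → {Z | |Z| ≤ ε n}`: at most `2 ^ (n K) * K ^ n * 2 ^ (δ n ^ 2 / 2)` graphs
`≤ 2 ^ (δ n ^ 2)` for large `n`. -/
def T_CNT : Prop := ∀ (d : ℕ) (δ : ℝ), 0 < δ → ∃ N : ℕ, ∀ n : ℕ, N ≤ n →
  (Nat.card {G : SimpleGraph (Fin n) // ∀ S : Finset (Fin n), Shat G S → S.card < d} : ℝ) ≤
    2 ^ (δ * (n : ℝ) ^ 2)

end Pool.Agent.HER47
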