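import Pool.Agent.HER47.Targets

/-!
# Theorem H, part X: families of arbitrary graphs which are not forests

Targets `T_X`, each in its own file `Pool/Agent/HER47/P_X.lean`. Goal: for a family `F` of graphs
with at most `k` vertices, none of which is a forest (connected or not), almost all graphs without a
subgraph in `F` are reconstructible.
-/

set_option autoImplicit false

namespace Pool.Agent.HER47

open Finset Classical

/-- Graphs of girth greater than `k`. -/
def gcls (k : ℕ) : Cls := fun _ G => (k : ℕ∞) < G.egirth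

/-- Graphs without a (not necessarily induced) subgraph `F i`. -/
def Fr {ι : Type} {W : ι → Type} (F : ∀ i, SimpleGraph (W i)) : Cls :=
  fun _ G => ∀ i, (F i).Free G

/-- **EMB** (45 min). A forest with `t` vertices is contained in every nonempty finite graph with
all degrees at least `t`. Induction on `t`: a nonempty finite acyclic graph has a vertex `x` with at
most one neighbour; embed `T - x` (acyclic), then `x`: if `x` has a neighbour `y`, the image of
`y` has at least `t` neighbours and at most `t - 1` vertices are used; if `x` is isolated, there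
are more than `t` vertices. -/
def T_EMB : Prop := ∀ (W : Type) [Finite W] (T : SimpleGraph W), T.IsAcyclic →
  ∀ (V : Type) [Finite V] [Nonempty V] (G : SimpleGraph V),
  (∀ v, Nat.card W ≤ (G.neighborSet v).ncard) → ¬ T.Free G

/-- **FOR** (30 min; uses EMB as a hypothesis `T_EMB`). Induction on the number of vertices of `G`: if
`V` is empty there are no edges; otherwise by EMB there is a vertex `v` with fewer than `|W|`
neighbours; `G - v` (`G.induce {v}ᶜ`) is `T`-free and `G` has at most `|W|` more edges. -/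
def T_FOR : Prop := ∀ (W : Type) [Finite W] (T : SimpleGraph W), T.IsAcyclic →
  ∀ (V : Type) [Finite V] (G : SimpleGraph V), T.Free G →
  Nat.card G.edgeSet ≤ Nat.card W * Nat.card V

/-- **SPL** (45 min; uses FOR as a hypothesis `T_FOR`). Let `φ` be a copy of `H` in `G' ⊕g G₀`, `A`, `B`
the sets of the vertices mapped to the left, right side. There are no edges of `H` between `A` and
`B`. `H.induce B` is contained in `G₀`, so it is acyclic (a cycle has length at most
`|B| ≤ k < girth`). Let `S = φ(A) ⊆ V`. `G'.induce Sᶜ` does not contain `H.induce B` (otherwise `H` is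
contained in `G'`), so by FOR it has at most `|B| |V|` edges; at most `|A| |V|` edges of `G'` meet
`S`. Total `|W| |V| ≤ k |V|`. -/
def T_SPL : Prop := ∀ (W : Type) [Finite W] (H : SimpleGraph W) (k : ℕ), Nat.card W ≤ k →
  ∀ (V V' : Type) [Finite V] (G' : SimpleGraph V) (G₀ : SimpleGraph V'),
  (k : ℕ∞) < G₀.egirth → H.Free G' → ¬ H.Free (G' ⊕g G₀) →
  Nat.card G'.edgeSet ≤ k * Nat.card V

/-- **FEW** (20 min). A graph on `Fin m` is determined by its edge set, a subset with at most `q`
elements of the set of the at most `m ^ 2` pairs. (Functions `Fin q → Option (Sym2 (Fin m))`,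
`Fintype.card (Sym2 (Fin m)) ≤ m ^ 2`.) -/
def T_FEW : Prop := ∀ m q : ℕ,
  Nat.card {G : SimpleGraph (Fin m) // Nat.card G.edgeSet ≤ q} ≤ (m ^ 2 + 1) ^ q

/-- **GU** (40 min). The class of the graphs of girth greater than `k` is hereditary, closed under
subgraphs and under disjoint unions (a cycle of `G ⊕g H` lies on one side: by induction on the walk,
a walk of `G ⊕g H` which starts at `Sum.inl v` is the image of a walk of `G`), and such graphs
have no subgraph with at most `k` vertices which is not acyclic. -/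
def T_GU : Prop := ∀ k : ℕ, Her (gcls k) ∧
  (∀ (V V' : Type) (G : SimpleGraph V) (H : SimpleGraph V'), gcls k V G → gcls k V' H →
    gcls k (V ⊕ V') (G ⊕g H)) ∧
  (∀ (V : Type) (G H : SimpleGraph V), G ≤ H → gcls k V H → gcls k V G) ∧
  ∀ (W V : Type) [Finite W] (F : SimpleGraph W) (G : SimpleGraph V), Nat.card W ≤ k →
    ¬ F.IsAcyclic → gcls k V G → F.Free G

/-- **NEA** (60 min; uses SPL, FEW, GU, UNI as hypotheses, and that there are many graphs of girth
`> k`). Consider the pairs `(G₀, G')` of members of `gcls k` on `Fin a` and of `Fr F` on `Fin b`. If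
`G' ⊕g G₀` is in `Fr F`, map the pair to it (on `Fin (a + b)`, injective): at most
`cn (Fr F) (a + b)` pairs. Otherwise `G'` has at most `k b` edges (SPL): at most
`cn (gcls k) a * (b ^ 2 + 1) ^ (k b)` pairs (FEW). There is `b₀` with
`(b ^ 2 + 1) ^ (k b) ≤ 2 ^ (80 b (logb 2 b) ^ 3) ≤ cn (gcls k) b` for `b ≥ b₀` (hypothesis `Big`), so
this is at most `cn (gcls k) a * cn (gcls k) b ≤ cn (gcls k) (a + b) ≤ cn (Fr F) (a + b)` (UNI for
`gcls k`; GU, last part). For `b < b₀` it is at most
`B₀ * cn (gcls k) a ≤ B₀ * cn (gcls k) a * cn (gcls k) b ≤ B₀ * cn (Fr F) (a + b)`, as the empty graph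
is in `gcls k`. Put `B = B₀ + 2`. -/
def T_NEA : Prop := ∀ (ι : Type) (W : ι → Type) [∀ i, Finite (W i)] (F : ∀ i, SimpleGraph (W i))
  (k : ℕ), (∀ i, Nat.card (W i) ≤ k ∧ ¬ (F i).IsAcyclic) →
  (∃ N : ℕ, ∀ n : ℕ, N ≤ n → Big (gcls k) n) →
  ∃ B : ℕ, ∀ a b : ℕ, cn (gcls k) a * cn (Fr F) b ≤ B * cn (Fr F) (a + b)

/-- **SUG** (20 min; uses ALL as a hypothesis `T_ALL`). The same proof as `P_SUP.lean` (copy it), with
`cn D a` in the place of `cn C a` and the factor `B`: for `n ≥ B`, `B * n * n ^ n ≤ n ^ (n + 2) ≤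
2 ^ (l (n + 2)) ≤ 2 ^ (l ^ 3 r₀)`. -/
def T_SUG : Prop := ∀ (C D : Cls) (B : ℕ), Her C →
  (∀ a b : ℕ, cn D a * cn C b ≤ B * cn C (a + b)) →
  (∃ N : ℕ, ∀ n : ℕ, N ≤ n → Big D n) → ∃ N : ℕ, ∀ n : ℕ, N ≤ n → n ^ n * bn C n ≤ cn C n

end Pool.Agent.HER47
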